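import Pool.Agent.Lib_MP_2c424f_lc2.WDefs
import Pool.Agent.Lib_MP_2c424f_lc6a.Defs
import Pool.Agent.Lib_MP_2c424f_lo.Multi

/-!
# MP_2c424f_pr, corners in the linear regime, part VII: definitions

Everything is a function of one number `e` (`2^e` is the side of the cells): `h = s = 4^e`, `L = 2^(5e)`, `w = 2 L`.  The big box has the side
`NS e K = w 2^K + 6 h + 2`; large blocks `t : Blk d K` (coordinates `(t i).val ∈ {0, …, 2^K - 1}`) at the position `aS e t = 2 h + 2 + w t`, side
`lm false L s = 2 (L - 1) + 2 s`; a domino `(u, j)` is the union of the large blocks `u` and `nxt u j`: its side in the direction `j` is `lm false (2 L) s`.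
-/

set_option autoImplicit false

open Finset Filter

namespace Pool.Agent.LC

open Pool.Agent.LO Pool.Agent.LIN Pool.Agent.THR Pool.Agent.COR

/-- `h = s = 4^e` -/
def hS (e : ℕ) : ℕ := 4 ^ e

/-- `w = 2 L` -/
def wS (e : ℕ) : ℕ := 2 * 2 ^ (5 * e)

/-- side of the big box -/
def NS (e K : ℕ) : ℕ := wS e * 2 ^ K + 6 * hS e + 2

/-- exponent of the number of blocks: single block (`none`) or domino in the direction `j` -/
def rS (e : ℕ) {d : ℕ} (j : Option (Fin d)) (i : Fin d) : ℕ := if j = some i then 5 * e + 1 else 5 * e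

/-- half lengths -/
def LS (e : ℕ) {d : ℕ} (j : Option (Fin d)) (i : Fin d) : ℕ := 2 ^ rS e j i

/-- the side of the cells -/
noncomputable def eC (C d : ℕ) : ℕ := Nat.clog 2 (d ^ C)

section
variable {d q K : ℕ}

/-- position of a large block -/
def aS (e : ℕ) (t : Blk d K) (i : Fin d) : ℕ := 2 * hS e + 2 + wS e * (t i).val

/-- the colouring in a large block or domino -/
def fD (e : ℕ) (u : Blk d K) (j : Option (Fin d)) (f : BxV d (NS e K) → Fin q) :
    WV (fun _ : Fin d => false) (LS e j) (hS e) → Fin q :=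
  fun x => f (plc (aS e u) (fun i => lm false (LS e j i) (hS e)) x)

end

section
variable {d q : ℕ}

/-- the pattern of a block of a doubled box -/
def Wpat (L : Fin d → ℕ) (s : ℕ) (f : WV (fun _ : Fin d => false) L s → Fin q) (t : Fin d → ℕ) : Pat d q :=
  fun a b => f (Wpt (fun _ => false) L s t a b)

open scoped Classical in
/-- pure: most blocks are good with the same label -/
def WPU (L : Fin d → ℕ) (s : ℕ) (f : WV (fun _ : Fin d => false) L s → Fin q) : Prop :=
  ∃ A : Finset (Fin q), A.card = q / 2 ∧ (49 : ℝ) / 50 * ∏ i, ((L i : ℝ) - 1) ≤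
    ((univ.filter fun t : ∀ i, Fin (nbk false (L i)) => GDP (Wpat L s f fun i => (t i).val) ∧
      ALP (Wpat L s f fun i => (t i).val) = A).card : ℝ)

end

section
variable {d q K : ℕ}

/-- one of the dominoes which contain the large block is not pure -/
def BADd (e : ℕ) (t : Blk d K) (f : BxV d (NS e K) → Fin q) : Prop :=
  ∃ (u : Blk d K) (j : Fin d), (u j).val + 1 < 2 ^ K ∧ (u = t ∨ nxt u j = t) ∧ ¬ WPU (LS e (some j)) (hS e) (fD e u (some j) f)

open scoped Classical in
/-- most blocks of the large block are good with the label `A` -/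
def NGd (e : ℕ) (A : Finset (Fin q)) (t : Blk d K) (f : BxV d (NS e K) → Fin q) : Prop :=
  (19 : ℝ) / 20 * ∏ i, ((LS e (none : Option (Fin d)) i : ℝ) - 1) ≤
    ((univ.filter fun τ : ∀ i : Fin d, Fin (nbk false (LS e (none : Option (Fin d)) i)) =>
      GDP (Wpat (LS e none) (hS e) (fD e t none f) fun i => (τ i).val) ∧
        ALP (Wpat (LS e none) (hS e) (fD e t none f) fun i => (τ i).val) = A).card : ℝ)

open scoped Classical in
/-- in at least half of the blocks of the large block the colour `c` belongs to the label -/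
def labD (e : ℕ) (c : Fin q) (t : Blk d K) (f : BxV d (NS e K) → Fin q) : Prop :=
  (1 : ℝ) / 2 * ∏ i, ((LS e (none : Option (Fin d)) i : ℝ) - 1) ≤
    ((univ.filter fun τ : ∀ i : Fin d, Fin (nbk false (LS e (none : Option (Fin d)) i)) =>
      c ∈ ALP (Wpat (LS e none) (hS e) (fD e t none f) fun i => (τ i).val)).card : ℝ)

/-- far large blocks -/
def farD (t t' : Blk d K) : Prop := ∃ i, (t i).val + 4 ≤ (t' i).val ∨ (t' i).val + 4 ≤ (t i).val

end

end Pool.Agent.LC
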