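import Pool.Agent.Lib_MP_2c424f_lc7.Defs
import Pool.Agent.Lib_MP_2c424f_thr.A1

/-!
# LC7 E01: the magnetisation

`ra d q = 2 d/q ∈ [1000, 2000]`; `mfe_exists`, so `ms d q` satisfies `MFE`; `mfe_nondeg`: `a² (1 - m²) < 1`; `mfe_lt`: `m < 1`.
-/

set_option autoImplicit false

open Finset Filter

namespace Pool.Agent.LC

open Pool.Agent.LO Pool.Agent.LIN Pool.Agent.THR Pool.Agent.COR

private theorem E01_q {d q : ℕ} (hR : Rg d q) (hd : 1 ≤ d) : 2 ≤ q := by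
  obtain ⟨⟨k, hk⟩, -, h⟩ := hR
  omega

private theorem E01_ra {d q : ℕ} (hR : Rg d q) (hd : 1 ≤ d) : 1000 ≤ ra d q := by
  have hq := E01_q hR hd
  have hq' : (0 : ℝ) < q := by exact_mod_cast (by omega : 0 < q)
  have h : ((1000 * q : ℕ) : ℝ) ≤ ((2 * d : ℕ) : ℝ) := by exact_mod_cast hR.2.1
  push_cast at h
  unfold ra
  rw [le_div_iff₀ hq']
  exact h

theorem ms_MFE {d q : ℕ} (hR : Rg d q) (hd : 1 ≤ d) : MFE (ra d q) (ms d q) := by
  have h1 := E01_ra hR hd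
  have h2 : ∃ m : ℝ, MFE (ra d q) m := mfe_exists _ (by linarith)
  unfold ms
  rw [dif_pos h2]
  exact h2.choose_spec

theorem ms_ge {d q : ℕ} (hR : Rg d q) (hd : 1 ≤ d) : 999 / 1000 ≤ ms d q ∧ ms d q < 1 := by
  have h1 := E01_ra hR hd
  have h2 := ms_MFE hR hd
  refine ⟨?_, mfe_lt _ _ h2⟩
  have h3 := mfe_nondeg _ _ (by linarith) h2
  have h4 : 0 < ms d q := h2.1
  have h5 := mfe_lt _ _ h2
  by_contra hc
  push Not at hc
  have h6 : (ms d q) ^ 2 ≤ (999 / 1000) ^ 2 := by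
    apply pow_le_pow_left₀ h4.le hc.le
  have h7 : (1000 : ℝ) ^ 2 ≤ (ra d q) ^ 2 := pow_le_pow_left₀ (by norm_num) h1 2
  have h8 : (0 : ℝ) ≤ 1 - (ms d q) ^ 2 - (1 - (999 / 1000) ^ 2) := by linarith
  nlinarith

theorem Rg_pos {d q : ℕ} (hR : Rg d q) (hd : 1 ≤ d) : 2 ≤ q := by
  exact E01_q hR hd

end Pool.Agent.LC
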