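import Pool.Agent.Lib_MP_2c424f_lc7.E01

/-!
# LC7 E02: neighbouring good blocks have the same label

The face `a j = b j = true` of `g` is the face `a j = b j = false` of `g'`; `frq e (some (j, true)) c g = frq e (some (j, false)) c g'` (bijection of the pairs of
bit vectors, `od` is the same).  If `c` has the label `st false` for `g` the frequency at the even points of the face is `≥ 1 + m - η`; if it had the label
`st true` for `g'` it would be `≤ 1 - m + η` (`η = 1/1000`, `m ≥ 999/1000`).  So the labels agree (`G0P`: every colour has a label).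
Also `st true` and `st false` exclude each other.
-/

set_option autoImplicit false

open Finset Filter

namespace Pool.Agent.LC

open Pool.Agent.LO Pool.Agent.LIN Pool.Agent.THR Pool.Agent.COR

private theorem e02_flp {d : ℕ} (a : Bt d) (j : Fin d) : flp (flp a j) j = a := by
  funext i
  by_cases h : i = j
  · subst h
    simp [flp]
  · simp [flp, Function.update_of_ne h]

private theorem e02_flpj {d : ℕ} (a : Bt d) (j : Fin d) : flp a j j = !a j := by
  simp [flp]

private theorem e02_od {d : ℕ} (a b : Bt d) (j : Fin d) : od (flp a j) (flp b j) ↔ od a b := by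
  unfold od
  have : (univ.filter fun i => flp a j i ≠ flp b j i) = univ.filter fun i => a i ≠ b i := by
    ext i
    simp only [mem_filter, mem_univ, true_and]
    by_cases h : i = j
    · subst h
      rw [e02_flpj, e02_flpj]
      simp
    · simp [flp, Function.update_of_ne h]
  rw [this]

open scoped Classical in
private theorem e02_mem_e {d : ℕ} (s : Shp d) (p : Bt d × Bt d) :
    p ∈ eS s ↔ ¬ od p.1 p.2 ∧ inS s p.1 p.2 := by
  unfold eS
  rw [mem_filter]
  exact ⟨fun h => h.2, fun h => ⟨mem_univ _, h⟩⟩

open scoped Classical in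
private theorem e02_mem_o {d : ℕ} (s : Shp d) (p : Bt d × Bt d) :
    p ∈ oS s ↔ od p.1 p.2 ∧ inS s p.1 p.2 := by
  unfold oS
  rw [mem_filter]
  exact ⟨fun h => h.2, fun h => ⟨mem_univ _, h⟩⟩

/-- the points of the shape with the parity `e` -/
private noncomputable def eoS {d : ℕ} (e : Bool) (s : Shp d) : Finset (Bt d × Bt d) := if e then eS s else oS s

private theorem e02_mem {d : ℕ} (e : Bool) (s : Shp d) (p : Bt d × Bt d) :
    p ∈ eoS e s ↔ (od p.1 p.2 ↔ e = false) ∧ inS s p.1 p.2 := by
  unfold eoS
  cases e
  · simp only [Bool.false_eq_true, if_false]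
    rw [e02_mem_o]
    simp
  · simp only [if_true]
    rw [e02_mem_e]
    simp

private theorem e02_face {d : ℕ} (e : Bool) (j : Fin d) (β : Bool) (p : Bt d × Bt d)
    (hp : p ∈ eoS e (some (j, β))) : (flp p.1 j, flp p.2 j) ∈ eoS e (some (j, !β)) := by
  rw [e02_mem] at hp ⊢
  refine ⟨?_, ?_⟩
  · change od (flp p.1 j) (flp p.2 j) ↔ _
    rw [e02_od]
    exact hp.1
  · have h : p.1 j = β ∧ p.2 j = β := hp.2
    change flp p.1 j j = !β ∧ flp p.2 j j = !β
    rw [e02_flpj, e02_flpj, h.1, h.2]
    exact ⟨rfl, rfl⟩

private theorem e02_frq {d q : ℕ} (e : Bool) (s : Shp d) (c : Fin q) (g : Pat d q) :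
    frq e s c g = (∑ p ∈ eoS e s, if g p.1 p.2 = c then (q : ℝ) else 0) / ((eoS e s).card : ℝ) := by
  unfold frq eoS
  congr 1

private theorem frq_face {d q : ℕ} (e : Bool) (j : Fin d) (c : Fin q) (g g' : Pat d q)
    (h : ∀ a b : Bt d, a j = true → b j = true → g a b = g' (flp a j) (flp b j)) :
    frq e (some (j, true)) c g = frq e (some (j, false)) c g' := by
  rw [e02_frq, e02_frq]
  have hinv : ∀ p : Bt d × Bt d, (flp (flp p.1 j) j, flp (flp p.2 j) j) = p := fun p => by
    rw [e02_flp, e02_flp]
  have hc : (eoS e (some (j, true))).card = (eoS e (some (j, false))).card := by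
    refine Finset.card_bij' (fun p _ => (flp p.1 j, flp p.2 j)) (fun p _ => (flp p.1 j, flp p.2 j))
      (fun p hp => e02_face e j true p hp) (fun p hp => e02_face e j false p hp)
      (fun p _ => hinv p) (fun p _ => hinv p)
  have hs : (∑ p ∈ eoS e (some (j, true)), if g p.1 p.2 = c then (q : ℝ) else 0) =
      ∑ p ∈ eoS e (some (j, false)), if g' p.1 p.2 = c then (q : ℝ) else 0 := by
    refine Finset.sum_bij' (fun p _ => (flp p.1 j, flp p.2 j)) (fun p _ => (flp p.1 j, flp p.2 j))
      (fun p hp => e02_face e j true p hp) (fun p hp => e02_face e j false p hp)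
      (fun p _ => hinv p) (fun p _ => hinv p) (fun p hp => ?_)
    rw [e02_mem] at hp
    have h1 : p.1 j = true ∧ p.2 j = true := hp.2
    rw [h p.1 p.2 h1.1 h1.2]
  rw [hc, hs]

private theorem e02_lab {d q : ℕ} {g : Pat d q} (hg : G0P g) (c : Fin q) : st et true c g ∨ st et false c g := by
  by_contra hno
  rw [not_or] at hno
  exact hg c hno

open scoped Classical in
private theorem e02_ALP {d q : ℕ} (g : Pat d q) (c : Fin q) : c ∈ ALP g ↔ st et false c g := by
  unfold ALP
  rw [mem_filter]
  exact ⟨fun h => h.2, fun h => ⟨mem_univ _, h⟩⟩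

/-- the labels of the faces exclude each other -/
private theorem e02_key {d q : ℕ} (hR : Rg d q) (hd : 1 ≤ d) (j : Fin d) (β β' : Bool) (g g' : Pat d q) (c : Fin q)
    (hf : frq true (some (j, β)) c g = frq true (some (j, β')) c g') (h1 : st et false c g) (h2 : st et true c g') :
    False := by
  have hm := (ms_ge hR hd).1
  have h3 := (h1 (some (j, β))).1
  have h4 := (h2 (some (j, β'))).2
  simp only [Bool.not_false] at h3
  rw [hf] at h3
  rw [abs_le] at h3 h4
  unfold et at h3 h4
  linarith [h3.1, h4.2]

theorem ALP_adj {d q : ℕ} (hR : Rg d q) (hd : 1 ≤ d) (j : Fin d) (g g' : Pat d q)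
    (h : ∀ a b : Bt d, a j = true → b j = true → g a b = g' (flp a j) (flp b j)) (hg : G0P g) (hg' : G0P g') :
    ALP g = ALP g' := by
  have hf : ∀ c, frq true (some (j, true)) c g = frq true (some (j, false)) c g' := fun c =>
    frq_face true j c g g' h
  ext c
  rw [e02_ALP, e02_ALP]
  constructor
  · intro h1
    rcases e02_lab hg' c with h2 | h2
    · exact (e02_key hR hd j true false g g' c (hf c) h1 h2).elim
    · exact h2
  · intro h1
    rcases e02_lab hg c with h2 | h2
    · exact (e02_key hR hd j false true g' g c (hf c).symm h1 h2).elim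
    · exact h2

theorem not_ALP {d q : ℕ} (g : Pat d q) (hg : G0P g) (c : Fin q) (hc : c ∉ ALP g) : st et true c g := by
  rcases e02_lab hg c with h | h
  · exact h
  · exact (hc ((e02_ALP g c).2 h)).elim

end Pool.Agent.LC
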