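import Pool.Agent.Lib_MP_2c424f_lc7.E02
import Pool.Agent.Lib_MP_2c424f_cor.F01

/-!
# LC7 E03: boxes which are not pure

As `COR.not_pure` (`Lib_MP_2c424f_cor/F02.lean`).  If the conclusion fails apply `COR.lines` with `α = ℕ`, `s i = range (L i - 1)`,
`B = {t : ¬ GDP (Wpat t)}`, `lab t = ALP (Wpat t)`, `w` = the bound `Lm`; consecutive blocks `t`, `update t i (t i + 1)` share a face:
`Wpt .. t a b = Wpt .. (update t i (t i + 1)) (flp a i) (flp b i)` if `a i = b i = true` (`ALP_adj`).  Some block is `GDP` with `ALP = A`, so `|A| = q/2`.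
-/

set_option autoImplicit false

open Finset Filter

namespace Pool.Agent.LC

open Pool.Agent.LO Pool.Agent.LIN Pool.Agent.THR Pool.Agent.COR

private theorem E03_adj {d q : ℕ} (L : Fin d → ℕ) (s : ℕ) (f : WV (fun _ : Fin d => false) L s → Fin q)
    (t : Fin d → ℕ) (i : Fin d) (m : ℕ) (a b : Bt d) (ha : a i = true) (hb : b i = true) :
    Wpat L s f (Function.update t i m) a b =
      Wpat L s f (Function.update t i (m + 1)) (flp a i) (flp b i) := by
  unfold Wpat
  congr 1
  funext k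
  unfold Wpt
  congr 1
  by_cases hk : k = i
  · subst hk
    unfold flp
    simp only [Function.update_self, ha, hb]
    simp only [b01, Bool.not_true]
    norm_num
    ring
  · unfold flp
    rw [Function.update_of_ne hk, Function.update_of_ne hk, Function.update_of_ne hk,
      Function.update_of_ne hk]

private theorem E03_lines {d : ℕ} (hd : 1 ≤ d) {α L : Type} (s : Fin d → Finset α) (hne : ∀ i, (s i).Nonempty)
    (w : ℝ) (hs : ∀ i, ((s i).card : ℝ) ≤ w) (B : Finset (Fin d → α))
    (hB : (B.card : ℝ) * (100 * d * w) ≤ ∏ i, ((s i).card : ℝ)) (lab : (Fin d → α) → L)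
    (hl : ∀ t ∈ Fintype.piFinset s, ∀ i, ∀ x ∈ s i, (∀ y ∈ s i, Function.update t i y ∉ B) →
      lab (Function.update t i x) = lab t) :
    ∃ (A : L) (P : Finset (Fin d → α)), (∀ t ∈ P, t ∈ Fintype.piFinset s ∧ t ∉ B ∧ lab t = A) ∧
      49 / 50 * ∏ i, ((s i).card : ℝ) ≤ (P.card : ℝ) := by
  classical
  obtain ⟨A, hA⟩ := lines hd s hne w hs B hB lab hl
  refine ⟨A, _, fun t ht => ?_, hA⟩
  exact Finset.mem_filter.1 ht

private theorem E03_line {d q : ℕ} (hR : Rg d q) (hd : 1 ≤ d) (L : Fin d → ℕ) (s : ℕ)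
    (f : WV (fun _ : Fin d => false) L s → Fin q) (t : Fin d → ℕ) (i : Fin d) (n : ℕ)
    (hG : ∀ m, m < n → GDP (Wpat L s f (Function.update t i m))) (m : ℕ) (hm : m < n) :
    ALP (Wpat L s f (Function.update t i m)) = ALP (Wpat L s f (Function.update t i 0)) := by
  induction m with
  | zero => rfl
  | succ m ih =>
    rw [← ih (by omega)]
    exact (ALP_adj hR hd i _ _ (fun a b ha hb => E03_adj L s f t i m a b ha hb)
      (hG m (by omega)).1 (hG (m + 1) hm).1).symm

open scoped Classical in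
theorem not_WPU {d q : ℕ} (hR : Rg d q) (hd : 1 ≤ d) (L : Fin d → ℕ) (s : ℕ) (hL : ∀ i, 2 ≤ L i) (Lm : ℝ) (hLm : ∀ i, (L i : ℝ) ≤ Lm)
    (f : WV (fun _ : Fin d => false) L s → Fin q) (h : ¬ WPU L s f) :
    (∏ i, ((L i : ℝ) - 1)) / (100 * d * Lm) ≤
      ((univ.filter fun t : ∀ i, Fin (nbk false (L i)) => ¬ GDP (Wpat L s f fun i => (t i).val)).card : ℝ) := by
  classical
  by_contra hcon
  push Not at hcon
  have hnb : ∀ i, nbk false (L i) = L i - 1 := fun i => rfl
  set σ : Fin d → Finset ℕ := fun i => Finset.range (L i - 1) with hσ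
  have hσc : ∀ i, ((σ i).card : ℝ) = (L i : ℝ) - 1 := by
    intro i
    rw [hσ, Finset.card_range, Nat.cast_sub (by have := hL i; omega)]
    simp
  have hprod : ∏ i, ((σ i).card : ℝ) = ∏ i, ((L i : ℝ) - 1) :=
    Finset.prod_congr rfl fun i _ => hσc i
  have hne : ∀ i, (σ i).Nonempty := by
    intro i
    rw [hσ]
    exact Finset.nonempty_range_iff.2 (by have := hL i; omega)
  have hcw : ∀ i, ((σ i).card : ℝ) ≤ Lm := by
    intro i
    rw [hσc]
    have := hLm i
    linarith
  have hLm0 : (0 : ℝ) < Lm := by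
    have h1 := hLm ⟨0, by omega⟩
    have h2 : (2 : ℝ) ≤ (L ⟨0, by omega⟩ : ℝ) := by exact_mod_cast hL _
    linarith
  let ι : (∀ i, Fin (nbk false (L i))) → (Fin d → ℕ) := fun t i => (t i).val
  have hιinj : Function.Injective ι := by
    intro t t' h1
    funext i
    exact Fin.ext (congrFun h1 i)
  set B : Finset (Fin d → ℕ) := (univ.filter fun t : ∀ i, Fin (nbk false (L i)) =>
    ¬ GDP (Wpat L s f fun i => (t i).val)).image ι with hB
  have hBcard : (B.card : ℝ) = ((univ.filter fun t : ∀ i, Fin (nbk false (L i)) =>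
      ¬ GDP (Wpat L s f fun i => (t i).val)).card : ℝ) := by
    rw [hB, Finset.card_image_of_injective _ hιinj]
  have hmem : ∀ t : Fin d → ℕ, t ∈ Fintype.piFinset σ → ∃ t' : ∀ i, Fin (nbk false (L i)), ι t' = t := by
    intro t ht
    refine ⟨fun i => ⟨t i, ?_⟩, rfl⟩
    have h1 := Fintype.mem_piFinset.1 ht i
    rw [hσ] at h1
    exact Finset.mem_range.1 h1
  have hmB : ∀ t, t ∈ Fintype.piFinset σ → (t ∉ B ↔ GDP (Wpat L s f t)) := by
    intro t ht
    obtain ⟨t', rfl⟩ := hmem t ht
    rw [hB, Finset.mem_image]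
    constructor
    · intro h1
      by_contra h2
      exact h1 ⟨t', Finset.mem_filter.2 ⟨Finset.mem_univ _, h2⟩, rfl⟩
    · rintro h1 ⟨t'', h2, h3⟩
      have h4 := hιinj h3
      subst h4
      exact (Finset.mem_filter.1 h2).2 h1
  have hd0 : (0 : ℝ) < d := by exact_mod_cast hd
  have hdw : (0 : ℝ) < 100 * d * Lm := by positivity
  have hBc : (B.card : ℝ) * (100 * d * Lm) ≤ ∏ i, ((σ i).card : ℝ) := by
    rw [hprod, hBcard]
    rw [lt_div_iff₀ hdw] at hcon
    exact hcon.le
  obtain ⟨A, P, hP, hA⟩ := E03_lines hd σ hne Lm hcw B hBc (fun t => ALP (Wpat L s f t)) (by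
    intro t ht i x hx hall
    have hup : ∀ y ∈ σ i, Function.update t i y ∈ Fintype.piFinset σ := by
      intro y hy
      rw [Fintype.mem_piFinset]
      intro j
      by_cases hj : j = i
      · subst hj
        rw [Function.update_self]
        exact hy
      · rw [Function.update_of_ne hj]
        exact Fintype.mem_piFinset.1 ht j
    have hmr : ∀ y, y ∈ σ i ↔ y < L i - 1 := by
      intro y
      rw [hσ]
      exact Finset.mem_range
    have hG : ∀ m, m < L i - 1 → GDP (Wpat L s f (Function.update t i m)) := by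
      intro m hm
      have h3 : m ∈ σ i := (hmr m).2 hm
      exact (hmB _ (hup _ h3)).1 (hall _ h3)
    have hline := E03_line hR hd L s f t i (L i - 1) hG
    have h1 := hline x ((hmr x).1 hx)
    have h2 := hline (t i) ((hmr _).1 (Fintype.mem_piFinset.1 ht i))
    rw [Function.update_eq_self] at h2
    show ALP (Wpat L s f (Function.update t i x)) = ALP (Wpat L s f t)
    rw [h1, h2])
  rw [hprod] at hA
  have hA' : 49 / 50 * ∏ i, ((L i : ℝ) - 1) ≤
      ((univ.filter fun t : ∀ i, Fin (nbk false (L i)) => GDP (Wpat L s f fun i => (t i).val) ∧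
        ALP (Wpat L s f fun i => (t i).val) = A).card : ℝ) := by
    refine hA.trans ?_
    have h2 : P ⊆ (univ.filter fun t : ∀ i, Fin (nbk false (L i)) =>
        GDP (Wpat L s f fun i => (t i).val) ∧ ALP (Wpat L s f fun i => (t i).val) = A).image ι := by
      intro t ht
      obtain ⟨h3, h4, h5⟩ := hP t ht
      obtain ⟨t', rfl⟩ := hmem t h3
      exact Finset.mem_image.2 ⟨t', Finset.mem_filter.2 ⟨Finset.mem_univ _, (hmB _ h3).1 h4, h5⟩, rfl⟩
    have h6 := (Finset.card_le_card h2).trans Finset.card_image_le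
    exact_mod_cast h6
  have hpos : (0 : ℝ) < ∏ i, ((L i : ℝ) - 1) := by
    refine Finset.prod_pos fun i _ => ?_
    have h2 : (2 : ℝ) ≤ (L i : ℝ) := by exact_mod_cast hL i
    linarith
  refine h ⟨A, ?_, hA'⟩
  have h1 : (0 : ℝ) < ((univ.filter fun t : ∀ i, Fin (nbk false (L i)) => GDP (Wpat L s f fun i => (t i).val) ∧
      ALP (Wpat L s f fun i => (t i).val) = A).card : ℝ) := by
    refine lt_of_lt_of_le ?_ hA'
    exact mul_pos (by norm_num) hpos
  have h2 : 0 < (univ.filter fun t : ∀ i, Fin (nbk false (L i)) => GDP (Wpat L s f fun i => (t i).val) ∧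
      ALP (Wpat L s f fun i => (t i).val) = A).card := by
    exact_mod_cast h1
  obtain ⟨t, ht⟩ := Finset.card_pos.1 h2
  have ht' := (Finset.mem_filter.1 ht).2
  rw [← ht'.2]
  exact ht'.1.2

end Pool.Agent.LC
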