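import Pool.Agent.Lib_MP_2c424f_lc7.Defs
import Pool.Agent.Lib_MP_2c424f_lc2.A01

/-!
# LC7 E04: union bound over the families of bad blocks

Let at least `m₀` blocks of `f` be not good.  For each of them choose `τ` with `BDP τ` (`not_GDP`) and let `Γ t = some τ`, `Γ t = none` elsewhere (also
outside the range): `WE Γ f` and `Wn Γ ≥ m₀`.  There are `(q+2)^(∏ nbk)` such families.  `x ≤ 1`.  `B` is the bound for each family.
-/

set_option autoImplicit false

open Finset Filter

namespace Pool.Agent.LC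

open Pool.Agent.LO Pool.Agent.LIN Pool.Agent.THR Pool.Agent.COR

open scoped Classical in
/-- extension of a family by `none` -/
private noncomputable def E04_ext {d q : ℕ} (n : Fin d → ℕ) (g : (∀ i, Fin (n i)) → Option (Option (Fin q))) :
    (Fin d → ℕ) → Option (Option (Fin q)) :=
  fun t => if h : ∀ i, t i < n i then g (fun i => ⟨t i, h i⟩) else none

private theorem E04_ext_val {d q : ℕ} (n : Fin d → ℕ) (g : (∀ i, Fin (n i)) → Option (Option (Fin q)))
    (t : ∀ i, Fin (n i)) : E04_ext n g (fun i => (t i).val) = g t := by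
  unfold E04_ext
  rw [dif_pos (fun i => (t i).isLt)]

open scoped Classical in
private theorem E04_union {W : Type} [Fintype W] [DecidableEq W] {q : ℕ} (B : SimpleGraph W) (gl : W → Prop)
    (P : (W → Fin q) → Prop) {ι : Type} (S : Finset ι) (Q : ι → (W → Fin q) → Prop)
    (h : ∀ f, P f → ∃ i ∈ S, Q i f) : N2 B gl P ≤ ∑ i ∈ S, N2 B gl (Q i) := by
  unfold N2
  rw [← Nat.cast_sum]
  apply Nat.cast_le.2
  refine le_trans (Finset.card_le_card ?_) Finset.card_biUnion_le
  intro p hp
  rw [Finset.mem_filter] at hp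
  obtain ⟨i, hi, hQ⟩ := h p.1 hp.2.2.2.2
  exact Finset.mem_biUnion.2 ⟨i, hi, Finset.mem_filter.2 ⟨hp.1, hp.2.1, hp.2.2.1, hp.2.2.2.1, hQ⟩⟩

open scoped Classical in
theorem many_bad {d q : ℕ} (L : Fin d → ℕ) (s : ℕ) (m₀ Z x : ℝ) (hZ : 0 ≤ Z) (hx : 0 < x) (hx1 : x ≤ 1)
    (hb : ∀ Γ : (Fin d → ℕ) → Option (Option (Fin q)),
      N2 (WG (fun _ : Fin d => false) L s) (Wgl (fun _ : Fin d => false) L s) (WE (fun _ => false) L s Γ) ≤
        Z * x ^ Wn (fun _ => false) L Γ) :
    N2 (WG (fun _ : Fin d => false) L s) (Wgl (fun _ : Fin d => false) L s) (fun f : WV (fun _ : Fin d => false) L s → Fin q =>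
        m₀ ≤ ((univ.filter fun t : ∀ i, Fin (nbk false (L i)) => ¬ GDP (Wpat L s f fun i => (t i).val)).card : ℝ)) ≤
      ((q : ℝ) + 2) ^ (∏ i, nbk false (L i)) * Z * x ^ m₀ := by
  let S : Finset ((∀ i, Fin (nbk false (L i))) → Option (Option (Fin q))) := univ.filter fun g =>
    m₀ ≤ ((Wn (fun _ : Fin d => false) L (E04_ext (fun i => nbk false (L i)) g) : ℕ) : ℝ)
  have h1 := E04_union (WG (fun _ : Fin d => false) L s) (Wgl (fun _ : Fin d => false) L s)
    (fun f : WV (fun _ : Fin d => false) L s → Fin q =>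
        m₀ ≤ ((univ.filter fun t : ∀ i, Fin (nbk false (L i)) => ¬ GDP (Wpat L s f fun i => (t i).val)).card : ℝ))
    S (fun g => WE (fun _ => false) L s (E04_ext (fun i => nbk false (L i)) g)) (by
      intro f hf
      have hch : ∀ t : (∀ i, Fin (nbk false (L i))), ∃ o : Option (Option (Fin q)),
          (¬ GDP (Wpat L s f fun i => (t i).val) ↔ o ≠ none) ∧
          ∀ τ, o = some τ → BDP τ (Wpat L s f fun i => (t i).val) := by
        intro t
        by_cases h : GDP (Wpat L s f fun i => (t i).val)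
        · exact ⟨none, ⟨fun h' => absurd h h', fun h' => absurd rfl h'⟩, fun τ hτ => by simp at hτ⟩
        · obtain ⟨τ, hτ⟩ := (not_GDP _).1 h
          refine ⟨some τ, ⟨fun _ => by simp, fun _ => h⟩, fun τ' hτ' => ?_⟩
          rw [← Option.some.inj hτ']
          exact hτ
      choose g hg1 hg2 using hch
      refine ⟨g, ?_, ?_⟩
      · refine Finset.mem_filter.2 ⟨Finset.mem_univ _, le_trans hf ?_⟩
        apply Nat.cast_le.2
        refine Finset.card_le_card ?_
        intro t ht
        refine Finset.mem_filter.2 ⟨Finset.mem_univ _, ?_⟩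
        rw [E04_ext_val (fun i => nbk false (L i)) g t]
        exact (hg1 t).1 (Finset.mem_filter.1 ht).2
      · intro t ht τ hτ
        have h2 := E04_ext_val (fun i => nbk false (L i)) g (fun i => ⟨t i, ht i⟩)
        exact hg2 (fun i => ⟨t i, ht i⟩) τ (h2.symm.trans hτ))
  refine h1.trans ?_
  have h2 : ∀ g ∈ S, N2 (WG (fun _ : Fin d => false) L s) (Wgl (fun _ : Fin d => false) L s)
      (WE (fun _ => false) L s (E04_ext (fun i => nbk false (L i)) g)) ≤ Z * x ^ m₀ := by
    intro g hg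
    refine (hb _).trans ?_
    refine mul_le_mul_of_nonneg_left ?_ hZ
    rw [← Real.rpow_natCast]
    exact Real.rpow_le_rpow_of_exponent_ge hx hx1 (Finset.mem_filter.1 hg).2
  refine (Finset.sum_le_sum h2).trans ?_
  rw [Finset.sum_const, nsmul_eq_mul, mul_assoc]
  refine mul_le_mul_of_nonneg_right ?_ (mul_nonneg hZ (Real.rpow_nonneg hx.le _))
  have h3 : S.card ≤ (q + 2) ^ (∏ i, nbk false (L i)) := by
    refine (Finset.card_le_univ S).trans (le_of_eq ?_)
    rw [Fintype.card_fun, Fintype.card_option, Fintype.card_option, Fintype.card_fin, Fintype.card_pi]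
    simp only [Fintype.card_fin]
  calc ((S.card : ℕ) : ℝ) ≤ (((q + 2) ^ (∏ i, nbk false (L i)) : ℕ) : ℝ) := Nat.cast_le.2 h3
    _ = ((q : ℝ) + 2) ^ (∏ i, nbk false (L i)) := by push_cast; ring

end Pool.Agent.LC
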