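import Pool.Agent.Lib_MP_2c424f_lc7.Defs

/-!
# LC7 E05: numbers

`e = eC C d`: `d^C ≤ 2^e ≤ 2 d^C` (`Nat.le_pow_clog`, `Nat.pow_pred_clog_lt_self`).
-/

set_option autoImplicit false

open Finset Filter

namespace Pool.Agent.LC

open Pool.Agent.LO Pool.Agent.LIN Pool.Agent.THR Pool.Agent.COR

private theorem e05_ge (C d : ℕ) : (d : ℝ) ^ C ≤ 2 ^ eC C d := by
  have h := Nat.le_pow_clog (b := 2) (by norm_num) (d ^ C)
  unfold eC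
  exact_mod_cast h

private theorem e05_le (C : ℕ) {d : ℕ} (hd : 1 ≤ d) : (2 : ℝ) ^ eC C d ≤ 2 * (d : ℝ) ^ C := by
  have h1 : 1 ≤ d ^ C := Nat.one_le_pow _ _ hd
  have key : 2 ^ eC C d ≤ 2 * d ^ C := by
    rcases Nat.eq_or_lt_of_le h1 with h2 | h2
    · have h3 : eC C d = 0 := by
        unfold eC
        rw [← h2]
        exact Nat.clog_one_right 2
      rw [h3, ← h2]
      norm_num
    · have h3 : 2 ^ (eC C d).pred < d ^ C := Nat.pow_pred_clog_lt_self (by norm_num) h2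
      have h4 : 2 ^ eC C d ≤ 2 ^ ((eC C d).pred + 1) := by
        apply Nat.pow_le_pow_right (by norm_num)
        rw [Nat.pred_eq_sub_one]
        omega
      calc 2 ^ eC C d ≤ 2 ^ ((eC C d).pred + 1) := h4
        _ = 2 * 2 ^ (eC C d).pred := by rw [pow_succ, mul_comm]
        _ ≤ 2 * d ^ C := Nat.mul_le_mul_left 2 h3.le
  exact_mod_cast key

theorem eC_le {C d : ℕ} (hd : 2 ≤ d) (hC : 1 ≤ C) : (d : ℝ) ^ C ≤ 2 ^ eC C d ∧ (2 : ℝ) ^ eC C d ≤ 2 * (d : ℝ) ^ C :=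
  ⟨e05_ge C d, e05_le C (by omega)⟩

private theorem e05_small (A : ℝ) (k : ℕ) : ∃ d₀ : ℕ, ∀ d : ℕ, d₀ ≤ d → A * (d : ℝ) ^ k ≤ 2 ^ d := by
  have h := tendsto_pow_const_div_const_pow_of_one_lt k (r := (2 : ℝ)) (by norm_num)
  have hpos : (0 : ℝ) < 1 / (|A| + 1) := by positivity
  have h2 := (h.eventually (gt_mem_nhds hpos)).exists_forall_of_atTop
  obtain ⟨d₀, hd₀⟩ := h2
  refine ⟨d₀, fun d hd => ?_⟩
  have h3 := hd₀ d hd
  have h4 : (0 : ℝ) < 2 ^ d := by positivity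
  have h5 : (0 : ℝ) < |A| + 1 := by positivity
  rw [div_lt_div_iff₀ h4 h5, one_mul] at h3
  have h6 : (0 : ℝ) ≤ (d : ℝ) ^ k := by positivity
  have h7 : A ≤ |A| + 1 := by linarith [le_abs_self A]
  nlinarith

/-- `h² ≤ 2^d`, `L ≤ 2^(d/2)` in the form `L² ≤ 2^d / d^a` -/
theorem eC_small (C a : ℕ) : ∃ d₀ : ℕ, ∀ d : ℕ, d₀ ≤ d →
    ((hS (eC C d) : ℝ)) ^ 2 ≤ 2 ^ d ∧ (d : ℝ) ^ a * ((2 : ℝ) ^ (5 * eC C d)) ^ 2 ≤ 2 ^ d := by
  obtain ⟨d₁, h₁⟩ := e05_small 16 (4 * C)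
  obtain ⟨d₂, h₂⟩ := e05_small 1024 (a + 10 * C)
  refine ⟨max 1 (max d₁ d₂), fun d hd => ?_⟩
  have hd1 : 1 ≤ d := le_trans (le_max_left _ _) hd
  have hd2 : d₁ ≤ d := le_trans (le_trans (le_max_left _ _) (le_max_right _ _)) hd
  have hd3 : d₂ ≤ d := le_trans (le_trans (le_max_right _ _) (le_max_right _ _)) hd
  have hE := e05_le C hd1
  have hE0 : (0 : ℝ) ≤ 2 ^ eC C d := by positivity
  constructor
  · refine le_trans ?_ (h₁ d hd2)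
    have e1 : ((hS (eC C d) : ℝ)) ^ 2 = ((2 : ℝ) ^ eC C d) ^ 4 := by
      unfold hS
      push_cast
      rw [show (4 : ℝ) = 2 ^ 2 by norm_num, ← pow_mul, ← pow_mul, ← pow_mul]
      congr 1
      ring
    rw [e1]
    calc ((2 : ℝ) ^ eC C d) ^ 4 ≤ (2 * (d : ℝ) ^ C) ^ 4 := pow_le_pow_left₀ hE0 hE 4
      _ = 16 * (d : ℝ) ^ (4 * C) := by
        rw [mul_pow, ← pow_mul, mul_comm C 4]
        norm_num
  · refine le_trans ?_ (h₂ d hd3)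
    have e1 : ((2 : ℝ) ^ (5 * eC C d)) ^ 2 = ((2 : ℝ) ^ eC C d) ^ 10 := by
      rw [← pow_mul, ← pow_mul]
      congr 1
      ring
    rw [e1]
    calc (d : ℝ) ^ a * ((2 : ℝ) ^ eC C d) ^ 10 ≤ (d : ℝ) ^ a * (2 * (d : ℝ) ^ C) ^ 10 :=
          mul_le_mul_of_nonneg_left (pow_le_pow_left₀ hE0 hE 10) (by positivity)
      _ = 1024 * (d : ℝ) ^ (a + 10 * C) := by
        rw [mul_pow, ← pow_mul, mul_comm C 10, pow_add]
        ring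

private theorem e05_sq {C : ℕ} (hC : 2 ≤ C) {d : ℕ} (hd : 1 ≤ d) : (d : ℝ) ^ 2 ≤ 2 ^ eC C d := by
  refine le_trans ?_ (e05_ge C d)
  exact pow_le_pow_right₀ (by exact_mod_cast hd) hC

/-- `(w + 2 s)^(d-1) ≤ 2 w^(d-1)` -/
theorem w_pow (C : ℕ) (hC : 2 ≤ C) : ∃ d₀ : ℕ, ∀ d : ℕ, d₀ ≤ d →
    ((wS (eC C d) : ℝ) + 2 * hS (eC C d)) ^ (d - 1) ≤ 2 * (wS (eC C d) : ℝ) ^ (d - 1) := by
  refine ⟨2, fun d hd => ?_⟩
  have hsq := e05_sq hC (show 1 ≤ d by omega)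
  set e := eC C d with he
  have hd' : (2 : ℝ) ≤ d := by exact_mod_cast hd
  have hE1 : (1 : ℝ) ≤ 2 ^ e := one_le_pow₀ (by norm_num)
  have hw : (wS e : ℝ) = 2 * ((2 : ℝ) ^ e) ^ 5 := by
    unfold wS
    push_cast
    rw [← pow_mul, mul_comm e 5]
  have hh : (hS e : ℝ) = ((2 : ℝ) ^ e) ^ 2 := by
    unfold hS
    push_cast
    rw [← pow_mul, mul_comm e 2, pow_mul]
    norm_num
  have hwpos : (0 : ℝ) < wS e := by
    rw [hw]
    positivity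
  have hx : 2 * (hS e : ℝ) ≤ (wS e : ℝ) * (1 / (d : ℝ) ^ 2) := by
    rw [mul_one_div, le_div_iff₀ (by positivity), hw, hh]
    have h1 : (d : ℝ) ^ 2 ≤ ((2 : ℝ) ^ e) ^ 3 := by
      refine le_trans hsq ?_
      calc (2 : ℝ) ^ e = ((2 : ℝ) ^ e) ^ 1 := (pow_one _).symm
        _ ≤ ((2 : ℝ) ^ e) ^ 3 := pow_le_pow_right₀ hE1 (by norm_num)
    calc 2 * ((2 : ℝ) ^ e) ^ 2 * (d : ℝ) ^ 2 ≤ 2 * ((2 : ℝ) ^ e) ^ 2 * ((2 : ℝ) ^ e) ^ 3 :=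
          mul_le_mul_of_nonneg_left h1 (by positivity)
      _ = 2 * ((2 : ℝ) ^ e) ^ 5 := by ring
  have hexp : Real.exp (1 / 2) ≤ 2 := by
    have h1 : Real.exp (1 / 2) ^ 2 < 2 ^ 2 := by
      rw [← Real.exp_nat_mul]
      have h2 := Real.exp_one_lt_d9
      have h3 : ((2 : ℕ) : ℝ) * (1 / 2) = 1 := by norm_num
      rw [h3]
      linarith
    exact (lt_of_pow_lt_pow_left₀ 2 (by norm_num) h1).le
  have h0 : (wS e : ℝ) + 2 * hS e ≤ wS e * Real.exp (1 / (d : ℝ) ^ 2) := by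
    have h1 := Real.add_one_le_exp (1 / (d : ℝ) ^ 2)
    nlinarith
  have hnn : (0 : ℝ) ≤ (wS e : ℝ) + 2 * hS e := by positivity
  calc ((wS e : ℝ) + 2 * hS e) ^ (d - 1) ≤ (wS e * Real.exp (1 / (d : ℝ) ^ 2)) ^ (d - 1) :=
        pow_le_pow_left₀ hnn h0 _
    _ = (wS e : ℝ) ^ (d - 1) * Real.exp (((d - 1 : ℕ) : ℝ) * (1 / (d : ℝ) ^ 2)) := by
      rw [mul_pow, ← Real.exp_nat_mul]
    _ ≤ (wS e : ℝ) ^ (d - 1) * 2 := by
      refine mul_le_mul_of_nonneg_left (le_trans (Real.exp_le_exp.2 ?_) hexp) (by positivity)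
      rw [mul_one_div, div_le_iff₀ (by positivity)]
      have h2 : ((d - 1 : ℕ) : ℝ) ≤ d := by exact_mod_cast Nat.sub_le d 1
      nlinarith
    _ = 2 * (wS e : ℝ) ^ (d - 1) := mul_comm _ _

/-- `∏ (L i - 1) ≥ ∏ L i / 2` -/
theorem L_prod (C : ℕ) (hC : 2 ≤ C) : ∃ d₀ : ℕ, ∀ d : ℕ, d₀ ≤ d → ∀ j : Option (Fin d),
    (∏ i, (LS (eC C d) j i : ℝ)) / 2 ≤ ∏ i, ((LS (eC C d) j i : ℝ) - 1) := by
  refine ⟨2, fun d hd j => ?_⟩
  have hsq := e05_sq hC (show 1 ≤ d by omega)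
  set e := eC C d with he
  have hd' : (2 : ℝ) ≤ d := by exact_mod_cast hd
  have hdpos : (0 : ℝ) < (d : ℝ) ^ 2 := by positivity
  have hL : ∀ i : Fin d, (d : ℝ) ^ 2 ≤ LS e j i := by
    intro i
    refine le_trans hsq ?_
    have h1 : 2 ^ e ≤ LS e j i := by
      unfold LS
      apply Nat.pow_le_pow_right (by norm_num)
      unfold rS
      split_ifs <;> omega
    exact_mod_cast h1
  have h1 : ∀ i : Fin d, (LS e j i : ℝ) * (1 + -(1 / (d : ℝ) ^ 2)) ≤ (LS e j i : ℝ) - 1 := by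
    intro i
    have h2 : 1 ≤ (LS e j i : ℝ) * (1 / (d : ℝ) ^ 2) := by
      rw [mul_one_div, le_div_iff₀ hdpos, one_mul]
      exact hL i
    linarith
  have hs : 1 / (d : ℝ) ^ 2 ≤ 1 / 4 := by
    apply one_div_le_one_div_of_le (by norm_num)
    nlinarith
  have hbern := one_add_mul_le_pow (show (-2 : ℝ) ≤ -(1 / (d : ℝ) ^ 2) by linarith) d
  have h3 : (1 : ℝ) / 2 ≤ 1 + (d : ℝ) * -(1 / (d : ℝ) ^ 2) := by
    have h4 : (d : ℝ) * (1 / (d : ℝ) ^ 2) ≤ 1 / 2 := by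
      rw [mul_one_div, div_le_iff₀ hdpos]
      nlinarith
    linarith
  calc (∏ i, (LS e j i : ℝ)) / 2 = (∏ i, (LS e j i : ℝ)) * (1 / 2) := by ring
    _ ≤ (∏ i, (LS e j i : ℝ)) * (1 + -(1 / (d : ℝ) ^ 2)) ^ d :=
      mul_le_mul_of_nonneg_left (le_trans h3 hbern) (prod_nonneg fun i _ => Nat.cast_nonneg _)
    _ = ∏ i : Fin d, ((LS e j i : ℝ) * (1 + -(1 / (d : ℝ) ^ 2))) := by
      rw [prod_mul_distrib, prod_const, card_univ, Fintype.card_fin]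
    _ ≤ ∏ i, ((LS e j i : ℝ) - 1) := by
      refine prod_le_prod (fun i _ => ?_) (fun i _ => h1 i)
      refine mul_nonneg (Nat.cast_nonneg _) ?_
      linarith

end Pool.Agent.LC
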