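import Pool.Agent.Lib_MP_2c424f_lc7.E03
import Pool.Agent.Lib_MP_2c424f_lc7.E04
import Pool.Agent.Lib_MP_2c424f_lc7.E05
import Pool.Agent.Lib_MP_2c424f_lc6.C15

/-!
# LC7 E06: impure doubled dominoes are rare

Let `Cb` be the first constant of `dbl_bad`; the constant of the theorem is `Cb + 2`.  `dbl_bad` with `K = Cb + 8`, `e = eC C d`, `s0 = e`, `h = s = 4^e` (`d^C ≤ 2^e`, `2^e d^C ≤ 4^e`, `eC_small`), `L i = 2^(rS e j i)`,
`Ym = 8 w^(d-1)` (`2 ∏_{i' ≠ i} (2 L i' + 2 s) ≤ 2 · 2 (w + 2 s)^(d-1) ≤ 8 w^(d-1)`: at most one `i'` has `2 L = 2 w`; `w_pow`).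
`not_WPU` with `Lm = w` (`= 2 · 2^(5e)`), `m₀ = ∏ (L i - 1)/(100 d w) ≥ ∏ L i/(200 d w)`, and `2^d ∏ L i ≥ w^d`, so `2^d m₀ ≥ w^(d-1)/(200 d)`.
`many_bad` with `Z = N2 True · exp (d Ym/d^K)`, `x = exp (-(2^d/d^Cb))`: exponent
`≤ ∏ L i log (q+2) + 8 w^(d-1)/d^(Cb+7) - w^(d-1)/(200 d^(Cb+1)) ≤ - w^(d-1)/d^(Cb+2)`, since
`∏ L i ≤ 2 L^d = 2 L w^(d-1)/2^(d-1)` and `L d^(Cb+4) ≤ 2^d / ..` (`eC_small`).
`WE .. (fun _ => none)` is `True`.
-/

set_option autoImplicit false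

open Finset Filter

namespace Pool.Agent.LC

open Pool.Agent.LO Pool.Agent.LIN Pool.Agent.THR Pool.Agent.COR

private theorem E06_mono {W : Type} [Fintype W] [DecidableEq W] {q : ℕ} (B : SimpleGraph W) (gl : W → Prop)
    (P Q : (W → Fin q) → Prop) (h : ∀ f, P f → Q f) : N2 B gl P ≤ N2 B gl Q := by
  classical
  unfold N2
  have h1 : (univ.filter fun p : (W → Fin q) × (W → Fin q) =>
      PrG B p.1 ∧ PrG B p.2 ∧ (∀ x, gl x → p.1 x = p.2 x) ∧ P p.1) ⊆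
      (univ.filter fun p : (W → Fin q) × (W → Fin q) =>
      PrG B p.1 ∧ PrG B p.2 ∧ (∀ x, gl x → p.1 x = p.2 x) ∧ Q p.1) := by
    intro p hp
    rw [mem_filter] at hp ⊢
    exact ⟨hp.1, hp.2.1, hp.2.2.1, hp.2.2.2.1, h _ hp.2.2.2.2⟩
  exact_mod_cast card_le_card h1

private theorem E06_nn {W : Type} [Fintype W] [DecidableEq W] {q : ℕ} (B : SimpleGraph W) (gl : W → Prop)
    (P : (W → Fin q) → Prop) : 0 ≤ N2 B gl P := Nat.cast_nonneg _

/-- the side lengths: `2 L i = w` or `2 w` -/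
private theorem E06_two {d : ℕ} (e : ℕ) (j i : Fin d) :
    2 * (2 : ℝ) ^ rS e (some j) i = (wS e : ℝ) * (if i = j then 2 else 1) := by
  unfold rS wS
  push_cast
  by_cases h : i = j
  · subst h
    rw [if_pos rfl, if_pos rfl, pow_succ]
    ring
  · rw [if_neg h, if_neg (fun h' => h (Option.some.inj h').symm)]
    ring

private theorem E06_w_pos (e : ℕ) : (0 : ℝ) < wS e := by
  unfold wS
  positivity

/-- the bound for the faces -/
private theorem E06_face {d : ℕ} (e : ℕ) (j j' : Fin d)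
    (hw : ((wS e : ℝ) + 2 * hS e) ^ (d - 1) ≤ 2 * (wS e : ℝ) ^ (d - 1)) :
    2 * ∏ i ∈ univ.erase j', (2 * (2 : ℝ) ^ rS e (some j) i + 2 * hS e) ≤ 8 * (wS e : ℝ) ^ (d - 1) := by
  have hw0 := E06_w_pos e
  have hs0 : (0 : ℝ) ≤ hS e := Nat.cast_nonneg _
  have h1 : ∏ i ∈ univ.erase j', (2 * (2 : ℝ) ^ rS e (some j) i + 2 * hS e) ≤
      ∏ i ∈ univ.erase j', (((wS e : ℝ) + 2 * hS e) * (if i = j then 2 else 1)) := by
    refine prod_le_prod (fun i _ => by positivity) (fun i _ => ?_)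
    rw [E06_two]
    by_cases h : i = j
    · rw [if_pos h]
      nlinarith
    · rw [if_neg h]
      linarith
  have h2 : ∏ i ∈ univ.erase j', (((wS e : ℝ) + 2 * hS e) * (if i = j then 2 else 1)) =
      ((wS e : ℝ) + 2 * hS e) ^ (d - 1) * (if j ∈ univ.erase j' then 2 else 1) := by
    rw [prod_mul_distrib, prod_const, card_erase_of_mem (mem_univ _), card_univ, Fintype.card_fin,
      prod_ite_eq']
  have h3 : (if j ∈ univ.erase j' then (2 : ℝ) else 1) ≤ 2 := by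
    split_ifs <;> norm_num
  have h4 : (0 : ℝ) ≤ ((wS e : ℝ) + 2 * hS e) ^ (d - 1) := by positivity
  have h5 := mul_le_mul_of_nonneg_left h3 h4
  rw [h2] at h1
  linarith

/-- the number of points of the blocks -/
private theorem E06_vol {d : ℕ} (hd : 1 ≤ d) (e : ℕ) (j : Fin d) :
    (2 : ℝ) ^ d * ∏ i, (LS e (some j) i : ℝ) = 2 * (wS e : ℝ) * (wS e : ℝ) ^ (d - 1) := by
  have h1 : (2 : ℝ) ^ d * ∏ i, (LS e (some j) i : ℝ) = ∏ i : Fin d, (2 * (LS e (some j) i : ℝ)) := by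
    rw [prod_mul_distrib, prod_const, card_univ, Fintype.card_fin]
  have h2 : ∀ i : Fin d, 2 * (LS e (some j) i : ℝ) = (wS e : ℝ) * (if i = j then 2 else 1) := by
    intro i
    rw [← E06_two]
    unfold LS
    push_cast
    ring
  rw [h1, prod_congr rfl (fun i _ => h2 i), prod_mul_distrib, prod_const, card_univ, Fintype.card_fin,
    prod_ite_eq', if_pos (mem_univ _)]
  obtain ⟨n, rfl⟩ : ∃ n, d = n + 1 := ⟨d - 1, by omega⟩
  rw [Nat.add_sub_cancel, pow_succ]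
  ring

/-- the final estimate -/
private theorem E06_num {d q e Cb n : ℕ} {P W M : ℝ} (hd : 200 ≤ d) (hq : (q : ℝ) + 2 ≤ d) (hn : (n : ℝ) ≤ P)
    (hP : (2 : ℝ) ^ d * P = 2 * (wS e : ℝ) * W) (hM : P / 2 ≤ M)
    (hsm : (d : ℝ) ^ (Cb + 5) * ((2 : ℝ) ^ (5 * e)) ^ 2 ≤ 2 ^ d) (hW : 0 ≤ W) :
    ((q : ℝ) + 2) ^ n * Real.exp (d * (8 * W) / (d : ℝ) ^ (Cb + 8)) *
        Real.exp (-(2 ^ d / (d : ℝ) ^ Cb)) ^ (M / (100 * d * (wS e : ℝ))) ≤
      Real.exp (-(W / (d : ℝ) ^ (Cb + 2))) := by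
  have hd' : (200 : ℝ) ≤ d := by exact_mod_cast hd
  have hd0 : (0 : ℝ) < d := by linarith
  have hw0 := E06_w_pos e
  have hD : 0 < (d : ℝ) ^ Cb := by positivity
  have h2d : (0 : ℝ) < 2 ^ d := by positivity
  have hwe : (wS e : ℝ) = 2 * 2 ^ (5 * e) := by unfold wS; push_cast; ring
  have hone : (1 : ℝ) ≤ 2 ^ (5 * e) := one_le_pow₀ (by norm_num)
  -- the number of families
  have e1 : ((q : ℝ) + 2) ^ n ≤ Real.exp (P * d) := by
    have h1 : (q : ℝ) + 2 ≤ Real.exp d := by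
      have := Real.add_one_le_exp (d : ℝ)
      linarith
    calc ((q : ℝ) + 2) ^ n ≤ (Real.exp d) ^ n := pow_le_pow_left₀ (by positivity) h1 n
      _ = Real.exp (n * d) := by rw [← Real.exp_nat_mul]
      _ ≤ _ := Real.exp_le_exp.2 (mul_le_mul_of_nonneg_right hn hd0.le)
  have e2 : P * d ≤ 4 * W / (d : ℝ) ^ (Cb + 4) := by
    rw [le_div_iff₀ (by positivity)]
    have h1 : (wS e : ℝ) * (d : ℝ) ^ (Cb + 5) ≤ 2 * 2 ^ d := by
      have h2 : (2 : ℝ) ^ (5 * e) ≤ ((2 : ℝ) ^ (5 * e)) ^ 2 := by nlinarith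
      have h3 := mul_le_mul_of_nonneg_left h2 (by positivity : (0 : ℝ) ≤ (d : ℝ) ^ (Cb + 5))
      rw [hwe]
      nlinarith
    have h4 : (2 : ℝ) ^ d * (P * d * (d : ℝ) ^ (Cb + 4)) = 2 * W * ((wS e : ℝ) * (d : ℝ) ^ (Cb + 5)) := by
      have : (2 : ℝ) ^ d * (P * d * (d : ℝ) ^ (Cb + 4)) = (2 ^ d * P) * ((d : ℝ) ^ (Cb + 4) * d) := by ring
      rw [this, hP, ← pow_succ]
      ring
    have h5 : (2 : ℝ) ^ d * (P * d * (d : ℝ) ^ (Cb + 4)) ≤ 2 ^ d * (4 * W) := by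
      rw [h4]
      have := mul_le_mul_of_nonneg_left h1 (by positivity : (0 : ℝ) ≤ 2 * W)
      linarith
    exact le_of_mul_le_mul_left h5 h2d
  -- the bad blocks
  have e3 : 2 ^ d / (d : ℝ) ^ Cb * (M / (100 * d * (wS e : ℝ))) ≥ W / (100 * (d : ℝ) ^ (Cb + 1)) := by
    have h1 : 2 ^ d / (d : ℝ) ^ Cb * (M / (100 * d * (wS e : ℝ))) ≥
        2 ^ d / (d : ℝ) ^ Cb * ((P / 2) / (100 * d * (wS e : ℝ))) := by
      have := div_le_div_of_nonneg_right hM (by positivity : (0 : ℝ) ≤ 100 * d * (wS e : ℝ))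
      exact mul_le_mul_of_nonneg_left this (by positivity)
    have h2 : 2 ^ d / (d : ℝ) ^ Cb * ((P / 2) / (100 * d * (wS e : ℝ))) = W / (100 * (d : ℝ) ^ (Cb + 1)) := by
      have h3 : 2 ^ d / (d : ℝ) ^ Cb * ((P / 2) / (100 * d * (wS e : ℝ))) =
          (2 ^ d * P) / ((d : ℝ) ^ Cb * (2 * (100 * d * (wS e : ℝ)))) := by
        field_simp
      rw [h3, hP, pow_succ]
      field_simp
    rw [← h2]
    exact h1
  have e4 : Real.exp (-(2 ^ d / (d : ℝ) ^ Cb)) ^ (M / (100 * d * (wS e : ℝ))) ≤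
      Real.exp (-(W / (100 * (d : ℝ) ^ (Cb + 1)))) := by
    rw [← Real.exp_mul]
    refine Real.exp_le_exp.2 ?_
    rw [neg_mul]
    exact neg_le_neg e3
  -- the sum
  have e5 : 4 * W / (d : ℝ) ^ (Cb + 4) + d * (8 * W) / (d : ℝ) ^ (Cb + 8) + -(W / (100 * (d : ℝ) ^ (Cb + 1))) ≤
      -(W / (d : ℝ) ^ (Cb + 2)) := by
    have hu : 0 ≤ W / ((d : ℝ) ^ Cb * d) := by positivity
    have a1 : 4 * W / (d : ℝ) ^ (Cb + 4) = 4 / (d : ℝ) ^ 3 * (W / ((d : ℝ) ^ Cb * d)) := by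
      rw [pow_add]; field_simp
    have a2 : d * (8 * W) / (d : ℝ) ^ (Cb + 8) = 8 / (d : ℝ) ^ 6 * (W / ((d : ℝ) ^ Cb * d)) := by
      rw [pow_add]; field_simp
    have a3 : W / (100 * (d : ℝ) ^ (Cb + 1)) = 1 / 100 * (W / ((d : ℝ) ^ Cb * d)) := by
      rw [pow_succ]; field_simp
    have a4 : W / (d : ℝ) ^ (Cb + 2) = 1 / d * (W / ((d : ℝ) ^ Cb * d)) := by
      rw [pow_add]; field_simp
    have b1 : 4 / (d : ℝ) ^ 3 ≤ 1 / 1000 := by
      rw [div_le_div_iff₀ (by positivity) (by norm_num)]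
      have : (200 : ℝ) ^ 3 ≤ (d : ℝ) ^ 3 := pow_le_pow_left₀ (by norm_num) hd' 3
      linarith
    have b2 : 8 / (d : ℝ) ^ 6 ≤ 1 / 1000 := by
      rw [div_le_div_iff₀ (by positivity) (by norm_num)]
      have : (200 : ℝ) ^ 6 ≤ (d : ℝ) ^ 6 := pow_le_pow_left₀ (by norm_num) hd' 6
      linarith
    have b3 : 1 / (d : ℝ) ≤ 1 / 200 := one_div_le_one_div_of_le (by norm_num) hd'
    have c1 := mul_le_mul_of_nonneg_right b1 hu
    have c2 := mul_le_mul_of_nonneg_right b2 hu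
    have c3 := mul_le_mul_of_nonneg_right b3 hu
    rw [a1, a2, a3, a4]
    linarith
  have e6 : ((q : ℝ) + 2) ^ n ≤ Real.exp (4 * W / (d : ℝ) ^ (Cb + 4)) := e1.trans (Real.exp_le_exp.2 e2)
  calc ((q : ℝ) + 2) ^ n * Real.exp (d * (8 * W) / (d : ℝ) ^ (Cb + 8)) *
        Real.exp (-(2 ^ d / (d : ℝ) ^ Cb)) ^ (M / (100 * d * (wS e : ℝ)))
      ≤ Real.exp (4 * W / (d : ℝ) ^ (Cb + 4)) * Real.exp (d * (8 * W) / (d : ℝ) ^ (Cb + 8)) *
        Real.exp (-(W / (100 * (d : ℝ) ^ (Cb + 1)))) := by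
        have hx : 0 ≤ Real.exp (-(2 ^ d / (d : ℝ) ^ Cb)) ^ (M / (100 * d * (wS e : ℝ))) :=
          Real.rpow_nonneg (Real.exp_pos _).le _
        exact mul_le_mul (mul_le_mul_of_nonneg_right e6 (Real.exp_pos _).le) e4 hx (by positivity)
    _ = Real.exp (4 * W / (d : ℝ) ^ (Cb + 4) + d * (8 * W) / (d : ℝ) ^ (Cb + 8) +
        -(W / (100 * (d : ℝ) ^ (Cb + 1)))) := by rw [← Real.exp_add, ← Real.exp_add]
    _ ≤ _ := Real.exp_le_exp.2 e5

theorem impure_dbl : ∃ Cb C₀ : ℕ, ∀ C : ℕ, C₀ ≤ C → ∃ d₀ : ℕ, ∀ d q : ℕ, d₀ ≤ d → Rg d q → ∀ j : Fin d,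
    N2 (WG (fun _ : Fin d => false) (LS (eC C d) (some j)) (hS (eC C d)))
        (Wgl (fun _ : Fin d => false) (LS (eC C d) (some j)) (hS (eC C d)))
        (fun f : WV (fun _ : Fin d => false) (LS (eC C d) (some j)) (hS (eC C d)) → Fin q =>
          ¬ WPU (LS (eC C d) (some j)) (hS (eC C d)) f) ≤
      N2 (WG (fun _ : Fin d => false) (LS (eC C d) (some j)) (hS (eC C d)))
        (Wgl (fun _ : Fin d => false) (LS (eC C d) (some j)) (hS (eC C d)))
        (fun _ : WV (fun _ : Fin d => false) (LS (eC C d) (some j)) (hS (eC C d)) → Fin q => True) *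
        Real.exp (-((wS (eC C d) : ℝ) ^ (d - 1) / (d : ℝ) ^ Cb)) := by
  classical
  obtain ⟨Cb, hdb⟩ := dbl_bad
  obtain ⟨C₁, d₁, hdb⟩ := hdb (Cb + 8)
  refine ⟨Cb + 2, max C₁ 2, fun C hC => ?_⟩
  have hC1 : C₁ ≤ C := (le_max_left _ _).trans hC
  have hC2 : 2 ≤ C := (le_max_right _ _).trans hC
  obtain ⟨d₂, hd2⟩ := eC_small C (Cb + 5)
  obtain ⟨d₃, hd3⟩ := w_pow C hC2
  obtain ⟨d₄, hd4⟩ := L_prod C hC2
  refine ⟨max (max d₁ d₂) (max (max d₃ d₄) 200), fun d q hd hR j => ?_⟩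
  have hdd1 : d₁ ≤ d := by omega
  have hdd2 : d₂ ≤ d := by omega
  have hdd3 : d₃ ≤ d := by omega
  have hdd4 : d₄ ≤ d := by omega
  have hd200 : 200 ≤ d := by omega
  obtain ⟨hh2, hsm⟩ := hd2 d hdd2
  have hw := hd3 d hdd3
  have hLp := hd4 d hdd4 (some j)
  have hec := eC_le (C := C) (d := d) (by omega) (by omega)
  set e := eC C d with he
  clear_value e
  have hd' : (200 : ℝ) ≤ d := by exact_mod_cast hd200
  have h2e : (d : ℝ) ^ C₁ ≤ 2 ^ e := (pow_le_pow_right₀ (by linarith) hC1).trans hec.1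
  have h2e' : (2 : ℝ) ≤ 2 ^ e := by
    have h1 : (d : ℝ) ^ 1 ≤ (d : ℝ) ^ C := pow_le_pow_right₀ (by linarith) (by omega)
    rw [pow_one] at h1
    linarith [hec.1]
  have he1 : 1 ≤ e := by
    by_contra h0
    have : e = 0 := by omega
    rw [this] at h2e'
    norm_num at h2e'
  have hhr : ((hS e : ℕ) : ℝ) = 2 ^ e * 2 ^ e := by
    unfold hS
    push_cast
    rw [← mul_pow]
    norm_num
  have hq : (q : ℝ) + 2 ≤ d := by
    have h1 : 1000 * q ≤ 2 * d := hR.2.1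
    have h2 : q + 2 ≤ d := by omega
    exact_mod_cast h2
  have hr5 : ∀ i, 5 * e ≤ rS e (some j) i := by
    intro i
    unfold rS
    split_ifs <;> omega
  have key := hdb d q hdd1 hR e (hS e) (hS e) h2e
    (by rw [hhr]; exact mul_le_mul_of_nonneg_left h2e (by positivity)) hh2
    (by unfold hS; exact Nat.even_pow.2 ⟨by decide, by omega⟩) le_rfl (rS e (some j))
    (fun i => by
      unfold hS
      rw [show (4 : ℕ) = 2 ^ 2 by norm_num, ← pow_mul]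
      exact Nat.pow_le_pow_right (by norm_num) ((by omega : 2 * e ≤ 5 * e).trans (hr5 i)))
    (8 * (wS e : ℝ) ^ (d - 1)) (fun j' => E06_face e j j' hw)
  have hL2 : ∀ i, 2 ≤ LS e (some j) i := by
    intro i
    unfold LS
    calc 2 = 2 ^ 1 := rfl
      _ ≤ 2 ^ rS e (some j) i := Nat.pow_le_pow_right (by norm_num) ((by omega : 1 ≤ 5 * e).trans (hr5 i))
  have hLw : ∀ i, (LS e (some j) i : ℝ) ≤ wS e := by
    intro i
    have h1 := E06_two e j i
    have h2 : (LS e (some j) i : ℝ) = (2 : ℝ) ^ rS e (some j) i := by unfold LS; push_cast; ring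
    rw [← h2] at h1
    have hw0 := E06_w_pos e
    by_cases h : i = j
    · rw [if_pos h] at h1
      linarith
    · rw [if_neg h] at h1
      linarith
  have hZ0 : 0 ≤ N2 (WG (fun _ : Fin d => false) (LS e (some j)) (hS e))
        (Wgl (fun _ : Fin d => false) (LS e (some j)) (hS e))
        (WE (q := q) (fun _ => false) (LS e (some j)) (hS e) fun _ => none) *
          Real.exp (d * (8 * (wS e : ℝ) ^ (d - 1)) / (d : ℝ) ^ (Cb + 8)) :=
    mul_nonneg (E06_nn _ _ _) (Real.exp_pos _).le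
  have hmb := many_bad (q := q) (LS e (some j)) (hS e)
    ((∏ i, ((LS e (some j) i : ℝ) - 1)) / (100 * d * (wS e : ℝ))) _
    (Real.exp (-(2 ^ d / (d : ℝ) ^ Cb))) hZ0 (Real.exp_pos _) (by
      rw [Real.exp_le_one_iff, neg_nonpos]
      positivity) key
  have hmono := E06_mono (WG (fun _ : Fin d => false) (LS e (some j)) (hS e))
    (Wgl (fun _ : Fin d => false) (LS e (some j)) (hS e))
    (fun f : WV (fun _ : Fin d => false) (LS e (some j)) (hS e) → Fin q => ¬ WPU (LS e (some j)) (hS e) f) _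
    (fun f hf => not_WPU hR (by omega) (LS e (some j)) (hS e) hL2 (wS e) hLw f hf)
  have hT : (WE (q := q) (fun _ => false) (LS e (some j)) (hS e) fun _ => none) =
      (fun _ : WV (fun _ : Fin d => false) (LS e (some j)) (hS e) → Fin q => True) := by
    funext f
    refine propext ⟨fun _ => trivial, fun _ t _ τ h => ?_⟩
    exact absurd h (by simp)
  rw [hT] at hmb
  have hn : ((∏ i : Fin d, nbk false (LS e (some j) i) : ℕ) : ℝ) ≤ ∏ i, (LS e (some j) i : ℝ) := by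
    push_cast
    refine prod_le_prod (fun i _ => Nat.cast_nonneg _) (fun i _ => ?_)
    have : nbk false (LS e (some j) i) ≤ LS e (some j) i := by
      unfold nbk
      simp
    exact_mod_cast this
  have hnum := E06_num (Cb := Cb) hd200 hq hn (E06_vol (by omega) e j) hLp hsm (by positivity)
  refine (hmono.trans hmb).trans ?_
  have hN := E06_nn (WG (fun _ : Fin d => false) (LS e (some j)) (hS e))
    (Wgl (fun _ : Fin d => false) (LS e (some j)) (hS e))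
    (fun _ : WV (fun _ : Fin d => false) (LS e (some j)) (hS e) → Fin q => True)
  calc _ = N2 (WG (fun _ : Fin d => false) (LS e (some j)) (hS e))
        (Wgl (fun _ : Fin d => false) (LS e (some j)) (hS e))
        (fun _ : WV (fun _ : Fin d => false) (LS e (some j)) (hS e) → Fin q => True) *
        (((q : ℝ) + 2) ^ (∏ i : Fin d, nbk false (LS e (some j) i)) *
          Real.exp (d * (8 * (wS e : ℝ) ^ (d - 1)) / (d : ℝ) ^ (Cb + 8)) *
          Real.exp (-(2 ^ d / (d : ℝ) ^ Cb)) ^ ((∏ i, ((LS e (some j) i : ℝ) - 1)) / (100 * d * (wS e : ℝ)))) := by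
        ring
    _ ≤ _ := mul_le_mul_of_nonneg_left hnum hN

end Pool.Agent.LC
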