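import Pool.Agent.Lib_MP_2c424f_lc7.E05
import Pool.Agent.Lib_MP_2c424f_lc7.E06
import Pool.Agent.Lib_MP_2c424f_lc6a.Main

/-!
# LC7 E07: several impure dominoes in the big box

Let `Cb` be the constant of `impure_dbl`; the constant of the theorem is `Cb + 1`.  `schwarz (Cb + 4)` for the boxes `a k = aS e (u k)`, `m k i = lm false (LS e (some (j k)) i) (hS e)`,
`E k = ¬ WPU`; `DG (m k)` is `WG (fun _ => false) ..` (`rfl`), `Dgl` and `Wgl` are equivalent; all positions and sides are even; distances from the boundary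
of the big box: `aS ≥ 2 h + 2`, `aS + m + 2 h + 2 ≤ NS` if `(u j).val + 1 < 2^K`; `hfar` is the mutual distance; `h d^C ≤ m k i` as `L = 2^(5e) ≥ 4^e 2^e ≥ h d^C`;
`Ym = 8 d w^(d-1)`.  So `cG(all impure)² ∏ N2 ≤ cG² exp (|I| 8 d w^(d-1)/d^(Cb+4)) ∏ N2 exp (-w^(d-1)/d^Cb)`; divide by `∏ N2 > 0` (`N2_pos`), take the root:
exponent `-|I| w^(d-1) (1/d^Cb - 8/d^(Cb+3))/2 ≤ -|I| w^(d-1)/d^(Cb+1)`.
-/

set_option autoImplicit false

open Finset Filter

namespace Pool.Agent.LC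

open Pool.Agent.LO Pool.Agent.LIN Pool.Agent.THR Pool.Agent.COR

private theorem e07_N2 {d q : ℕ} (L : Fin d → ℕ) (s : ℕ) (P : (WV (fun _ : Fin d => false) L s → Fin q) → Prop) :
    N2 (DG fun i => lm false (L i) s) (Dgl fun i => lm false (L i) s) P =
      N2 (WG (fun _ : Fin d => false) L s) (Wgl (fun _ : Fin d => false) L s) P := by
  have h : Dgl (fun i => lm false (L i) s) = Wgl (fun _ : Fin d => false) L s := by
    funext x
    unfold Dgl Wgl
    simp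
  rw [← h]
  rfl

private theorem e07_pos {d q : ℕ} (hq : 2 ≤ q) (L : Fin d → ℕ) (s : ℕ) (hL : ∀ i, 1 ≤ L i) :
    0 < N2 (WG (fun _ : Fin d => false) L s) (Wgl (fun _ : Fin d => false) L s)
      (fun _ : WV (fun _ : Fin d => false) L s → Fin q => True) := by
  have h := N2_pos (q := q) hq (fun _ : Fin d => false) L s hL
  have h2 : (WE (q := q) (fun _ : Fin d => false) L s fun _ => none) = fun _ => True := by
    funext f
    unfold WE
    simp
  rwa [h2] at h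

private theorem e07_LS1 (e : ℕ) {d : ℕ} (j : Option (Fin d)) (i : Fin d) : 2 ^ (5 * e) ≤ LS e j i := by
  unfold LS
  apply Nat.pow_le_pow_right (by norm_num)
  unfold rS
  split_ifs <;> omega

private theorem e07_lm (e : ℕ) {d : ℕ} (j : Option (Fin d)) (i : Fin d) :
    lm false (LS e j i) (hS e) + 2 = 2 * LS e j i + 2 * hS e := by
  have h1 := e07_LS1 e j i
  have h2 : 1 ≤ 2 ^ (5 * e) := Nat.one_le_pow _ _ (by norm_num)
  unfold lm
  simp
  omega

private theorem e07_ne (e : ℕ) {d : ℕ} (j i : Fin d) (h : i ≠ j) : 2 * LS e (some j) i = wS e := by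
  unfold LS rS wS
  rw [if_neg]
  simpa using h.symm

private theorem e07_eq (e : ℕ) {d : ℕ} (j : Fin d) : 2 * LS e (some j) j = 2 * wS e := by
  unfold LS rS wS
  rw [if_pos rfl, pow_succ]
  ring

private theorem e07_even (e : ℕ) {d : ℕ} (j : Option (Fin d)) (i : Fin d) : Even (lm false (LS e j i) (hS e)) := by
  have h := e07_lm e j i
  rw [Nat.even_iff]
  omega

private theorem e07_aeven (e : ℕ) {d K : ℕ} (t : Blk d K) (i : Fin d) : Even (aS e t i) := by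
  unfold aS wS
  rw [mul_assoc, show 2 * hS e + 2 + 2 * (2 ^ (5 * e) * (t i).val) = 2 * (hS e + 1 + 2 ^ (5 * e) * (t i).val) by ring]
  exact even_two_mul _

private theorem e07_pos2 (e : ℕ) {d K : ℕ} (t : Blk d K) (j : Fin d) (hj : (t j).val + 1 < 2 ^ K) (i : Fin d) :
    2 * hS e + 2 ≤ aS e t i ∧ aS e t i + lm false (LS e (some j) i) (hS e) + 2 * hS e + 2 ≤ NS e K := by
  constructor
  · unfold aS
    exact Nat.le_add_right _ _
  · have h1 := e07_lm e (some j) i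
    unfold aS NS
    by_cases hij : i = j
    · subst hij
      rw [e07_eq] at h1
      have h2 : wS e * ((t i).val + 2) ≤ wS e * 2 ^ K := Nat.mul_le_mul_left _ (by omega)
      have h3 : wS e * ((t i).val + 2) = wS e * (t i).val + 2 * wS e := by ring
      omega
    · rw [e07_ne e j i hij] at h1
      have h2 : wS e * ((t i).val + 1) ≤ wS e * 2 ^ K := Nat.mul_le_mul_left _ (ZMod.val_lt (t i))
      have h3 : wS e * ((t i).val + 1) = wS e * (t i).val + wS e := by ring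
      omega

private theorem e07_big (C C1 d e : ℕ) (hd : 1 ≤ d) (hC : C1 ≤ C) (h : (d : ℝ) ^ C ≤ 2 ^ e) (j : Option (Fin d)) (i : Fin d) :
    (d : ℝ) ^ C1 ≤ 2 ^ e ∧ (2 : ℝ) ^ e * (d : ℝ) ^ C1 ≤ hS e ∧
      (hS e : ℝ) * (d : ℝ) ^ C1 ≤ (lm false (LS e j i) (hS e) : ℕ) := by
  have h0 : (d : ℝ) ^ C1 ≤ 2 ^ e := le_trans (pow_le_pow_right₀ (by exact_mod_cast hd) hC) h
  have hE : (1 : ℝ) ≤ 2 ^ e := one_le_pow₀ (by norm_num)
  have hh : (hS e : ℝ) = (2 : ℝ) ^ e * 2 ^ e := by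
    unfold hS
    push_cast
    rw [← mul_pow]
    norm_num
  refine ⟨h0, ?_, ?_⟩
  · rw [hh]
    exact mul_le_mul_of_nonneg_left h0 (by positivity)
  · have h1 := e07_LS1 e j i
    have h2 := e07_lm e j i
    have h3 : 1 ≤ hS e := Nat.one_le_pow _ _ (by norm_num)
    have h4 : 2 ^ (5 * e) ≤ lm false (LS e j i) (hS e) := by omega
    have h5 : (2 : ℝ) ^ (5 * e) ≤ (lm false (LS e j i) (hS e) : ℕ) := by exact_mod_cast h4
    refine le_trans ?_ h5
    calc (hS e : ℝ) * (d : ℝ) ^ C1 ≤ (2 : ℝ) ^ e * 2 ^ e * 2 ^ e := by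
          rw [hh]
          exact mul_le_mul_of_nonneg_left h0 (by positivity)
      _ = 2 ^ (3 * e) := by rw [← pow_add, ← pow_add]; congr 1; ring
      _ ≤ 2 ^ (5 * e) := pow_le_pow_right₀ (by norm_num) (by omega)

private theorem e07_Ym (e : ℕ) {d : ℕ} (hw : ((wS e : ℝ) + 2 * hS e) ^ (d - 1) ≤ 2 * (wS e : ℝ) ^ (d - 1)) (j : Fin d) :
    2 * ∑ i, ∏ i' ∈ univ.erase i, (((lm false (LS e (some j) i') (hS e) : ℕ) : ℝ) + 1) ≤ 8 * d * (wS e : ℝ) ^ (d - 1) := by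
  have h1 : ∀ i' : Fin d, ((lm false (LS e (some j) i') (hS e) : ℕ) : ℝ) + 1 ≤
      ((wS e : ℝ) + 2 * hS e) * (if i' = j then 2 else 1) := by
    intro i'
    have h2 := e07_lm e (some j) i'
    by_cases hij : i' = j
    · rw [if_pos hij]
      subst hij
      rw [e07_eq] at h2
      have h3 : lm false (LS e (some i') i') (hS e) + 1 ≤ (wS e + 2 * hS e) * 2 := by omega
      exact_mod_cast h3
    · rw [if_neg hij]
      rw [e07_ne e j i' hij] at h2
      have h3 : lm false (LS e (some j) i') (hS e) + 1 ≤ (wS e + 2 * hS e) * 1 := by omega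
      exact_mod_cast h3
  have h4 : ∀ i : Fin d, ∏ i' ∈ univ.erase i, (((lm false (LS e (some j) i') (hS e) : ℕ) : ℝ) + 1) ≤ 4 * (wS e : ℝ) ^ (d - 1) := by
    intro i
    have h5 : ∏ i' ∈ univ.erase i, (if i' = j then (2 : ℝ) else 1) ≤ 2 := by
      rw [Finset.prod_ite_eq']
      split_ifs <;> norm_num
    calc ∏ i' ∈ univ.erase i, (((lm false (LS e (some j) i') (hS e) : ℕ) : ℝ) + 1) ≤
          ∏ i' ∈ univ.erase i, (((wS e : ℝ) + 2 * hS e) * (if i' = j then 2 else 1)) :=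
          prod_le_prod (fun i' _ => by positivity) fun i' _ => h1 i'
      _ = ((wS e : ℝ) + 2 * hS e) ^ (d - 1) * ∏ i' ∈ univ.erase i, (if i' = j then (2 : ℝ) else 1) := by
        rw [prod_mul_distrib, prod_const, card_erase_of_mem (mem_univ _), card_univ, Fintype.card_fin]
      _ ≤ 2 * (wS e : ℝ) ^ (d - 1) * 2 := by
        apply mul_le_mul hw h5
        · exact prod_nonneg fun i' _ => by split_ifs <;> norm_num
        · positivity
      _ = 4 * (wS e : ℝ) ^ (d - 1) := by ring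
  calc 2 * ∑ i, ∏ i' ∈ univ.erase i, (((lm false (LS e (some j) i') (hS e) : ℕ) : ℝ) + 1) ≤
        2 * ∑ _i : Fin d, 4 * (wS e : ℝ) ^ (d - 1) :=
        mul_le_mul_of_nonneg_left (sum_le_sum fun i _ => h4 i) (by norm_num)
    _ = 8 * d * (wS e : ℝ) ^ (d - 1) := by
      rw [sum_const, card_univ, Fintype.card_fin, nsmul_eq_mul]
      ring

private theorem e07_num {d : ℕ} (hd : 4 ≤ d) (Cb n : ℕ) (W : ℝ) (hW : 0 ≤ W) :
    (n : ℝ) * (8 * d * W) / (d : ℝ) ^ (Cb + 4) + -(n * (W / (d : ℝ) ^ Cb)) ≤ 2 * (-(n * (W / (d : ℝ) ^ (Cb + 1)))) := by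
  have hd4 : (4 : ℝ) ≤ d := by exact_mod_cast hd
  have hdp : (0 : ℝ) < d := by linarith
  have hD : (0 : ℝ) < (d : ℝ) ^ Cb := by positivity
  have e1 : (n : ℝ) * (8 * d * W) / (d : ℝ) ^ (Cb + 4) = (n * W / (d : ℝ) ^ Cb) * (8 / (d : ℝ) ^ 3) := by
    field_simp
    ring
  have e2 : (n : ℝ) * (W / (d : ℝ) ^ Cb) = (n * W / (d : ℝ) ^ Cb) * 1 := by ring
  have e3 : (n : ℝ) * (W / (d : ℝ) ^ (Cb + 1)) = (n * W / (d : ℝ) ^ Cb) * (1 / d) := by
    rw [pow_succ]
    field_simp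
  rw [e1, e2, e3]
  have hX : (0 : ℝ) ≤ n * W / (d : ℝ) ^ Cb := by positivity
  have h1 : 8 / (d : ℝ) ^ 3 ≤ 1 / 2 := by
    rw [div_le_div_iff₀ (by positivity) (by norm_num)]
    nlinarith [pow_le_pow_left₀ (by norm_num) hd4 3]
  have h2 : 1 / (d : ℝ) ≤ 1 / 4 := one_div_le_one_div_of_le (by norm_num) hd4
  nlinarith

theorem far_dominoes : ∃ Cb C : ℕ, ∃ d₀ : ℕ, 2 ≤ C ∧ ∀ d q : ℕ, d₀ ≤ d → Rg d q → ∀ (K : ℕ) (ι : Type) [DecidableEq ι]
    (I : Finset ι) (u : ι → Blk d K) (j : ι → Fin d),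
    (∀ k ∈ I, ((u k) (j k)).val + 1 < 2 ^ K) →
    (∀ k ∈ I, ∀ k' ∈ I, k ≠ k' → ∃ i,
      aS (eC C d) (u k) i + lm false (LS (eC C d) (some (j k)) i) (hS (eC C d)) + 2 * hS (eC C d) + 4 ≤ aS (eC C d) (u k') i ∨
      aS (eC C d) (u k') i + lm false (LS (eC C d) (some (j k')) i) (hS (eC C d)) + 2 * hS (eC C d) + 4 ≤ aS (eC C d) (u k) i) →
    cG (bG d (NS (eC C d) K)) (fun f : BxV d (NS (eC C d) K) → Fin q =>
        ∀ k ∈ I, ¬ WPU (LS (eC C d) (some (j k))) (hS (eC C d)) (fD (eC C d) (u k) (some (j k)) f)) ≤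
      cG (bG d (NS (eC C d) K)) (fun _ : BxV d (NS (eC C d) K) → Fin q => True) *
        Real.exp (-(I.card * ((wS (eC C d) : ℝ) ^ (d - 1) / (d : ℝ) ^ Cb))) := by
  obtain ⟨Cb, C0, h0⟩ := impure_dbl
  obtain ⟨C1, d1, h1⟩ := schwarz (Cb + 4)
  obtain ⟨C, hCdef⟩ : ∃ C, C = max 2 (max C0 C1) := ⟨_, rfl⟩
  have hC2 : 2 ≤ C := by omega
  have hC0 : C0 ≤ C := by omega
  have hC1 : C1 ≤ C := by omega
  obtain ⟨d0, hd0⟩ := h0 C hC0
  obtain ⟨d2, hd2⟩ := w_pow C hC2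
  obtain ⟨d3, hd3⟩ := eC_small C 0
  refine ⟨Cb + 1, C, max 4 (max d0 (max d1 (max d2 d3))), hC2, ?_⟩
  intro d q hd hR K ι _ I u j hu hfar
  have hd4 : 4 ≤ d := by omega
  have hq : 2 ≤ q := by
    obtain ⟨⟨r, hr⟩, _, h3⟩ := hR
    omega
  obtain ⟨e, he⟩ : ∃ e, e = eC C d := ⟨_, rfl⟩
  have himp := hd0 d q (by omega) hR
  have hwp := hd2 d (by omega)
  have hsm := (hd3 d (by omega)).1
  have hle := (eC_le (C := C) (d := d) (by omega) (by omega)).1
  rw [← he] at hfar himp hwp hsm hle ⊢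
  have hnum := e07_big C C1 d e (by omega) hC1 hle
  have hS1 := h1 d q (by omega) hR e (hS e) (hnum none ⟨0, by omega⟩).1 (hnum none ⟨0, by omega⟩).2.1 hsm (NS e K) ι I
    (fun k => aS e (u k)) (fun k i => lm false (LS e (some (j k)) i) (hS e)) (8 * d * (wS e : ℝ) ^ (d - 1))
    (fun k _ i => e07_aeven e (u k) i) (fun k _ i => e07_even e (some (j k)) i)
    (fun k hk i => e07_pos2 e (u k) (j k) (hu k hk) i) hfar
    (fun k _ i => (hnum (some (j k)) i).2.2) (fun k _ => e07_Ym e hwp (j k))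
    (fun k f => ¬ WPU (LS e (some (j k))) (hS e) f)
  have hS2 : cG (bG d (NS e K)) (fun f : BxV d (NS e K) → Fin q =>
        ∀ k ∈ I, ¬ WPU (LS e (some (j k))) (hS e) (fD e (u k) (some (j k)) f)) ^ 2 *
      ∏ k ∈ I, N2 (WG (fun _ : Fin d => false) (LS e (some (j k))) (hS e)) (Wgl (fun _ : Fin d => false) (LS e (some (j k))) (hS e))
        (fun _ : WV (fun _ : Fin d => false) (LS e (some (j k))) (hS e) → Fin q => True) ≤
      cG (bG d (NS e K)) (fun _ : BxV d (NS e K) → Fin q => True) ^ 2 *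
        Real.exp (I.card * (8 * d * (wS e : ℝ) ^ (d - 1)) / (d : ℝ) ^ (Cb + 4)) *
      ∏ k ∈ I, N2 (WG (fun _ : Fin d => false) (LS e (some (j k))) (hS e)) (Wgl (fun _ : Fin d => false) (LS e (some (j k))) (hS e))
        (fun f : WV (fun _ : Fin d => false) (LS e (some (j k))) (hS e) → Fin q => ¬ WPU (LS e (some (j k))) (hS e) f) := by
    have e1 := prod_congr (s₁ := I) rfl fun k _ => e07_N2 (q := q) (LS e (some (j k))) (hS e) fun _ => True
    have e2 := prod_congr (s₁ := I) rfl fun k _ => e07_N2 (q := q) (LS e (some (j k))) (hS e)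
      fun f => ¬ WPU (LS e (some (j k))) (hS e) f
    rw [← e1, ← e2]
    exact hS1
  obtain ⟨NT, hNT⟩ : ∃ NT : ι → ℝ, NT = fun k => N2 (WG (fun _ : Fin d => false) (LS e (some (j k))) (hS e))
      (Wgl (fun _ : Fin d => false) (LS e (some (j k))) (hS e))
      (fun _ : WV (fun _ : Fin d => false) (LS e (some (j k))) (hS e) → Fin q => True) := ⟨_, rfl⟩
  have hP : 0 < ∏ k ∈ I, NT k := by
    rw [hNT]
    exact prod_pos fun k _ => e07_pos hq _ _ fun i => le_trans (Nat.one_le_pow _ _ (by norm_num)) (e07_LS1 e (some (j k)) i)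
  have hB : ∏ k ∈ I, N2 (WG (fun _ : Fin d => false) (LS e (some (j k))) (hS e)) (Wgl (fun _ : Fin d => false) (LS e (some (j k))) (hS e))
        (fun f : WV (fun _ : Fin d => false) (LS e (some (j k))) (hS e) → Fin q => ¬ WPU (LS e (some (j k))) (hS e) f) ≤
      (∏ k ∈ I, NT k) * Real.exp (-(I.card * ((wS e : ℝ) ^ (d - 1) / (d : ℝ) ^ Cb))) := by
    have e3 : Real.exp (-(I.card * ((wS e : ℝ) ^ (d - 1) / (d : ℝ) ^ Cb))) =
        ∏ _k ∈ I, Real.exp (-((wS e : ℝ) ^ (d - 1) / (d : ℝ) ^ Cb)) := by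
      rw [prod_const, ← Real.exp_nat_mul]
      congr 1
      ring
    rw [e3, ← prod_mul_distrib]
    refine prod_le_prod (fun k _ => ?_) (fun k _ => ?_)
    · unfold N2
      exact Nat.cast_nonneg _
    · rw [hNT]
      exact himp (j k)
  rw [show (∏ k ∈ I, N2 (WG (fun _ : Fin d => false) (LS e (some (j k))) (hS e)) (Wgl (fun _ : Fin d => false) (LS e (some (j k))) (hS e))
        (fun _ : WV (fun _ : Fin d => false) (LS e (some (j k))) (hS e) → Fin q => True)) = ∏ k ∈ I, NT k by rw [hNT]] at hS2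
  obtain ⟨X, hX⟩ : ∃ X, X = cG (bG d (NS e K)) (fun f : BxV d (NS e K) → Fin q =>
        ∀ k ∈ I, ¬ WPU (LS e (some (j k))) (hS e) (fD e (u k) (some (j k)) f)) := ⟨_, rfl⟩
  obtain ⟨T, hT⟩ : ∃ T, T = cG (bG d (NS e K)) (fun _ : BxV d (NS e K) → Fin q => True) := ⟨_, rfl⟩
  rw [← hX, ← hT] at hS2
  rw [← hX, ← hT]
  have hT0 : 0 ≤ T := by
    rw [hT]
    unfold cG
    exact Nat.cast_nonneg _
  have hmain : X ^ 2 ≤ (T * Real.exp (-(I.card * ((wS e : ℝ) ^ (d - 1) / (d : ℝ) ^ (Cb + 1))))) ^ 2 := by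
    have h5 : X ^ 2 * (∏ k ∈ I, NT k) ≤ T ^ 2 * Real.exp (I.card * (8 * d * (wS e : ℝ) ^ (d - 1)) / (d : ℝ) ^ (Cb + 4)) *
        ((∏ k ∈ I, NT k) * Real.exp (-(I.card * ((wS e : ℝ) ^ (d - 1) / (d : ℝ) ^ Cb)))) :=
      le_trans hS2 (mul_le_mul_of_nonneg_left hB (by positivity))
    have h6 : X ^ 2 ≤ T ^ 2 * Real.exp (I.card * (8 * d * (wS e : ℝ) ^ (d - 1)) / (d : ℝ) ^ (Cb + 4)) *
        Real.exp (-(I.card * ((wS e : ℝ) ^ (d - 1) / (d : ℝ) ^ Cb))) := by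
      refine le_of_mul_le_mul_right ?_ hP
      refine le_trans h5 (le_of_eq ?_)
      ring
    refine le_trans h6 ?_
    rw [mul_pow, ← Real.exp_nat_mul, mul_assoc, ← Real.exp_add]
    refine mul_le_mul_of_nonneg_left (Real.exp_le_exp.2 ?_) (by positivity)
    have h7 := e07_num hd4 Cb I.card ((wS e : ℝ) ^ (d - 1)) (by positivity)
    push_cast
    exact h7
  have hX0 : 0 ≤ X := by
    rw [hX]
    unfold cG
    exact Nat.cast_nonneg _
  exact (pow_le_pow_iff_left₀ hX0 (by positivity) (by norm_num)).1 hmain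

end Pool.Agent.LC
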