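import Pool.Agent.Lib_MP_2c424f_lc7.Defs
import Pool.Agent.Lib_MP_2c424f_cor.F05

/-!
# LC7 E08: geometry of the dominoes

* `farD_sep`: `COR.sep` (the same definition of far blocks).
* `far_pos`: `t`, `t'` far in the direction `i`, say `(t i).val + 4 ≤ (t' i).val`; the domino of `t` has `(u i).val ≤ (t i).val` and it ends before
  `aS u i + w + lm false L s` in the direction `i` if `j = i` (then `(u i).val ≤ (t i).val`, side `lm false (2 L) s = 2 w - 2 + 2 s`), in all cases before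
  `2 h + 2 + w (t i).val + 2 w - 2 + 2 s`; the domino of `t'` starts at `≥ 2 h + 2 + w ((t' i).val - 1)`; the gap is `≥ w + 2 - 2 s ≥ 2 h + 4` (`w = 2 · 32^e`, `e ≥ 1`).
-/

set_option autoImplicit false

open Finset Filter

namespace Pool.Agent.LC

open Pool.Agent.LO Pool.Agent.LIN Pool.Agent.THR Pool.Agent.COR

variable {d K : ℕ}

theorem farD_sep (Γ : Finset (Blk d K)) : ∃ Γ' ⊆ Γ, (∀ t ∈ Γ', ∀ t' ∈ Γ', t ≠ t' → farD t t') ∧
    Γ.card ≤ 7 ^ d * Γ'.card := by
  obtain ⟨Γ', h1, h2, h3⟩ := COR.sep Γ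
  exact ⟨Γ', h1, fun t ht t' ht' hne => h2 t ht t' ht' hne, h3⟩

private theorem E08_hw {e : ℕ} (he : 1 ≤ e) : 4 ≤ hS e ∧ 8 * hS e ≤ wS e := by
  have h1 : 4 ^ 1 ≤ 4 ^ e := Nat.pow_le_pow_right (by norm_num) he
  have h2 : 8 ^ 1 ≤ 8 ^ e := Nat.pow_le_pow_right (by norm_num) he
  have h3 : 2 ^ (5 * e) = 8 ^ e * 4 ^ e := by
    rw [← mul_pow, pow_mul]
    norm_num
  unfold hS wS
  constructor
  · omega
  · rw [h3]
    have h4 : 8 * 4 ^ e ≤ 8 ^ e * 4 ^ e := Nat.mul_le_mul_right _ (by omega)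
    omega

private theorem E08_mul {w x y c : ℕ} (h : x + c ≤ y) : w * x + c * w ≤ w * y := by
  have h1 := Nat.mul_le_mul_left w h
  rw [Nat.mul_add, Nat.mul_comm w c] at h1
  exact h1

private theorem E08_nxt (u : Blk d K) (j : Fin d) (h : (u j).val + 1 < 2 ^ K) (i : Fin d) :
    (nxt u j i).val = if i = j then (u i).val + 1 else (u i).val := by
  unfold nxt
  by_cases hij : i = j
  · subst hij
    rw [if_pos rfl, Function.update_self]
    have h1 : Fact (1 < 2 ^ K) := ⟨by omega⟩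
    rw [ZMod.val_add, ZMod.val_one, Nat.mod_eq_of_lt h]
  · rw [if_neg hij, Function.update_of_ne hij]

private theorem E08_lm (e : ℕ) (j i : Fin d) : lm false (LS e (some j) i) (hS e) + 2 =
    if i = j then 2 * wS e + 2 * hS e else wS e + 2 * hS e := by
  have h0 : 1 ≤ 2 ^ (5 * e) := Nat.one_le_pow _ _ (by norm_num)
  unfold lm LS rS wS
  by_cases hij : i = j
  · subst hij
    rw [if_pos rfl, if_pos rfl, pow_succ]
    simp only [Bool.false_eq_true, if_false]
    omega
  · have h1 : ¬ (some j = some i) := fun h => hij (Option.some.inj h).symm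
    rw [if_neg h1, if_neg hij]
    simp only [Bool.false_eq_true, if_false]
    omega

private theorem E08_pos {e : ℕ} {t u : Blk d K} {j : Fin d} (h : (u j).val + 1 < 2 ^ K)
    (h1 : u = t ∨ nxt u j = t) (i : Fin d) :
    2 * hS e + 2 + wS e * (t i).val ≤ aS e u i + wS e ∧
      aS e u i + lm false (LS e (some j) i) (hS e) + 2 ≤
        2 * hS e + 2 + wS e * (t i).val + 2 * wS e + 2 * hS e := by
  have h2 := E08_lm e j i
  have h3 : (t i).val = (u i).val ∨ i = j ∧ (t i).val = (u i).val + 1 := by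
    rcases h1 with rfl | rfl
    · exact Or.inl rfl
    · rw [E08_nxt u j h i]
      by_cases hij : i = j
      · right
        rw [if_pos hij]
        exact ⟨hij, rfl⟩
      · left
        rw [if_neg hij]
  have h4 : aS e u i = 2 * hS e + 2 + wS e * (u i).val := rfl
  rw [h4]
  rcases h3 with h3 | ⟨h3, h5⟩
  · rw [h3]
    by_cases hij : i = j
    · rw [if_pos hij] at h2
      omega
    · rw [if_neg hij] at h2
      omega
  · rw [if_pos h3] at h2
    rw [h5, Nat.mul_add, Nat.mul_one]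
    omega

theorem far_pos {e : ℕ} (he : 1 ≤ e) {t t' u u' : Blk d K} {j j' : Fin d} (ht : farD t t')
    (hu : (u j).val + 1 < 2 ^ K) (hu' : (u' j').val + 1 < 2 ^ K) (h1 : u = t ∨ nxt u j = t)
    (h2 : u' = t' ∨ nxt u' j' = t') : ∃ i,
      aS e u i + lm false (LS e (some j) i) (hS e) + 2 * hS e + 4 ≤ aS e u' i ∨
      aS e u' i + lm false (LS e (some j') i) (hS e) + 2 * hS e + 4 ≤ aS e u i := by
  have hw := E08_hw he
  obtain ⟨i, hi⟩ := ht
  refine ⟨i, ?_⟩
  have h5 := E08_pos (e := e) hu h1 i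
  have h6 := E08_pos (e := e) hu' h2 i
  rcases hi with hi | hi
  · have h9 : wS e * (t i).val + 4 * wS e ≤ wS e * (t' i).val := E08_mul hi
    left
    omega
  · have h9 : wS e * (t' i).val + 4 * wS e ≤ wS e * (t i).val := E08_mul hi
    right
    omega

end Pool.Agent.LC
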