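import Pool.Agent.Lib_MP_2c424f_lc7.E07
import Pool.Agent.Lib_MP_2c424f_lc7.E08

/-!
# LC7 E09: bad large blocks are rare

As `COR.bad_rare` (`Lib_MP_2c424f_cor/F06.lean`): `Γ'` from `farD_sep`; for each `t ∈ Γ'` choose the direction and one of the two possibilities
(`(2 d)^|Γ'|` choices); `far_dominoes` with `ι` = subtype or `Blk d K`, `far_pos`.  The number is at most
`Z exp (|Γ'| (log (2d) - w^(d-1)/d^Cb)) ≤ Z exp (-|Γ| w^(d-1)/(d^(Cb+1) 7^d))`; and `w^(d-1) ≥ (2 d^10)^(d-1)` is so large that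
`ρ = exp (-(w^(d-1)/(d^(Cb+1) 7^d)))` satisfies `4^d ρ ≤ 1/(1000 d)`.
-/

set_option autoImplicit false

open Finset Filter

namespace Pool.Agent.LC

open Pool.Agent.LO Pool.Agent.LIN Pool.Agent.THR Pool.Agent.COR

private theorem E09_nxt {d K : ℕ} {u t : Blk d K} {j : Fin d} (h : LO.nxt u j = t) :
    u = Function.update t j (t j - 1) := by
  funext i
  by_cases hi : i = j
  · subst hi
    have h1 := congrFun h i
    simp only [LO.nxt, Function.update_self] at h1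
    rw [Function.update_self, ← h1, add_sub_cancel_right]
  · have h1 := congrFun h i
    rw [Function.update_of_ne hi, ← h1]
    simp only [LO.nxt, Function.update_of_ne hi]

private theorem E09_nxt' {d K : ℕ} (t : Blk d K) (j : Fin d) :
    LO.nxt (Function.update t j (t j - 1)) j = t := by
  funext i
  by_cases hi : i = j
  · subst hi
    simp [LO.nxt]
  · simp [LO.nxt, Function.update_of_ne hi]

/-- the lower cell of the domino -/
private def E09_u {d K : ℕ} (t : Blk d K) (p : Fin d × Bool) : Blk d K :=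
  if p.2 then t else Function.update t p.1 (t p.1 - 1)

private theorem E09_u_or {d K : ℕ} (t : Blk d K) (p : Fin d × Bool) :
    E09_u t p = t ∨ LO.nxt (E09_u t p) p.1 = t := by
  obtain ⟨j, b⟩ := p
  cases b with
  | true => left; rfl
  | false => right; exact E09_nxt' t j

private theorem E09_bad {d K q e : ℕ} {t : Blk d K} {f : BxV d (NS e K) → Fin q} (h : BADd e t f) :
    ∃ p : Fin d × Bool, (E09_u t p p.1).val + 1 < 2 ^ K ∧
      ¬ WPU (LS e (some p.1)) (hS e) (fD e (E09_u t p) (some p.1) f) := by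
  obtain ⟨u, j, h1, h2, h3⟩ := h
  rcases h2 with h2 | h2
  · subst h2
    exact ⟨(j, true), h1, h3⟩
  · have h4 := E09_nxt h2
    refine ⟨(j, false), ?_, ?_⟩
    · show ((Function.update t j (t j - 1)) j).val + 1 < 2 ^ K
      rw [← h4]
      exact h1
    · show ¬ WPU (LS e (some j)) (hS e) (fD e (Function.update t j (t j - 1)) (some j) f)
      rw [← h4]
      exact h3

private theorem E09_card {α : Type} [Fintype α] (P : α → Prop) (i1 i2 : DecidablePred P) :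
    ((@Finset.filter α P i1 univ).card : ℝ) = ((@Finset.filter α P i2 univ).card : ℝ) := by
  have e : i1 = i2 := Subsingleton.elim _ _
  subst e
  rfl

private theorem E09_union {W : Type} [Fintype W] [DecidableEq W] {q : ℕ} (G : SimpleGraph W) {C : Type} [Fintype C]
    (P : (W → Fin q) → Prop) (Q : C → (W → Fin q) → Prop)
    (h : ∀ f, P f → ∃ c, Q c f) (B : ℝ) (hB : ∀ c, cG G (Q c) ≤ B) :
    cG G P ≤ Fintype.card C * B := by
  classical
  have h1 : (univ.filter fun f : W → Fin q => PrG G f ∧ P f) ⊆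
      (univ : Finset C).biUnion fun c =>
        univ.filter fun f : W → Fin q => PrG G f ∧ Q c f := by
    intro f hf
    obtain ⟨h1, h2⟩ := (Finset.mem_filter.1 hf).2
    obtain ⟨c, hc⟩ := h f h2
    exact Finset.mem_biUnion.2 ⟨c, mem_univ _, mem_filter.2 ⟨mem_univ _, h1, hc⟩⟩
  have h2 := (Finset.card_le_card h1).trans Finset.card_biUnion_le
  have h3 : cG G P ≤ ∑ c : C, cG G (Q c) := by
    have e1 : cG G P = ((univ.filter fun f : W → Fin q => PrG G f ∧ P f).card : ℝ) := E09_card _ _ _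
    have e2 : ∀ c, cG G (Q c) =
        ((univ.filter fun f : W → Fin q => PrG G f ∧ Q c f).card : ℝ) := fun c => E09_card _ _ _
    rw [e1, Finset.sum_congr rfl fun c _ => e2 c]
    exact_mod_cast h2
  calc cG G P ≤ ∑ c : C, cG G (Q c) := h3
    _ ≤ ∑ _c : C, B := Finset.sum_le_sum fun c _ => hB c
    _ = Fintype.card C * B := by
      rw [Finset.sum_const, Finset.card_univ, nsmul_eq_mul]

private theorem E09_zero {W : Type} [Fintype W] [DecidableEq W] {q : ℕ} (G : SimpleGraph W)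
    (P : (W → Fin q) → Prop) (h : ∀ f, ¬ P f) : cG G P = 0 := by
  classical
  unfold cG
  rw [Nat.cast_eq_zero, Finset.card_eq_zero]
  ext f
  simp [h f]

private theorem E09_W {C d : ℕ} (hC : 2 ≤ C) (hd : 2 ≤ d) :
    (d : ℝ) ^ (10 * (d - 1)) ≤ (wS (eC C d) : ℝ) ^ (d - 1) := by
  have hd1 : (1 : ℝ) ≤ d := by exact_mod_cast (by omega : 1 ≤ d)
  have h1 := (eC_le hd (by omega : 1 ≤ C)).1
  have h2 : (d : ℝ) ^ 2 ≤ 2 ^ eC C d := (pow_le_pow_right₀ hd1 hC).trans h1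
  have h3 : (d : ℝ) ^ 10 ≤ (wS (eC C d) : ℝ) := by
    unfold wS
    push_cast
    have h4 : ((d : ℝ) ^ 2) ^ 5 ≤ ((2 : ℝ) ^ eC C d) ^ 5 := pow_le_pow_left₀ (by positivity) h2 5
    rw [← pow_mul, ← pow_mul, mul_comm (eC C d) 5] at h4
    have h5 : (0 : ℝ) ≤ (2 : ℝ) ^ (5 * eC C d) := by positivity
    norm_num at h4
    linarith
  rw [pow_mul]
  exact pow_le_pow_left₀ (by positivity) h3 _

private theorem E09_W2 {C Cb d : ℕ} (hC : 2 ≤ C) (hd : Cb + 2000 ≤ d) :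
    1002 * (d : ℝ) ^ (Cb + 2) * 7 ^ d ≤ (wS (eC C d) : ℝ) ^ (d - 1) := by
  have hd1 : (1 : ℝ) ≤ d := by exact_mod_cast (by omega : 1 ≤ d)
  have hd7 : (7 : ℝ) ≤ d := by exact_mod_cast (by omega : 7 ≤ d)
  have hdb : (1002 : ℝ) ≤ d := by exact_mod_cast (by omega : 1002 ≤ d)
  refine le_trans ?_ (E09_W hC (by omega))
  have h1 : (7 : ℝ) ^ d ≤ (d : ℝ) ^ d := pow_le_pow_left₀ (by norm_num) hd7 _
  have h2 : 1002 * (d : ℝ) ^ (Cb + 2) * 7 ^ d ≤ d * (d : ℝ) ^ (Cb + 2) * (d : ℝ) ^ d := by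
    gcongr
  refine h2.trans ?_
  have h3 : (d : ℝ) * (d : ℝ) ^ (Cb + 2) * (d : ℝ) ^ d = (d : ℝ) ^ (Cb + 3 + d) := by ring
  rw [h3]
  exact pow_le_pow_right₀ hd1 (by omega)

private theorem E09_num {Cb d : ℕ} (hd : 2 ≤ d) {W : ℝ} (hW : 4 * (d : ℝ) ^ (Cb + 1) ≤ W) :
    2 * (d : ℝ) * Real.exp (-(W / (d : ℝ) ^ Cb)) ≤ Real.exp (-(W / (d : ℝ) ^ (Cb + 1))) := by
  have hd0 : (0 : ℝ) < d := by exact_mod_cast (by omega : 0 < d)
  have hd2 : (2 : ℝ) ≤ d := by exact_mod_cast hd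
  have hp : (0 : ℝ) < (d : ℝ) ^ Cb := by positivity
  have hW0 : 0 ≤ W := le_trans (by positivity) hW
  have h1 : 2 * (d : ℝ) ≤ W / (d : ℝ) ^ Cb - W / (d : ℝ) ^ (Cb + 1) := by
    have e1 : W / (d : ℝ) ^ Cb - W / (d : ℝ) ^ (Cb + 1) = W * (d - 1) / (d : ℝ) ^ (Cb + 1) := by
      have hne : (d : ℝ) ≠ 0 := hd0.ne'
      rw [pow_succ]
      field_simp
    rw [e1, le_div_iff₀ (by positivity)]
    have h2 : W ≤ W * (d - 1) := le_mul_of_one_le_right hW0 (by linarith)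
    have h3 : W * 1 ≤ W * (d - 1) := by linarith
    have h4 : W * (d / 2) ≤ W * (d - 1) := mul_le_mul_of_nonneg_left (by linarith) hW0
    have h5 : 4 * (d : ℝ) ^ (Cb + 1) * (d / 2) ≤ W * (d / 2) := mul_le_mul_of_nonneg_right hW (by linarith)
    calc 2 * (d : ℝ) * (d : ℝ) ^ (Cb + 1) = 4 * (d : ℝ) ^ (Cb + 1) * (d / 2) := by ring
      _ ≤ _ := h5.trans h4
  have h2 : 2 * (d : ℝ) ≤ Real.exp (W / (d : ℝ) ^ Cb - W / (d : ℝ) ^ (Cb + 1)) :=
    h1.trans ((le_add_of_nonneg_right zero_le_one).trans (Real.add_one_le_exp _))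
  calc 2 * (d : ℝ) * Real.exp (-(W / (d : ℝ) ^ Cb)) ≤
      Real.exp (W / (d : ℝ) ^ Cb - W / (d : ℝ) ^ (Cb + 1)) * Real.exp (-(W / (d : ℝ) ^ Cb)) :=
        mul_le_mul_of_nonneg_right h2 (Real.exp_pos _).le
    _ = _ := by
      rw [← Real.exp_add]
      congr 1
      ring

private theorem E09_small {Cb d : ℕ} (hd : 1 ≤ d) {W : ℝ} (hW : 1002 * (d : ℝ) ^ (Cb + 2) * 7 ^ d ≤ W) :
    4 ^ d * Real.exp (-(W / ((d : ℝ) ^ (Cb + 1) * 7 ^ d))) ≤ 1 / (1000 * (d : ℝ)) := by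
  have hd0 : (0 : ℝ) < d := by exact_mod_cast hd
  set X : ℝ := W / ((d : ℝ) ^ (Cb + 1) * 7 ^ d) with hX
  have h1 : 1002 * (d : ℝ) ≤ X := by
    rw [hX, le_div_iff₀ (by positivity)]
    calc 1002 * (d : ℝ) * ((d : ℝ) ^ (Cb + 1) * 7 ^ d) = 1002 * (d : ℝ) ^ (Cb + 2) * 7 ^ d := by ring
      _ ≤ W := hW
  have h2 : (4 : ℝ) ^ d ≤ Real.exp (2 * d) := by
    have h3 : (4 : ℝ) ≤ Real.exp 2 := by
      have h4 : (2 : ℝ) ≤ Real.exp 1 := by
        have := Real.add_one_le_exp (1 : ℝ)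
        linarith
      have h5 : Real.exp 2 = Real.exp 1 * Real.exp 1 := by
        rw [← Real.exp_add]; norm_num
      rw [h5]
      nlinarith
    calc (4 : ℝ) ^ d ≤ Real.exp 2 ^ d := pow_le_pow_left₀ (by norm_num) h3 _
      _ = Real.exp (2 * d) := by
        rw [← Real.exp_nat_mul]; congr 1; ring
  have h3 : 1000 * (d : ℝ) ≤ Real.exp (1000 * d) :=
    (le_add_of_nonneg_right zero_le_one).trans (Real.add_one_le_exp _)
  have h4 : 4 ^ d * (1000 * (d : ℝ)) ≤ Real.exp X := by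
    calc 4 ^ d * (1000 * (d : ℝ)) ≤ Real.exp (2 * d) * Real.exp (1000 * d) :=
          mul_le_mul h2 h3 (by positivity) (Real.exp_pos _).le
      _ = Real.exp (1002 * d) := by
        rw [← Real.exp_add]; congr 1; ring
      _ ≤ Real.exp X := Real.exp_le_exp.2 h1
  rw [Real.exp_neg, ← div_eq_mul_inv, div_le_div_iff₀ (Real.exp_pos _) (by positivity), one_mul]
  exact h4

theorem badd_rare : ∃ C d₀ : ℕ, 2 ≤ C ∧ ∀ d q : ℕ, d₀ ≤ d → Rg d q → ∀ K : ℕ, ∃ ρ : ℝ, 0 ≤ ρ ∧ 4 ^ d * ρ ≤ 1 / (1000 * (d : ℝ)) ∧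
    ∀ Γ : Finset (Blk d K),
    cG (bG d (NS (eC C d) K)) (fun f : BxV d (NS (eC C d) K) → Fin q => ∀ t ∈ Γ, BADd (eC C d) t f) ≤
      cG (bG d (NS (eC C d) K)) (fun _ : BxV d (NS (eC C d) K) → Fin q => True) * ρ ^ Γ.card := by
  obtain ⟨Cb, C, d₀, hC, H⟩ := far_dominoes
  refine ⟨C, max d₀ (Cb + 2000), hC, fun d q hd hR K => ?_⟩
  have hd' : Cb + 2000 ≤ d := (le_max_right _ _).trans hd
  have hd0 : (0 : ℝ) < d := by exact_mod_cast (by omega : 0 < d)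
  have hd1 : (1 : ℝ) ≤ d := by exact_mod_cast (by omega : 1 ≤ d)
  have he : 1 ≤ eC C d := by
    by_contra h
    have h0 : eC C d = 0 := by omega
    have h1 := (eC_le (by omega : 2 ≤ d) (by omega : 1 ≤ C)).1
    rw [h0, pow_zero] at h1
    have h2 : (d : ℝ) ^ 1 ≤ (d : ℝ) ^ C := pow_le_pow_right₀ hd1 (by omega)
    rw [pow_one] at h2
    have h3 : (2 : ℝ) ≤ d := by exact_mod_cast (by omega : 2 ≤ d)
    linarith
  set W : ℝ := (wS (eC C d) : ℝ) ^ (d - 1) with hWdef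
  have hW2 : 1002 * (d : ℝ) ^ (Cb + 2) * 7 ^ d ≤ W := E09_W2 hC hd'
  have hW0 : 0 ≤ W := by positivity
  have hW1 : 4 * (d : ℝ) ^ (Cb + 1) ≤ W := by
    refine le_trans ?_ hW2
    have h7 : (1 : ℝ) ≤ 7 ^ d := one_le_pow₀ (by norm_num)
    have h6 : (0 : ℝ) ≤ (d : ℝ) ^ (Cb + 1) := by positivity
    have h5 : (d : ℝ) ^ (Cb + 1) ≤ (d : ℝ) ^ (Cb + 2) := pow_le_pow_right₀ hd1 (by omega)
    have h4 : (d : ℝ) ^ (Cb + 2) * 1 ≤ (d : ℝ) ^ (Cb + 2) * 7 ^ d := mul_le_mul_of_nonneg_left h7 (by positivity)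
    calc 4 * (d : ℝ) ^ (Cb + 1) ≤ 1002 * (d : ℝ) ^ (Cb + 2) := by linarith
      _ ≤ 1002 * ((d : ℝ) ^ (Cb + 2) * 7 ^ d) := by linarith
      _ = _ := by ring
  refine ⟨Real.exp (-(W / ((d : ℝ) ^ (Cb + 1) * 7 ^ d))), (Real.exp_pos _).le,
    E09_small (by omega) hW2, fun Γ => ?_⟩
  obtain ⟨Γ', hsub, hfar, hcard⟩ := farD_sep Γ
  set Z : ℝ := cG (bG d (NS (eC C d) K)) (fun _ : BxV d (NS (eC C d) K) → Fin q => True) with hZdef
  have hZ : 0 ≤ Z := by rw [hZdef]; unfold cG; positivity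
  set E : ℝ := Z * Real.exp (-(Γ'.card * (W / (d : ℝ) ^ Cb))) with hE
  have hE0 : 0 ≤ E := mul_nonneg hZ (Real.exp_pos _).le
  have h1 : cG (bG d (NS (eC C d) K)) (fun f : BxV d (NS (eC C d) K) → Fin q => ∀ t ∈ Γ, BADd (eC C d) t f) ≤
      Fintype.card ({t // t ∈ Γ'} → Fin d × Bool) * E := by
    refine E09_union _ _ (fun (c : {t // t ∈ Γ'} → Fin d × Bool) f =>
      ∀ t : {t // t ∈ Γ'}, (E09_u t.1 (c t) (c t).1).val + 1 < 2 ^ K ∧
        ¬ WPU (LS (eC C d) (some (c t).1)) (hS (eC C d)) (fD (eC C d) (E09_u t.1 (c t)) (some (c t).1) f)) ?_ E ?_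
    · intro f hf
      choose c hc using fun t : {t // t ∈ Γ'} => E09_bad (hf t.1 (hsub t.2))
      exact ⟨c, hc⟩
    · intro c
      by_cases hv : ∀ t : {t // t ∈ Γ'}, (E09_u t.1 (c t) (c t).1).val + 1 < 2 ^ K
      · have h2 := H d q ((le_max_left _ _).trans hd) hR K {t // t ∈ Γ'} Finset.univ
          (fun t => E09_u t.1 (c t)) (fun t => (c t).1) (fun t _ => hv t)
          (fun l _ m _ hlm => far_pos he (hfar l.1 l.2 m.1 m.2 fun h => hlm (Subtype.ext h))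
            (hv l) (hv m) (E09_u_or _ _) (E09_u_or _ _))
        have h3 : (Finset.univ : Finset {t // t ∈ Γ'}).card = Γ'.card := by
          rw [Finset.card_univ, Fintype.card_coe]
        rw [h3] at h2
        refine le_trans ?_ h2
        apply le_of_eq
        congr 1
        funext f
        apply propext
        exact ⟨fun h t _ => (h t).2, fun h t => ⟨hv t, h t (mem_univ _)⟩⟩
      · have h2 : cG (bG d (NS (eC C d) K)) (fun f : BxV d (NS (eC C d) K) → Fin q =>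
            ∀ t : {t // t ∈ Γ'}, (E09_u t.1 (c t) (c t).1).val + 1 < 2 ^ K ∧
              ¬ WPU (LS (eC C d) (some (c t).1)) (hS (eC C d))
                (fD (eC C d) (E09_u t.1 (c t)) (some (c t).1) f)) = 0 := by
          exact E09_zero _ _ fun f h => hv fun t => (h t).1
        rw [h2]
        exact hE0
  have h4 : (Fintype.card ({t // t ∈ Γ'} → Fin d × Bool) : ℝ) = (2 * (d : ℝ)) ^ Γ'.card := by
    rw [Fintype.card_fun, Fintype.card_prod, Fintype.card_fin, Fintype.card_bool, Fintype.card_coe]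
    push_cast
    rw [mul_comm (d : ℝ) 2]
  rw [h4] at h1
  refine h1.trans ?_
  have h5 : (2 * (d : ℝ)) ^ Γ'.card * E = Z *
      (2 * (d : ℝ) * Real.exp (-(W / (d : ℝ) ^ Cb))) ^ Γ'.card := by
    rw [hE, mul_pow (2 * (d : ℝ)), ← Real.exp_nat_mul, mul_neg]
    ring
  rw [h5]
  refine mul_le_mul_of_nonneg_left ?_ hZ
  calc (2 * (d : ℝ) * Real.exp (-(W / (d : ℝ) ^ Cb))) ^ Γ'.card ≤
      Real.exp (-(W / (d : ℝ) ^ (Cb + 1))) ^ Γ'.card :=
        pow_le_pow_left₀ (by positivity) (E09_num (by omega) hW1) _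
    _ ≤ _ := by
      rw [← Real.exp_nat_mul, ← Real.exp_nat_mul]
      apply Real.exp_le_exp.2
      rw [mul_neg, mul_neg, neg_le_neg_iff]
      have hc : (Γ.card : ℝ) ≤ 7 ^ d * Γ'.card := by exact_mod_cast hcard
      have e1 : W / (d : ℝ) ^ (Cb + 1) = 7 ^ d * (W / ((d : ℝ) ^ (Cb + 1) * 7 ^ d)) := by
        field_simp
      rw [e1, ← mul_assoc, mul_comm (Γ'.card : ℝ)]
      exact mul_le_mul_of_nonneg_right hc (by positivity)

end Pool.Agent.LC
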