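import Pool.Agent.Lib_MP_2c424f_lc7.Defs

/-!
# LC7 E10: labels of the large blocks

As `Lib_MP_2c424f_cor/F07.lean`.  `e ≥ 2`, so `L = 2^(5e) ≥ 1000`.
* `fD_pat`: the block `τ` of the large block `u` is the block `τ` of the domino `(u, j)`, the block `τ` of `nxt u j` is the block
  `update τ j (τ j + L)` of the domino (`(nxt u j j).val = (u j).val + 1`, positions `aS + s + 2 τ`).
* `dom_NGd`: the domino has `(2L-1)/(L-1) ≤ 2.01` times as many blocks as a large block, so at most `2.01/50 ≤ 1/20` of the blocks are exceptional.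
* `NGd_lab`: `#{τ : c ∈ ALP}` is at least `19/20` of all if `c ∈ A`, at most `1/20` if not.
* `good_NGd` (`K ≥ 1`, `d ≥ 1`): some domino contains the large block; `good_adjd`.
-/

set_option autoImplicit false

open Finset Filter

namespace Pool.Agent.LC

open Pool.Agent.LO Pool.Agent.LIN Pool.Agent.THR Pool.Agent.COR

variable {d q K : ℕ}

private theorem E10_L {e : ℕ} (he : 2 ≤ e) : 1000 ≤ 2 ^ (5 * e) := by
  calc 1000 ≤ 2 ^ 10 := by norm_num
    _ ≤ 2 ^ (5 * e) := Nat.pow_le_pow_right (by norm_num) (by omega)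

private theorem E10_Ln (e : ℕ) (i : Fin d) : LS e (none : Option (Fin d)) i = 2 ^ (5 * e) := by
  unfold LS rS
  rw [if_neg (by simp)]

private theorem E10_Lj (e : ℕ) (j : Fin d) : LS e (some j) j = 2 * 2 ^ (5 * e) := by
  unfold LS rS
  rw [if_pos rfl, pow_succ, mul_comm]

private theorem E10_Lo (e : ℕ) {i j : Fin d} (h : i ≠ j) : LS e (some j) i = 2 ^ (5 * e) := by
  unfold LS rS
  rw [if_neg (by simpa using fun h' => h h'.symm)]

private theorem E10_Lge (e : ℕ) (i j : Fin d) : 2 ^ (5 * e) ≤ LS e (some j) i := by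
  by_cases h : i = j
  · subst h
    rw [E10_Lj]
    omega
  · rw [E10_Lo e h]

private theorem E10_b01 (a : Bool) : b01 a ≤ 1 := by
  unfold b01
  split_ifs <;> omega

private theorem E10_pat {e : ℕ} (u : Blk d K) (j : Option (Fin d)) (f : BxV d (NS e K) → Fin q)
    (τ : Fin d → ℕ) (hτ : ∀ i, τ i + 1 < LS e j i) :
    Wpat (LS e j) (hS e) (fD e u j f) τ = fun a b => f fun i =>
      Fin.ofNat (NS e K + 1) (aS e u i + (hS e + 2 * τ i + b01 (a i) + b01 (b i))) := by
  funext a b
  show f _ = f _
  congr 1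
  funext i
  have h1 : (Wpt (fun _ => false) (LS e j) (hS e) τ a b i).val =
      hS e + 2 * τ i + b01 (a i) + b01 (b i) := by
    have h2 := hτ i
    have h3 := E10_b01 (a i)
    have h4 := E10_b01 (b i)
    show (hS e + 2 * τ i + b01 (a i) + b01 (b i)) % (2 * (LS e j i - 1) + 2 * hS e + 1) = _
    exact Nat.mod_eq_of_lt (by omega)
  show Fin.ofNat (NS e K + 1) (aS e u i + (Wpt (fun _ => false) (LS e j) (hS e) τ a b i).val) = _
  rw [h1]

theorem fD_pat1 {e : ℕ} (he : 1 ≤ e) (u : Blk d K) (j : Fin d) (f : BxV d (NS e K) → Fin q) (hu : (u j).val + 1 < 2 ^ K)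
    (τ : Fin d → ℕ) (hτ : ∀ i, τ i + 1 < 2 ^ (5 * e)) :
    Wpat (LS e none) (hS e) (fD e u none f) τ = Wpat (LS e (some j)) (hS e) (fD e u (some j) f) τ := by
  rw [E10_pat u none f τ fun i => by rw [E10_Ln]; exact hτ i,
    E10_pat u (some j) f τ fun i => (hτ i).trans_le (E10_Lge e i j)]

private theorem E10_val {z : ZMod (2 ^ K)} (h : z.val + 1 < 2 ^ K) : (z + 1).val = z.val + 1 := by
  have h1 : (1 : ZMod (2 ^ K)).val = 1 := by
    rw [ZMod.val_one_eq_one_mod, Nat.mod_eq_of_lt (by omega)]
  rw [ZMod.val_add_of_lt (by rw [h1]; exact h), h1]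

theorem fD_pat2 {e : ℕ} (he : 1 ≤ e) (u : Blk d K) (j : Fin d) (f : BxV d (NS e K) → Fin q) (hu : (u j).val + 1 < 2 ^ K)
    (τ : Fin d → ℕ) (hτ : ∀ i, τ i + 1 < 2 ^ (5 * e)) :
    Wpat (LS e none) (hS e) (fD e (nxt u j) none f) τ =
      Wpat (LS e (some j)) (hS e) (fD e u (some j) f) (Function.update τ j (τ j + 2 ^ (5 * e))) := by
  rw [E10_pat (nxt u j) none f τ fun i => by rw [E10_Ln]; exact hτ i, E10_pat u (some j) f]
  · funext a b
    congr 1
    funext i
    congr 1
    by_cases hi : i = j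
    · subst hi
      rw [Function.update_self]
      unfold aS nxt
      rw [Function.update_self, E10_val hu]
      unfold wS
      ring
    · rw [Function.update_of_ne hi]
      unfold aS nxt
      rw [Function.update_of_ne hi]
  · intro i
    by_cases hi : i = j
    · subst hi
      rw [Function.update_self, E10_Lj]
      have := hτ i
      omega
    · rw [Function.update_of_ne hi, E10_Lo e hi]
      exact hτ i

private theorem E10_inj {S T : Type*} [Fintype S] [Fintype T] (φ : S → T) (hφ : Function.Injective φ)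
    (p : T → Prop) [DecidablePred p] (p' : S → Prop) [DecidablePred p'] (hp : ∀ x, p' x ↔ p (φ x))
    (a b : ℝ) (ha : (Fintype.card S : ℝ) = a) (hb : (Fintype.card T : ℝ) = b)
    (hT : (49 : ℝ) / 50 * b ≤ (((univ : Finset T).filter p).card : ℝ)) (ha0 : 0 ≤ a)
    (hab : b ≤ 201 / 100 * a) : (19 : ℝ) / 20 * a ≤ (((univ : Finset S).filter p').card : ℝ) := by
  classical
  have h1 : (((univ : Finset S).filter p').card : ℝ) + (((univ : Finset S).filter fun x => ¬ p' x).card : ℝ) = a := by
    rw [← ha, ← Finset.card_univ]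
    exact_mod_cast Finset.card_filter_add_card_filter_not (s := (univ : Finset S)) p'
  have h2 : (((univ : Finset T).filter p).card : ℝ) + (((univ : Finset T).filter fun x => ¬ p x).card : ℝ) = b := by
    rw [← hb, ← Finset.card_univ]
    exact_mod_cast Finset.card_filter_add_card_filter_not (s := (univ : Finset T)) p
  have h3 : (((univ : Finset S).filter fun x => ¬ p' x).card : ℝ) ≤
      (((univ : Finset T).filter fun x => ¬ p x).card : ℝ) := by
    have h4 : ((univ : Finset S).filter fun x => ¬ p' x).card ≤ ((univ : Finset T).filter fun x => ¬ p x).card := by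
      refine Finset.card_le_card_of_injOn φ ?_ hφ.injOn
      intro x hx
      have hx' := (Finset.mem_filter.1 (Finset.mem_coe.1 hx)).2
      exact Finset.mem_coe.2 (Finset.mem_filter.2 ⟨mem_univ _, fun h => hx' ((hp x).2 h)⟩)
    exact_mod_cast h4
  linarith

private theorem E10_card (m : Fin d → ℕ) (hm : ∀ i, 1 ≤ m i) :
    (Fintype.card (∀ i, Fin (nbk false (m i))) : ℝ) = ∏ i, ((m i : ℝ) - 1) := by
  rw [Fintype.card_pi]
  push_cast
  refine Finset.prod_congr rfl fun i _ => ?_
  rw [Fintype.card_fin]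
  show (((m i - 1 : ℕ)) : ℝ) = _
  rw [Nat.cast_sub (hm i), Nat.cast_one]

private theorem E10_ratio {e : ℕ} (he : 2 ≤ e) (j : Fin d) : (∏ i, ((LS e (some j) i : ℝ) - 1)) ≤
    201 / 100 * ∏ i, ((LS e (none : Option (Fin d)) i : ℝ) - 1) := by
  have hL : (1000 : ℝ) ≤ 2 ^ (5 * e) := by exact_mod_cast E10_L he
  rw [← mul_prod_erase univ (fun i => ((LS e (some j) i : ℝ) - 1)) (mem_univ j),
    ← mul_prod_erase univ (fun i => ((LS e (none : Option (Fin d)) i : ℝ) - 1)) (mem_univ j)]
  have h1 : ∏ i ∈ univ.erase j, ((LS e (some j) i : ℝ) - 1) =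
      ∏ i ∈ univ.erase j, ((LS e (none : Option (Fin d)) i : ℝ) - 1) := by
    refine Finset.prod_congr rfl fun i hi => ?_
    rw [E10_Lo e (ne_of_mem_erase hi), E10_Ln]
  rw [h1, ← mul_assoc]
  apply mul_le_mul_of_nonneg_right
  · rw [E10_Lj, E10_Ln]
    push_cast
    linarith
  · refine Finset.prod_nonneg fun i _ => ?_
    rw [E10_Ln]
    push_cast
    linarith

private theorem E10_pos {e : ℕ} (he : 2 ≤ e) :
    0 < ∏ i, ((LS e (none : Option (Fin d)) i : ℝ) - 1) := by
  have hL : (1000 : ℝ) ≤ 2 ^ (5 * e) := by exact_mod_cast E10_L he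
  refine Finset.prod_pos fun i _ => ?_
  rw [E10_Ln]
  push_cast
  linarith

private theorem E10_L1 (e : ℕ) (j : Option (Fin d)) (i : Fin d) : 1 ≤ LS e j i :=
  Nat.one_le_pow _ _ (by norm_num)

theorem dom_NGd {e : ℕ} (he : 2 ≤ e) (u : Blk d K) (j : Fin d) (h : (u j).val + 1 < 2 ^ K) (f : BxV d (NS e K) → Fin q)
    (hP : WPU (LS e (some j)) (hS e) (fD e u (some j) f)) :
    ∃ A : Finset (Fin q), A.card = q / 2 ∧ NGd e A u f ∧ NGd e A (nxt u j) f := by
  classical
  obtain ⟨A, hA, hA2⟩ := hP
  have hlt : ∀ (τ : ∀ i : Fin d, Fin (nbk false (LS e (none : Option (Fin d)) i))) (i : Fin d),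
      (τ i).val + 1 < 2 ^ (5 * e) := by
    intro τ i
    have h1 : (τ i).val < LS e (none : Option (Fin d)) i - 1 := (τ i).isLt
    have h2 := E10_Ln (d := d) e i
    omega
  refine ⟨A, hA, ?_, ?_⟩
  · unfold NGd
    have hb : ∀ (τ : ∀ i : Fin d, Fin (nbk false (LS e (none : Option (Fin d)) i))) (i : Fin d),
        (τ i).val < nbk false (LS e (some j) i) := by
      intro τ i
      have h1 := hlt τ i
      have h2 := E10_Lge e i j
      show (τ i).val < LS e (some j) i - 1
      omega
    refine E10_inj (fun τ i => ⟨(τ i).val, hb τ i⟩) ?_ _ _ ?_ _ _ (E10_card _ (E10_L1 e _))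
      (E10_card _ (E10_L1 e _)) hA2 (E10_pos he).le (E10_ratio he j)
    · intro τ τ' hh
      funext i
      have h1 := congrArg Fin.val (congrFun hh i)
      have h2 : (τ i).val = (τ' i).val := h1
      exact Fin.ext h2
    · intro τ
      have h1 := fD_pat1 (by omega) u j f h (fun i => (τ i).val) (hlt τ)
      show (GDP (Wpat (LS e none) (hS e) (fD e u none f) fun i => (τ i).val) ∧
        ALP (Wpat (LS e none) (hS e) (fD e u none f) fun i => (τ i).val) = A) ↔
        (GDP (Wpat (LS e (some j)) (hS e) (fD e u (some j) f) fun i => (τ i).val) ∧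
        ALP (Wpat (LS e (some j)) (hS e) (fD e u (some j) f) fun i => (τ i).val) = A)
      rw [h1]
  · unfold NGd
    have hb : ∀ (τ : ∀ i : Fin d, Fin (nbk false (LS e (none : Option (Fin d)) i))) (i : Fin d),
        Function.update (fun i => (τ i).val) j ((τ j).val + 2 ^ (5 * e)) i < nbk false (LS e (some j) i) := by
      intro τ i
      have h1 := hlt τ i
      show Function.update (fun i => (τ i).val) j ((τ j).val + 2 ^ (5 * e)) i < LS e (some j) i - 1
      by_cases hi : i = j
      · subst hi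
        rw [Function.update_self, E10_Lj]
        omega
      · rw [Function.update_of_ne hi, E10_Lo e hi]
        omega
    refine E10_inj (fun τ i => ⟨Function.update (fun i => (τ i).val) j ((τ j).val + 2 ^ (5 * e)) i, hb τ i⟩)
      ?_ _ _ ?_ _ _ (E10_card _ (E10_L1 e _))
      (E10_card _ (E10_L1 e _)) hA2 (E10_pos he).le (E10_ratio he j)
    · intro τ τ' hh
      funext i
      have h1 := congrArg Fin.val (congrFun hh i)
      have h2 : Function.update (fun i => (τ i).val) j ((τ j).val + 2 ^ (5 * e)) i =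
        Function.update (fun i => (τ' i).val) j ((τ' j).val + 2 ^ (5 * e)) i := h1
      by_cases hi : i = j
      · subst hi
        rw [Function.update_self, Function.update_self] at h2
        exact Fin.ext (by omega)
      · rw [Function.update_of_ne hi, Function.update_of_ne hi] at h2
        exact Fin.ext h2
    · intro τ
      have h1 := fD_pat2 (by omega) u j f h (fun i => (τ i).val) (hlt τ)
      show (GDP (Wpat (LS e none) (hS e) (fD e (nxt u j) none f) fun i => (τ i).val) ∧
        ALP (Wpat (LS e none) (hS e) (fD e (nxt u j) none f) fun i => (τ i).val) = A) ↔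
        (GDP (Wpat (LS e (some j)) (hS e) (fD e u (some j) f)
          fun i => Function.update (fun i => (τ i).val) j ((τ j).val + 2 ^ (5 * e)) i) ∧
        ALP (Wpat (LS e (some j)) (hS e) (fD e u (some j) f)
          fun i => Function.update (fun i => (τ i).val) j ((τ j).val + 2 ^ (5 * e)) i) = A)
      rw [h1]

theorem NGd_lab {e : ℕ} (he : 2 ≤ e) {A : Finset (Fin q)} {t : Blk d K} {f : BxV d (NS e K) → Fin q} (h : NGd e A t f)
    (c : Fin q) : labD e c t f ↔ c ∈ A := by
  classical
  have hpos := E10_pos (d := d) he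
  have hcard : (((univ : Finset (∀ i : Fin d, Fin (nbk false (LS e (none : Option (Fin d)) i)))).card : ℕ) : ℝ) =
      ∏ i, ((LS e (none : Option (Fin d)) i : ℝ) - 1) := by
    rw [Finset.card_univ]
    exact E10_card _ (E10_L1 e _)
  unfold NGd at h
  unfold labD
  constructor
  · intro hl
    by_contra hc
    have h1 : Disjoint ((univ : Finset (∀ i : Fin d, Fin (nbk false (LS e (none : Option (Fin d)) i)))).filter fun τ =>
        GDP (Wpat (LS e none) (hS e) (fD e t none f) fun i => (τ i).val) ∧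
        ALP (Wpat (LS e none) (hS e) (fD e t none f) fun i => (τ i).val) = A)
        (univ.filter fun τ => c ∈ ALP (Wpat (LS e none) (hS e) (fD e t none f) fun i => (τ i).val)) := by
      rw [disjoint_left]
      intro τ h2 h3
      rw [mem_filter] at h2 h3
      have h4 := h3.2
      rw [h2.2.2] at h4
      exact hc h4
    have h2 := card_le_card (subset_univ (((univ : Finset (∀ i : Fin d, Fin (nbk false
      (LS e (none : Option (Fin d)) i)))).filter fun τ =>
        GDP (Wpat (LS e none) (hS e) (fD e t none f) fun i => (τ i).val) ∧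
        ALP (Wpat (LS e none) (hS e) (fD e t none f) fun i => (τ i).val) = A) ∪
        (univ.filter fun τ => c ∈ ALP (Wpat (LS e none) (hS e) (fD e t none f) fun i => (τ i).val))))
    rw [card_union_of_disjoint h1] at h2
    have h3 := (Nat.cast_le (α := ℝ)).2 h2
    rw [Nat.cast_add, hcard] at h3
    linarith
  · intro hc
    have h2 : ((univ : Finset (∀ i : Fin d, Fin (nbk false (LS e (none : Option (Fin d)) i)))).filter fun τ =>
        GDP (Wpat (LS e none) (hS e) (fD e t none f) fun i => (τ i).val) ∧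
        ALP (Wpat (LS e none) (hS e) (fD e t none f) fun i => (τ i).val) = A) ⊆
        (univ.filter fun τ => c ∈ ALP (Wpat (LS e none) (hS e) (fD e t none f) fun i => (τ i).val)) := by
      intro τ hτ
      rw [mem_filter] at hτ ⊢
      exact ⟨hτ.1, by rw [hτ.2.2]; exact hc⟩
    have h3 := (Nat.cast_le (α := ℝ)).2 (card_le_card h2)
    linarith

theorem good_NGd {e : ℕ} (he : 2 ≤ e) (hd : 1 ≤ d) (hK : 1 ≤ K) {t : Blk d K} {f : BxV d (NS e K) → Fin q}
    (h : ¬ BADd e t f) : ∃ A : Finset (Fin q), A.card = q / 2 ∧ NGd e A t f := by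
  let j : Fin d := ⟨0, hd⟩
  have hK2 : 2 ^ 1 ≤ 2 ^ K := Nat.pow_le_pow_right (by norm_num) hK
  have hlt : (t j).val < 2 ^ K := ZMod.val_lt (t j)
  by_cases hj : (t j).val + 1 < 2 ^ K
  · have hP : WPU (LS e (some j)) (hS e) (fD e t (some j) f) := by
      by_contra hP
      exact h ⟨t, j, hj, Or.inl rfl, hP⟩
    obtain ⟨A, hA, h1, -⟩ := dom_NGd he t j hj f hP
    exact ⟨A, hA, h1⟩
  · have h1 : (1 : ZMod (2 ^ K)).val = 1 := by
      rw [ZMod.val_one_eq_one_mod, Nat.mod_eq_of_lt (by omega)]
    have hv : (t j - 1).val = (t j).val - 1 := by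
      rw [ZMod.val_sub (by rw [h1]; omega), h1]
    let u : Blk d K := Function.update t j (t j - 1)
    have huj : u j = t j - 1 := Function.update_self _ _ _
    have hnx : nxt u j = t := by
      unfold nxt
      rw [huj, sub_add_cancel]
      show Function.update (Function.update t j (t j - 1)) j (t j) = t
      rw [Function.update_idem, Function.update_eq_self]
    have hju : (u j).val + 1 < 2 ^ K := by
      rw [huj, hv]
      omega
    have hP : WPU (LS e (some j)) (hS e) (fD e u (some j) f) := by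
      by_contra hP
      exact h ⟨u, j, hju, Or.inr hnx, hP⟩
    obtain ⟨A, hA, -, h2⟩ := dom_NGd he u j hju f hP
    rw [hnx] at h2
    exact ⟨A, hA, h2⟩

theorem good_adjd {e : ℕ} (he : 2 ≤ e) {t : Blk d K} (j : Fin d) (hj : (t j).val + 1 < 2 ^ K)
    {f : BxV d (NS e K) → Fin q} (h : ¬ BADd e t f) (c : Fin q) : labD e c t f ↔ labD e c (nxt t j) f := by
  have hP : WPU (LS e (some j)) (hS e) (fD e t (some j) f) := by
    by_contra hP
    exact h ⟨t, j, hj, Or.inl rfl, hP⟩
  obtain ⟨A, -, h1, h2⟩ := dom_NGd he t j hj f hP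
  rw [NGd_lab he h1 c, NGd_lab he h2 c]

end Pool.Agent.LC
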