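import Pool.Agent.Lib_MP_2c424f_lc7.E09
import Pool.Agent.Lib_MP_2c424f_lc7.E10

/-!
# LC7 E11: two large blocks have the same label

As `COR.two_blocks` (`Lib_MP_2c424f_cor/F08.lean`): `multi` with `S` = the finset of the proper colourings of `bG d (NS ..)`, `Bad f t = BADd`,
`lab f t = labD c t f`, `r = ρ` (`badd_rare`), for `(t, t')` and each colour, and for `(t', t)` and one colour: exceptional proportion
`≤ (q+1) · 4 · 4^d ρ ≤ (d+1) 4/(1000 d) ≤ 1/100` (`q ≤ d/500`).  Then `good_NGd`, `NGd_lab`.  `e = eC C d ≥ 2` as `d^C ≤ 2^e`.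
-/

set_option autoImplicit false

open Finset Filter

namespace Pool.Agent.LC

open Pool.Agent.LO Pool.Agent.LIN Pool.Agent.THR Pool.Agent.COR

private theorem E11_aux {d q K e : ℕ} (hd10 : 10 ≤ d) (hR : Rg d q) (hK : 1 ≤ K) (he : 2 ≤ e) {ρ : ℝ}
    (hr0 : 0 ≤ ρ) (hr : 4 ^ d * ρ ≤ 1 / (1000 * (d : ℝ)))
    (hΓ : ∀ Γ : Finset (Blk d K),
      cG (bG d (NS e K)) (fun f : BxV d (NS e K) → Fin q => ∀ t ∈ Γ, BADd e t f) ≤
        cG (bG d (NS e K)) (fun _ : BxV d (NS e K) → Fin q => True) * ρ ^ Γ.card)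
    (t t' : Blk d K) :
    99 / 100 * cG (bG d (NS e K)) (fun _ : BxV d (NS e K) → Fin q => True) ≤
      cG (bG d (NS e K)) (fun f : BxV d (NS e K) → Fin q =>
        ∃ A : Finset (Fin q), A.card = q / 2 ∧ NGd e A t f ∧ NGd e A t' f) := by
  classical
  have hdR : (10 : ℝ) ≤ d := by exact_mod_cast hd10
  obtain ⟨-, hR1, hR2⟩ := hR
  have hq1 : 1 ≤ q := by omega
  have hqd : (q : ℝ) + 1 ≤ 2 * d := by
    have : q + 1 ≤ 2 * d := by omega
    exact_mod_cast this
  have hrd : 4 ^ d * ρ ≤ 1 / 10000 := by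
    refine hr.trans ?_
    exact one_div_le_one_div_of_le (by norm_num) (by linarith)
  set S : Finset (BxV d (NS e K) → Fin q) := univ.filter fun f => PrG (bG d (NS e K)) f with hS
  have hcV : ∀ P : (BxV d (NS e K) → Fin q) → Prop,
      cG (bG d (NS e K)) P = ((S.filter P).card : ℝ) := by
    intro P
    unfold cG
    rw [hS, Finset.filter_filter]
  have hZ : cG (bG d (NS e K)) (fun _ : BxV d (NS e K) → Fin q => True) = (S.card : ℝ) := by
    have h0 := hcV fun _ => True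
    rw [h0]
    congr 2
    ext f
    simp
  have H1 : ∀ Γ : Finset (Blk d K),
      ((S.filter fun f => ∀ t ∈ Γ, BADd e t f).card : ℝ) ≤ S.card * ρ ^ Γ.card := by
    intro Γ
    have h := hΓ Γ
    rw [hcV, hZ] at h
    convert h
  have HM : ∀ (c : Fin q) (u u' : Blk d K),
      ((S.filter fun f => BADd e u f ∨ ¬ (labD e c u f ↔ labD e c u' f)).card : ℝ) ≤
        S.card * (4 * (4 ^ d * ρ)) := by
    intro c u u'
    have h := multi S (by omega) (fun f u => BADd e u f) (fun f u => labD e c u f) ρ hr0 (by linarith)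
      (fun Γ => by convert H1 Γ)
      (fun f _ u j hj hb _ => good_adjd he j hj hb c) u u'
    convert h
  have c₀ : Fin q := ⟨0, by omega⟩
  set P : (BxV d (NS e K) → Fin q) → Prop := fun f =>
    ∃ A : Finset (Fin q), A.card = q / 2 ∧ NGd e A t f ∧ NGd e A t' f with hP
  have hsub : S ⊆ S.filter P ∪ ((univ.biUnion fun c : Fin q =>
      S.filter fun f => BADd e t f ∨ ¬ (labD e c t f ↔ labD e c t' f)) ∪
      S.filter fun f => BADd e t' f ∨ ¬ (labD e c₀ t' f ↔ labD e c₀ t f)) := by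
    intro f hf
    by_contra hno
    simp only [Finset.mem_union, Finset.mem_biUnion, Finset.mem_filter, Finset.mem_univ, true_and, not_or,
      not_exists, hf] at hno
    obtain ⟨hnP, h5, h6⟩ := hno
    have hb : ¬ BADd e t f := (h5 c₀).1
    have hb' : ¬ BADd e t' f := h6.1
    obtain ⟨A, hAc, hNA⟩ := good_NGd he (by omega) hK hb
    obtain ⟨A', hAc', hNA'⟩ := good_NGd he (by omega) hK hb'
    have hAA : A = A' := by
      ext c
      rw [← NGd_lab he hNA c, ← NGd_lab he hNA' c]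
      exact not_not.1 (h5 c).2
    rw [← hAA] at hNA'
    exact hnP ⟨A, hAc, hNA, hNA'⟩
  have hcard : (S.card : ℝ) ≤ ((S.filter P).card : ℝ) +
      ((∑ c : Fin q, ((S.filter fun f => BADd e t f ∨ ¬ (labD e c t f ↔ labD e c t' f)).card : ℝ)) +
        ((S.filter fun f => BADd e t' f ∨ ¬ (labD e c₀ t' f ↔ labD e c₀ t f)).card : ℝ)) := by
    have h7 := Finset.card_le_card hsub
    have h8 := h7.trans (Finset.card_union_le _ _)
    have h9 := Finset.card_union_le (univ.biUnion fun c : Fin q =>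
      S.filter fun f => BADd e t f ∨ ¬ (labD e c t f ↔ labD e c t' f))
      (S.filter fun f => BADd e t' f ∨ ¬ (labD e c₀ t' f ↔ labD e c₀ t f))
    have h10 : (univ.biUnion fun c : Fin q =>
      S.filter fun f => BADd e t f ∨ ¬ (labD e c t f ↔ labD e c t' f)).card ≤
        ∑ c : Fin q, (S.filter fun f => BADd e t f ∨ ¬ (labD e c t f ↔ labD e c t' f)).card :=
      Finset.card_biUnion_le
    have h11 : S.card ≤ (S.filter P).card +
      ((∑ c : Fin q, (S.filter fun f => BADd e t f ∨ ¬ (labD e c t f ↔ labD e c t' f)).card) +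
        (S.filter fun f => BADd e t' f ∨ ¬ (labD e c₀ t' f ↔ labD e c₀ t f)).card) := by
      omega
    exact_mod_cast h11
  have hsum : (∑ c : Fin q, ((S.filter fun f => BADd e t f ∨ ¬ (labD e c t f ↔ labD e c t' f)).card : ℝ)) ≤
      q * (S.card * (4 * (4 ^ d * ρ))) := by
    calc _ ≤ ∑ _c : Fin q, (S.card : ℝ) * (4 * (4 ^ d * ρ)) := Finset.sum_le_sum fun c _ => HM c t t'
      _ = _ := by rw [Finset.sum_const, Finset.card_univ, Fintype.card_fin, nsmul_eq_mul]
  have hlast := HM c₀ t' t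
  have hfin : ((q : ℝ) + 1) * (4 * (4 ^ d * ρ)) ≤ 1 / 100 := by
    have h12 : (0 : ℝ) ≤ 4 * (4 ^ d * ρ) := by positivity
    calc ((q : ℝ) + 1) * (4 * (4 ^ d * ρ)) ≤ (2 * d) * (4 * (4 ^ d * ρ)) :=
          mul_le_mul_of_nonneg_right hqd h12
      _ ≤ (2 * d) * (4 * (1 / (1000 * (d : ℝ)))) := by gcongr
      _ = 8 / 1000 := by
          have : (d : ℝ) ≠ 0 := by linarith
          field_simp
          norm_num
      _ ≤ 1 / 100 := by norm_num
  have hS0 : (0 : ℝ) ≤ S.card := Nat.cast_nonneg _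
  have h15 := hcard.trans (add_le_add_right (add_le_add hsum hlast) _)
  have h13 := mul_le_mul_of_nonneg_left hfin hS0
  have h14 : (S.card : ℝ) * (((q : ℝ) + 1) * (4 * (4 ^ d * ρ))) =
      q * (S.card * (4 * (4 ^ d * ρ))) + S.card * (4 * (4 ^ d * ρ)) := by ring
  have h16 : 99 / 100 * (S.card : ℝ) ≤ ((S.filter P).card : ℝ) := by linarith
  rw [hZ, hcV]
  convert h16

theorem two_large : ∃ C d₀ : ℕ, 2 ≤ C ∧ ∀ d q : ℕ, d₀ ≤ d → Rg d q → ∀ K : ℕ, 1 ≤ K → ∀ t t' : Blk d K,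
    99 / 100 * cG (bG d (NS (eC C d) K)) (fun _ : BxV d (NS (eC C d) K) → Fin q => True) ≤
      cG (bG d (NS (eC C d) K)) (fun f : BxV d (NS (eC C d) K) → Fin q =>
        ∃ A : Finset (Fin q), A.card = q / 2 ∧ NGd (eC C d) A t f ∧ NGd (eC C d) A t' f) := by
  obtain ⟨C, d₁, hC, h₁⟩ := badd_rare
  refine ⟨C, max 10 d₁, hC, fun d q hd hR K hK t t' => ?_⟩
  have hd10 : 10 ≤ d := le_trans (le_max_left _ _) hd
  have hd1 : d₁ ≤ d := le_trans (le_max_right _ _) hd
  obtain ⟨ρ, hρ0, hρ, hΓ⟩ := h₁ d q hd1 hR K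
  have he : 2 ≤ eC C d := by
    by_contra hcon
    have h1 : d ^ C ≤ 2 ^ eC C d := Nat.le_pow_clog one_lt_two _
    have h2 : 2 ^ eC C d ≤ 2 ^ 1 := Nat.pow_le_pow_right (by norm_num) (by omega)
    have h3 : d ^ 2 ≤ d ^ C := Nat.pow_le_pow_right (by omega) hC
    nlinarith
  exact E11_aux hd10 hR hK he hρ0 hρ hΓ t t'

end Pool.Agent.LC
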