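import Pool.Agent.Lib_MP_2c424f_lc7.E02
import Pool.Agent.Lib_MP_2c424f_lc7.E10

/-!
# LC7 E12: equal colours in two large blocks

Let `T` be the set of the triples `(τ, a, b)`, `τ` a block of the large block, `od a b`; `x(τ, a, b) = plc .. (Wpt .. τ a b)`.  For `f` with `NGd A t f`, `NGd A t' f`:
for `c ∉ A` the proportion of the triples of `t` with colour `c` is at least `19/20 (1 + m - η)/q ≥ 1.89/q` (`not_ALP`: `frq false none c ≥ 1 + m - η`; all blocks
have the same number `|oS none|` of odd pairs).  So the proportion of the pairs of triples with equal colours is at least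
`∑_{c ∉ A} (1.89/q)² ≥ (q/2) 3.57/q² ≥ 1.78/q`.
-/

set_option autoImplicit false

open Finset Filter

namespace Pool.Agent.LC

open Pool.Agent.LO Pool.Agent.LIN Pool.Agent.THR Pool.Agent.COR

variable {d q K : ℕ}

open scoped Classical in
/-- the triples -/
noncomputable def TT (d e : ℕ) : Finset ((∀ i : Fin d, Fin (nbk false (LS e (none : Option (Fin d)) i))) × Bt d × Bt d) :=
  univ.filter fun p => od p.2.1 p.2.2

/-- the site of a triple -/
def xT (e : ℕ) (t : Blk d K) (p : (∀ i : Fin d, Fin (nbk false (LS e (none : Option (Fin d)) i))) × Bt d × Bt d) : BxV d (NS e K) :=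
  plc (aS e t) (fun i => lm false (LS e (none : Option (Fin d)) i) (hS e))
    (Wpt (fun _ => false) (LS e none) (hS e) (fun i => (p.1 i).val) p.2.1 p.2.2)

open scoped Classical in
/-- number of the odd points of a pattern with the colour `c` -/
private noncomputable def E12_n {d q : ℕ} (g : Pat d q) (c : Fin q) : ℕ :=
  ((oS (none : Shp d)).filter fun p => g p.1 p.2 = c).card

open scoped Classical in
private theorem E12_frq {d q : ℕ} (hq : 0 < q) (g : Pat d q) (c : Fin q) (y : ℝ) (h : y ≤ frq false none c g) :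
    y / q * ((oS (none : Shp d)).card : ℝ) ≤ (E12_n g c : ℝ) := by
  have hq' : (0 : ℝ) < q := by exact_mod_cast hq
  have hs : (∑ p ∈ oS (none : Shp d), if g p.1 p.2 = c then (q : ℝ) else 0) = (E12_n g c : ℝ) * q := by
    unfold E12_n
    rw [← Finset.sum_filter, Finset.sum_const, nsmul_eq_mul]
  have hf : frq false none c g = (E12_n g c : ℝ) * q / ((oS (none : Shp d)).card : ℝ) := by
    unfold frq
    simp only [Bool.false_eq_true, if_false]
    rw [hs]
  rcases Nat.eq_zero_or_pos (oS (none : Shp d)).card with h0 | h0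
  · rw [h0]
    simp
  · have h0' : (0 : ℝ) < ((oS (none : Shp d)).card : ℝ) := by exact_mod_cast h0
    rw [hf, le_div_iff₀ h0'] at h
    rw [div_mul_eq_mul_div, div_le_iff₀ hq']
    exact h

open scoped Classical in
private theorem E12_TT (e : ℕ) (P : ((∀ i : Fin d, Fin (nbk false (LS e (none : Option (Fin d)) i))) × Bt d × Bt d) → Prop)
    [DecidablePred P] :
    ((TT d e).filter P).card = ∑ τ : ∀ i : Fin d, Fin (nbk false (LS e (none : Option (Fin d)) i)),
      ((oS (none : Shp d)).filter fun p => P (τ, p)).card := by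
  unfold TT
  rw [Finset.filter_filter, Finset.card_filter, Fintype.sum_prod_type]
  refine Finset.sum_congr rfl fun τ _ => ?_
  unfold oS
  rw [Finset.filter_filter, Finset.card_filter]
  refine Finset.sum_congr rfl fun p _ => ?_
  simp only [inS, and_true]

open scoped Classical in
private theorem E12_TTc (e : ℕ) :
    ((TT d e).card : ℝ) = (∏ i : Fin d, ((LS e (none : Option (Fin d)) i : ℝ) - 1)) * ((oS (none : Shp d)).card : ℝ) := by
  have h := E12_TT (d := d) e fun _ => True
  rw [Finset.filter_true] at h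
  rw [h]
  have h1 : ∀ τ : ∀ i : Fin d, Fin (nbk false (LS e (none : Option (Fin d)) i)),
      ((oS (none : Shp d)).filter fun _ => True).card = (oS (none : Shp d)).card := fun τ => by
    rw [Finset.filter_true]
  rw [Finset.sum_congr rfl fun τ _ => h1 τ, Finset.sum_const, Finset.card_univ, Fintype.card_pi]
  push_cast [nsmul_eq_mul]
  congr 1
  refine Finset.prod_congr rfl fun i _ => ?_
  rw [Fintype.card_fin]
  unfold nbk
  simp only [Bool.false_eq_true, if_false]
  rw [Nat.cast_sub]
  · simp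
  · unfold LS
    exact Nat.one_le_two_pow

open scoped Classical in
private theorem E12_low {e : ℕ} (hR : Rg d q) (hd : 1 ≤ d) (t : Blk d K) (f : BxV d (NS e K) → Fin q)
    (A : Finset (Fin q)) (h : NGd e A t f) (c : Fin q) (hc : c ∉ A) :
    (189 : ℝ) / 100 / q * ((TT d e).card : ℝ) ≤ (((TT d e).filter fun p => f (xT e t p) = c).card : ℝ) := by
  have hq : 0 < q := lt_of_lt_of_le (by norm_num) (Rg_pos hR hd)
  have hq' : (0 : ℝ) < q := by exact_mod_cast hq
  have hm := (ms_ge hR hd).1
  set G : Finset (∀ i : Fin d, Fin (nbk false (LS e (none : Option (Fin d)) i))) :=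
    univ.filter fun τ => GDP (Wpat (LS e none) (hS e) (fD e t none f) fun i => (τ i).val) ∧
        ALP (Wpat (LS e none) (hS e) (fD e t none f) fun i => (τ i).val) = A with hG
  set P : ℝ := ∏ i : Fin d, ((LS e (none : Option (Fin d)) i : ℝ) - 1) with hP
  have hNG : (19 : ℝ) / 20 * P ≤ (G.card : ℝ) := h
  set o : ℝ := ((oS (none : Shp d)).card : ℝ) with ho
  have ho0 : 0 ≤ o := Nat.cast_nonneg _
  have h1 : ∀ τ ∈ G, (1997 : ℝ) / 1000 / q * o ≤
      (E12_n (Wpat (LS e none) (hS e) (fD e t none f) fun i => (τ i).val) c : ℝ) := by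
    intro τ hτ
    rw [hG, Finset.mem_filter] at hτ
    obtain ⟨-, hg, hA⟩ := hτ
    refine E12_frq hq _ c _ ?_
    have h2 := (not_ALP _ hg.1 c (by rw [hA]; exact hc) none).1
    simp only [Bool.not_true] at h2
    rw [abs_le] at h2
    unfold et at h2
    linarith [h2.1]
  have h3 : (((TT d e).filter fun p => f (xT e t p) = c).card : ℝ) =
      ∑ τ : ∀ i : Fin d, Fin (nbk false (LS e (none : Option (Fin d)) i)),
        (E12_n (Wpat (LS e none) (hS e) (fD e t none f) fun i => (τ i).val) c : ℝ) := by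
    rw [E12_TT]
    push_cast
    rfl
  rw [h3, E12_TTc]
  calc (189 : ℝ) / 100 / q * (P * o) ≤ (19 / 20 * P) * ((1997 : ℝ) / 1000 / q * o) := by
        have hP0 : 0 ≤ P := Finset.prod_nonneg fun i _ => by
          have : (1 : ℝ) ≤ (LS e (none : Option (Fin d)) i : ℝ) := by
            have : 1 ≤ LS e (none : Option (Fin d)) i := Nat.one_le_two_pow
            exact_mod_cast this
          linarith
        have h4 : (189 : ℝ) / 100 / q * (P * o) = (189 / 100) * (P * o / q) := by ring
        have h5 : (19 / 20 * P) * ((1997 : ℝ) / 1000 / q * o) = (19 / 20 * (1997 / 1000)) * (P * o / q) := by ring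
        rw [h4, h5]
        have h6 : 0 ≤ P * o / q := by positivity
        nlinarith
    _ ≤ (G.card : ℝ) * ((1997 : ℝ) / 1000 / q * o) := mul_le_mul_of_nonneg_right hNG (by positivity)
    _ = ∑ τ ∈ G, (1997 : ℝ) / 1000 / q * o := by rw [Finset.sum_const, nsmul_eq_mul]
    _ ≤ ∑ τ ∈ G, (E12_n (Wpat (LS e none) (hS e) (fD e t none f) fun i => (τ i).val) c : ℝ) :=
        Finset.sum_le_sum h1
    _ ≤ _ := Finset.sum_le_sum_of_subset_of_nonneg (Finset.subset_univ _) fun _ _ _ => Nat.cast_nonneg _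

open scoped Classical in
private theorem E12_pairs {α : Type} (S : Finset α) (u v : α → Fin q) :
    (((S ×ˢ S).filter fun p => u p.1 = v p.2).card : ℝ) =
      ∑ c : Fin q, ((S.filter fun p => u p = c).card : ℝ) * ((S.filter fun p => v p = c).card : ℝ) := by
  have h : ((S ×ˢ S).filter fun p => u p.1 = v p.2).card =
      ∑ c : Fin q, (((S ×ˢ S).filter fun p => u p.1 = v p.2).filter fun p => u p.1 = c).card :=
    Finset.card_eq_sum_card_fiberwise (fun _ _ => Finset.mem_coe.2 (Finset.mem_univ _))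
  rw [h]
  push_cast
  refine Finset.sum_congr rfl fun c _ => ?_
  rw [← Nat.cast_mul, ← Finset.card_product]
  congr 2
  ext p
  simp only [Finset.mem_filter, Finset.mem_product]
  constructor
  · rintro ⟨⟨⟨h1, h2⟩, h3⟩, h4⟩
    exact ⟨⟨h1, h4⟩, h2, by rw [← h3]; exact h4⟩
  · rintro ⟨⟨h1, h2⟩, h3, h4⟩
    exact ⟨⟨⟨h1, h3⟩, by rw [h2, h4]⟩, h2⟩

open scoped Classical in
theorem equal_cols {e : ℕ} (he : 2 ≤ e) (hR : Rg d q) (hd : 1 ≤ d) (t t' : Blk d K) (f : BxV d (NS e K) → Fin q)
    (A : Finset (Fin q)) (hA : A.card = q / 2) (h : NGd e A t f) (h' : NGd e A t' f) :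
    (17 : ℝ) / 10 * ((TT d e).card : ℝ) ^ 2 ≤
      q * (((TT d e ×ˢ TT d e).filter fun p => f (xT e t p.1) = f (xT e t' p.2)).card : ℝ) := by
  have hq : 0 < q := lt_of_lt_of_le (by norm_num) (Rg_pos hR hd)
  have hq' : (0 : ℝ) < q := by exact_mod_cast hq
  rw [E12_pairs (TT d e) (fun p => f (xT e t p)) (fun p => f (xT e t' p))]
  set N : ℝ := ((TT d e).card : ℝ) with hN
  have hN0 : 0 ≤ N := Nat.cast_nonneg _
  have h1 : ∑ c ∈ univ.filter (fun c => c ∉ A), ((189 : ℝ) / 100 / q * N) * ((189 : ℝ) / 100 / q * N) ≤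
      ∑ c : Fin q, (((TT d e).filter fun p => f (xT e t p) = c).card : ℝ) *
        (((TT d e).filter fun p => f (xT e t' p) = c).card : ℝ) := by
    refine le_trans (Finset.sum_le_sum fun c hc => ?_)
      (Finset.sum_le_sum_of_subset_of_nonneg (Finset.subset_univ _) fun _ _ _ => by positivity)
    rw [Finset.mem_filter] at hc
    exact mul_le_mul (E12_low hR hd t f A h c hc.2) (E12_low hR hd t' f A h' c hc.2) (by positivity) (by positivity)
  have h2 : (q : ℝ) / 2 ≤ ((univ.filter (fun c => c ∉ A)).card : ℝ) := by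
    have h3 : (univ.filter (fun c => c ∉ A)) = Aᶜ := by
      ext c
      simp
    rw [h3, Finset.card_compl, Fintype.card_fin, hA]
    have h4 : q ≤ 2 * (q - q / 2) := by omega
    have h5 : (q : ℝ) ≤ 2 * ((q - q / 2 : ℕ) : ℝ) := by exact_mod_cast h4
    linarith
  rw [Finset.sum_const, nsmul_eq_mul] at h1
  have h6 : (0 : ℝ) ≤ ((189 : ℝ) / 100 / q * N) * ((189 : ℝ) / 100 / q * N) := by positivity
  have h7 := (mul_le_mul_of_nonneg_right h2 h6).trans h1
  have h8 : (q : ℝ) / 2 * (((189 : ℝ) / 100 / q * N) * ((189 : ℝ) / 100 / q * N)) = (35721 / 20000) * N ^ 2 / q := by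
    field_simp
    ring
  rw [h8, div_le_iff₀ hq'] at h7
  nlinarith [sq_nonneg N]

end Pool.Agent.LC
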