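import Pool.Agent.Lib_MP_2c424f_lc7.E11
import Pool.Agent.Lib_MP_2c424f_lc7.E12
import Pool.Agent.Lib_MP_2c424f_cor.K04
import Pool.Agent.Lib_MP_2c424f_lc6a.A4

/-!
# LC7 E13: two correlated sites near the corners

`t = 0`, `t' = fun _ => -1` (`val = 2^K - 1`).  Sum of `equal_cols` over the `f` of `two_large`: the mean over the pairs of triples of
`q cG (f x = f y)` is at least `1.7 · 0.99 cG True ≥ 1.5 cG True`; choose a pair with at least the mean (`TT` is nonempty for `d ≥ 1`).  Both sites are odd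
(`aS`, `off = s` are even), `WK_same`: `WK = q cG (f x = f y) - cG True ≥ cG True / 2`.  `Par (bG d N) bev` is `bG_par` of
`Lib_MP_2c424f_lc6a/A4.lean`.
Coordinates: `x i ≤ 2 h + s + w`, `y i ≥ 2 h + 2 + s + w (2^K - 1)`, `h = s = hS e`.
-/

set_option autoImplicit false

open Finset Filter

namespace Pool.Agent.LC

open Pool.Agent.LO Pool.Agent.LIN Pool.Agent.THR Pool.Agent.COR

/-- coordinates of the site of a triple -/
private theorem e13_val {d K : ℕ} {e : ℕ} (t : Blk d K)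
    (p : (∀ i : Fin d, Fin (nbk false (LS e (none : Option (Fin d)) i))) × Bt d × Bt d) (i : Fin d) :
    ((xT e t p i).val = 3 * hS e + 2 + wS e * (t i).val + 2 * (p.1 i).val + b01 (p.2.1 i) + b01 (p.2.2 i)) ∧
      2 * (p.1 i).val + 4 ≤ wS e := by
  have hL : LS e (none : Option (Fin d)) i = 2 ^ (5 * e) := by
    unfold LS rS
    simp
  have hτ : (p.1 i).val < 2 ^ (5 * e) - 1 := by
    have h : (p.1 i).val < nbk false (LS e (none : Option (Fin d)) i) := (p.1 i).isLt
    have hn : nbk false (LS e (none : Option (Fin d)) i) = 2 ^ (5 * e) - 1 := by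
      rw [hL]
      unfold nbk
      simp
    omega
  have hw : wS e = 2 * 2 ^ (5 * e) := rfl
  have ha : b01 (p.2.1 i) ≤ 1 := by unfold b01; split_ifs <;> omega
  have hb : b01 (p.2.2 i) ≤ 1 := by unfold b01; split_ifs <;> omega
  have ht : (t i).val + 1 ≤ 2 ^ K := by
    have : NeZero (2 ^ K) := ⟨by positivity⟩
    exact ZMod.val_lt (t i)
  have h2 : wS e * ((t i).val + 1) ≤ wS e * 2 ^ K := Nat.mul_le_mul_left _ ht
  refine ⟨?_, by omega⟩
  have hlm : lm false (LS e (none : Option (Fin d)) i) (hS e) = 2 * (2 ^ (5 * e) - 1) + 2 * hS e := by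
    unfold lm
    rw [hL]
    simp
  have h3 : (Wpt (fun _ : Fin d => false) (LS e none) (hS e) (fun i => (p.1 i).val) p.2.1 p.2.2 i).val =
      hS e + 2 * (p.1 i).val + b01 (p.2.1 i) + b01 (p.2.2 i) := by
    unfold Wpt
    rw [Fin.val_ofNat]
    have h4 : off false (hS e) = hS e := by
      unfold off
      simp
    have h5 : (fun j : Fin d => (p.1 j).val) i = (p.1 i).val := rfl
    rw [h4, h5, hlm]
    apply Nat.mod_eq_of_lt
    omega
  unfold xT plc
  rw [Fin.val_ofNat, h3]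
  unfold aS
  rw [Nat.mod_eq_of_lt]
  · ring
  · unfold NS
    rw [mul_add, mul_one] at h2
    omega

/-- the site of an odd triple is odd -/
private theorem e13_odd {d K : ℕ} {e : ℕ} (he : 1 ≤ e) (t : Blk d K)
    (p : (∀ i : Fin d, Fin (nbk false (LS e (none : Option (Fin d)) i))) × Bt d × Bt d) (hp : od p.2.1 p.2.2) :
    ¬ bev (xT e t p) := by
  classical
  unfold bev
  rw [Nat.not_even_iff_odd]
  have h1 : ∀ i, (xT e t p i).val =
      2 * (3 * (hS e / 2) + 1 + 2 ^ (5 * e) * (t i).val + (p.1 i).val) + (b01 (p.2.1 i) + b01 (p.2.2 i)) := by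
    intro i
    have hh : hS e = 2 * (hS e / 2) := by
      have h4 : 2 ∣ hS e := by
        unfold hS
        exact dvd_pow (by norm_num) (by omega)
      omega
    rw [(e13_val t p i).1]
    unfold wS
    nth_rewrite 1 [hh]
    ring
  have h2 : ∑ i, (xT e t p i).val =
      2 * (∑ i, (3 * (hS e / 2) + 1 + 2 ^ (5 * e) * (t i).val + (p.1 i).val)) +
        ∑ i, (b01 (p.2.1 i) + b01 (p.2.2 i)) := by
    rw [Finset.mul_sum, ← Finset.sum_add_distrib]
    exact Finset.sum_congr rfl fun i _ => h1 i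
  have h3 : ∀ i, b01 (p.2.1 i) + b01 (p.2.2 i) =
      2 * (if p.2.1 i = true ∧ p.2.2 i = true then 1 else 0) + (if p.2.1 i ≠ p.2.2 i then 1 else 0) := by
    intro i
    unfold b01
    cases p.2.1 i <;> cases p.2.2 i <;> simp
  have h4 : ∑ i, (b01 (p.2.1 i) + b01 (p.2.2 i)) =
      2 * (∑ i, (if p.2.1 i = true ∧ p.2.2 i = true then 1 else 0)) +
        (univ.filter fun i => p.2.1 i ≠ p.2.2 i).card := by
    rw [Finset.card_filter, Finset.mul_sum, ← Finset.sum_add_distrib]
    exact Finset.sum_congr rfl fun i _ => h3 i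
  rw [h2, h4]
  unfold od at hp
  have h5 : Even (2 * (∑ i, (3 * (hS e / 2) + 1 + 2 ^ (5 * e) * (t i).val + (p.1 i).val))) := even_two_mul _
  have h6 : Even (2 * (∑ i, (if p.2.1 i = true ∧ p.2.2 i = true then 1 else 0))) := even_two_mul _
  exact h5.add_odd (h6.add_odd hp)

/-- there are odd triples -/
private theorem e13_ne {d e : ℕ} (hd : 1 ≤ d) (he : 1 ≤ e) : (TT d e).Nonempty := by
  classical
  have h1 : ∀ i : Fin d, 0 < nbk false (LS e (none : Option (Fin d)) i) := by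
    intro i
    have hL : LS e (none : Option (Fin d)) i = 2 ^ (5 * e) := by
      unfold LS rS
      simp
    unfold nbk
    rw [hL]
    have h2 : 2 ^ 1 ≤ 2 ^ (5 * e) := Nat.pow_le_pow_right (by norm_num) (by omega)
    simp only [Bool.false_eq_true, if_false]
    omega
  refine ⟨(fun i => ⟨0, h1 i⟩, fun _ => false, fun i => decide (i = ⟨0, hd⟩)), ?_⟩
  unfold TT
  rw [mem_filter]
  refine ⟨mem_univ _, ?_⟩
  unfold od
  have h2 : (univ.filter fun i : Fin d => (false : Bool) ≠ decide (i = ⟨0, hd⟩)) = {⟨0, hd⟩} := by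
    ext i
    simp
  rw [h2]
  simp

open scoped Classical in
/-- averaging over the pairs -/
private theorem e13_mean {W P : Type} [Fintype W] [DecidableEq W] {q : ℕ} (G : SimpleGraph W) (T : Finset P)
    (hT : T.Nonempty) (x y : P → W) (good : (W → Fin q) → Prop)
    (h1 : 99 / 100 * cG G (fun _ : W → Fin q => True) ≤ cG G good)
    (h2 : ∀ f, good f → (17 : ℝ) / 10 * (T.card : ℝ) ^ 2 ≤ q * (((T ×ˢ T).filter fun p => f (x p.1) = f (y p.2)).card : ℝ)) :
    ∃ p ∈ T ×ˢ T, 3 / 2 * cG G (fun _ : W → Fin q => True) ≤ q * cG G (fun f : W → Fin q => f (x p.1) = f (y p.2)) := by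
  by_contra hcon
  push Not at hcon
  have hZ0 : 0 ≤ cG G (fun _ : W → Fin q => True) := by
    unfold cG
    positivity
  have hTc : (0 : ℝ) < T.card := by
    exact_mod_cast Finset.card_pos.2 hT
  have hTT : (T ×ˢ T).Nonempty := hT.product hT
  have h3 : ∑ p ∈ T ×ˢ T, q * cG G (fun f : W → Fin q => f (x p.1) = f (y p.2)) <
      ∑ _p ∈ T ×ˢ T, 3 / 2 * cG G (fun _ : W → Fin q => True) :=
    Finset.sum_lt_sum_of_nonempty hTT hcon
  rw [Finset.sum_const, Finset.card_product, nsmul_eq_mul, Nat.cast_mul] at h3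
  have h4 : ∀ p ∈ T ×ˢ T, cG G (fun f : W → Fin q => f (x p.1) = f (y p.2)) =
      ∑ f ∈ univ.filter (fun f : W → Fin q => PrG G f), if f (x p.1) = f (y p.2) then (1 : ℝ) else 0 := by
    intro p _
    unfold cG
    rw [← Finset.natCast_card_filter, Finset.filter_filter]
    refine congrArg (fun S : Finset (W → Fin q) => (S.card : ℝ)) ?_
    ext f
    simp only [mem_filter, mem_univ, true_and]
  have h5 : ∑ p ∈ T ×ˢ T, q * cG G (fun f : W → Fin q => f (x p.1) = f (y p.2)) =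
      ∑ f ∈ univ.filter (fun f : W → Fin q => PrG G f),
        q * (((T ×ˢ T).filter fun p => f (x p.1) = f (y p.2)).card : ℝ) := by
    rw [← Finset.mul_sum, Finset.sum_congr rfl h4, Finset.sum_comm, Finset.mul_sum]
    refine Finset.sum_congr rfl fun f _ => ?_
    rw [Finset.natCast_card_filter]
  have h6 : (17 : ℝ) / 10 * (T.card : ℝ) ^ 2 * cG G good ≤
      ∑ f ∈ univ.filter (fun f : W → Fin q => PrG G f),
        q * (((T ×ˢ T).filter fun p => f (x p.1) = f (y p.2)).card : ℝ) := by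
    have h7 : (17 : ℝ) / 10 * (T.card : ℝ) ^ 2 * cG G good =
        ∑ f ∈ (univ.filter (fun f : W → Fin q => PrG G f)).filter good, (17 : ℝ) / 10 * (T.card : ℝ) ^ 2 := by
      rw [Finset.sum_const, nsmul_eq_mul, Finset.filter_filter]
      unfold cG
      ring
    rw [h7]
    refine (Finset.sum_le_sum fun f hf => h2 f (mem_filter.1 hf).2).trans ?_
    refine Finset.sum_le_sum_of_subset_of_nonneg (Finset.filter_subset _ _) fun f _ _ => ?_
    positivity
  rw [h5] at h3
  have h8 : (0 : ℝ) < (T.card : ℝ) ^ 2 := by positivity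
  have h9 : (17 : ℝ) / 10 * (T.card : ℝ) ^ 2 * (99 / 100 * cG G (fun _ : W → Fin q => True)) ≤
      (17 : ℝ) / 10 * (T.card : ℝ) ^ 2 * cG G good :=
    mul_le_mul_of_nonneg_left h1 (by positivity)
  have h10 : (T.card : ℝ) ^ 2 * (3 / 2 * cG G (fun _ : W → Fin q => True)) ≤
      (17 : ℝ) / 10 * (T.card : ℝ) ^ 2 * (99 / 100 * cG G (fun _ : W → Fin q => True)) := by
    nlinarith [mul_nonneg h8.le hZ0]
  have h11 : (T.card : ℝ) * (T.card : ℝ) * (3 / 2 * cG G (fun _ : W → Fin q => True)) =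
      (T.card : ℝ) ^ 2 * (3 / 2 * cG G (fun _ : W → Fin q => True)) := by ring
  linarith

theorem corr_large : ∃ C d₀ : ℕ, 2 ≤ C ∧ ∀ d q : ℕ, d₀ ≤ d → Rg d q → ∀ K : ℕ, 1 ≤ K →
    ∃ x y : BxV d (NS (eC C d) K), (∀ i, (x i).val ≤ 3 * hS (eC C d) + wS (eC C d)) ∧
      (∀ i, NS (eC C d) K ≤ (y i).val + 3 * hS (eC C d) + wS (eC C d)) ∧
      cG (bG d (NS (eC C d) K)) (fun _ : BxV d (NS (eC C d) K) → Fin q => True) / 2 ≤ WK q (bG d (NS (eC C d) K)) x y := by
  classical
  obtain ⟨C, d₀, hC, H⟩ := two_large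
  refine ⟨C, max d₀ 2, hC, fun d q hd hR K hK => ?_⟩
  have hd0 : d₀ ≤ d := le_trans (le_max_left _ _) hd
  have hd2 : 2 ≤ d := le_trans (le_max_right _ _) hd
  have he : 2 ≤ eC C d := by
    have h1 : 2 ^ 2 ≤ d ^ C := (Nat.pow_le_pow_left hd2 2).trans (Nat.pow_le_pow_right (by omega) hC)
    have h2 : Nat.clog 2 (2 ^ 2) ≤ Nat.clog 2 (d ^ C) := Nat.clog_mono_right 2 h1
    rwa [Nat.clog_pow 2 2 (by norm_num)] at h2
  have h1 := H d q hd0 hR K hK (fun _ => 0) (fun _ => -1)
  generalize eC C d = e at he h1 ⊢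
  have h2 : ∀ f : BxV d (NS e K) → Fin q,
      (∃ A : Finset (Fin q), A.card = q / 2 ∧ NGd e A (fun _ => 0 : Blk d K) f ∧ NGd e A (fun _ => -1 : Blk d K) f) →
      (17 : ℝ) / 10 * ((TT d e).card : ℝ) ^ 2 ≤
        q * (((TT d e ×ˢ TT d e).filter fun p => f (xT e (fun _ => 0 : Blk d K) p.1) =
          f (xT e (fun _ => -1 : Blk d K) p.2)).card : ℝ) := by
    rintro f ⟨A, hA, hn, hn'⟩
    exact equal_cols he hR (by omega) (fun _ => 0 : Blk d K) (fun _ => -1 : Blk d K) f A hA hn hn'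
  obtain ⟨p, hp, hp2⟩ := e13_mean (bG d (NS e K)) (TT d e) (e13_ne (by omega) (by omega))
    (xT e (fun _ => 0 : Blk d K)) (xT e (fun _ => -1 : Blk d K)) _ h1 h2
  rw [mem_product] at hp
  have hp1 : od p.1.2.1 p.1.2.2 := by
    have h4 := hp.1
    unfold TT at h4
    exact (mem_filter.1 h4).2
  have hp1' : od p.2.2.1 p.2.2.2 := by
    have h4 := hp.2
    unfold TT at h4
    exact (mem_filter.1 h4).2
  refine ⟨xT e (fun _ => 0 : Blk d K) p.1, xT e (fun _ => -1 : Blk d K) p.2, ?_, ?_, ?_⟩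
  · intro i
    have h4 := e13_val (fun _ => 0 : Blk d K) p.1 i
    have ha : b01 (p.1.2.1 i) ≤ 1 := by unfold b01; split_ifs <;> omega
    have hb : b01 (p.1.2.2 i) ≤ 1 := by unfold b01; split_ifs <;> omega
    have hz : (0 : ZMod (2 ^ K)).val = 0 := ZMod.val_zero
    rw [h4.1, hz, mul_zero]
    omega
  · intro i
    have h4 := e13_val (fun _ => -1 : Blk d K) p.2 i
    have hz : (-1 : ZMod (2 ^ K)).val + 1 = 2 ^ K := by
      have h5 : 2 ^ K = (2 ^ K - 1).succ := by
        have : 0 < 2 ^ K := by positivity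
        omega
      have h6 := ZMod.val_neg_one (2 ^ K - 1)
      rw [← h5] at h6
      omega
    have h7 : wS e * ((-1 : ZMod (2 ^ K)).val + 1) = wS e * 2 ^ K := by rw [hz]
    rw [mul_add, mul_one] at h7
    rw [h4.1]
    unfold NS
    omega
  · rw [WK_same (bG_par d (NS e K))
      (iff_of_false (e13_odd (by omega) _ p.1 hp1) (e13_odd (by omega) _ p.2 hp1'))]
    linarith

end Pool.Agent.LC
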