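import Pool.Agent.Lib_MP_2c424f_lc7.Defs
import Pool.Agent.Lib_MP_2c424f_cor.K04
import Pool.Agent.Lib_MP_2c424f_cor.K06

/-!
# LC7 E14: paths in the box and the Harnack inequality

* `bG_deg`: at most `2 d` neighbours.
* `path_low`: from `0` to `x` inside `∏ [0, x i]`, `∑ x i ≤ d M` steps; `path_high`: from the corner `(N, …, N)` to `y` inside `∏ [y i, N]` (increase or decrease the
  coordinates one after the other).
* `harn`: `x`, `y` with `x i < y j` for all `i, j` (so the two regions are disjoint; `d ≥ 1`): `harnack_path` along the reversed path from `0` to `x` (avoids `y`), then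
  (`WK_symm`) from the corner to `y` (avoids `0`: `y i > 0`): `WK x y ≤ (1 + q 4^d)^(m) WK 0 y ≤ (1 + q 4^d)^(m + m') WK (corner) 0`; `m, m' ≤ d M`.
  (`1 ≤ 1 + q 4^d`, so the exponents may be increased; `WK_nonneg`.)
-/

set_option autoImplicit false

open Finset Filter

namespace Pool.Agent.LC

open Pool.Agent.LO Pool.Agent.LIN Pool.Agent.THR Pool.Agent.COR

private theorem E14_sum {d N : ℕ} (x y : BxV d N) (i : Fin d) (h : ∀ j, j ≠ i → x j = y j) :
    (∑ j, (x j).val) + (y i).val = (∑ j, (y j).val) + (x i).val := by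
  have h1 : ∑ j, (x j).val = (x i).val + ∑ j ∈ univ.erase i, (x j).val :=
    (add_sum_erase univ (fun j => (x j).val) (mem_univ i)).symm
  have h2 : ∑ j, (y j).val = (y i).val + ∑ j ∈ univ.erase i, (y j).val :=
    (add_sum_erase univ (fun j => (y j).val) (mem_univ i)).symm
  have h3 : ∑ j ∈ univ.erase i, (x j).val = ∑ j ∈ univ.erase i, (y j).val := by
    refine sum_congr rfl fun j hj => ?_
    rw [h j (ne_of_mem_erase hj)]
  rw [h1, h2, h3]
  omega

theorem bG_par' (d l : ℕ) : Par (bG d l) bev := by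
  rintro x y ⟨i, h, h'⟩
  have hs := E14_sum x y i h
  unfold bev
  rw [Nat.even_iff, Nat.even_iff]
  rcases h' with h' | h' <;> omega

open scoped Classical in
theorem bG_deg (d l : ℕ) (v : BxV d l) : (univ.filter fun x => (bG d l).Adj v x).card ≤ 2 * d := by
  have hsub : (univ.filter fun x => (bG d l).Adj v x) ⊆ (univ : Finset (Fin d × Bool)).image fun p =>
      Function.update v p.1 (if p.2 then (⟨min ((v p.1).val + 1) l, by omega⟩ : Fin (l + 1))
        else ⟨(v p.1).val - 1, by have := (v p.1).isLt; omega⟩) := by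
    intro x hx
    simp only [mem_filter, mem_univ, true_and] at hx
    obtain ⟨i, h, h'⟩ := hx
    simp only [mem_image, mem_univ, true_and, Prod.exists]
    rcases h' with h' | h'
    · refine ⟨i, true, ?_⟩
      funext j
      by_cases hj : j = i
      · subst hj
        have := (x j).isLt
        rw [Function.update_self]
        apply Fin.ext
        simp only [if_true]
        omega
      · rw [Function.update_of_ne hj, h j hj]
    · refine ⟨i, false, ?_⟩
      funext j
      by_cases hj : j = i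
      · subst hj
        rw [Function.update_self]
        apply Fin.ext
        simp only [Bool.false_eq_true, if_false]
        omega
      · rw [Function.update_of_ne hj, h j hj]
  calc (univ.filter fun x => (bG d l).Adj v x).card ≤ _ := card_le_card hsub
    _ ≤ (univ : Finset (Fin d × Bool)).card := card_image_le
    _ = 2 * d := by rw [card_univ, Fintype.card_prod, Fintype.card_fin, Fintype.card_bool, mul_comm]

private theorem E14_gen {W : Type} [Fintype W] [DecidableEq W] {q : ℕ} {G : SimpleGraph W} {ev : W → Prop}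
    (hG : Par G ev) (Δ : ℕ) (hΔ : ∀ v, (nb G v).card ≤ Δ) (y x₀ : W) (μ : W → ℕ) (P : W → Prop)
    (h0 : ∀ x, P x → μ x = 0 → x = x₀) (hs : ∀ x, P x → μ x ≠ 0 → ∃ x', P x' ∧ μ x' + 1 = μ x ∧ G.Adj x' x)
    (hy : ∀ x, P x → y ≠ x) (n : ℕ) : ∀ x, P x → μ x = n → WK q G x y ≤ (1 + (q : ℝ) * 2 ^ Δ) ^ n * WK q G x₀ y := by
  induction n with
  | zero =>
    intro x hx hn
    rw [h0 x hx hn, pow_zero, one_mul]
  | succ n ih =>
    intro x hx hn
    obtain ⟨x', hx', hμ, hadj⟩ := hs x hx (by omega)
    have h1 := ih x' hx' (by omega)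
    have h2 := harnack (q := q) hG hadj (hy x' hx') (hy x hx) Δ (hΔ x')
    have h3 : (0 : ℝ) ≤ 1 + (q : ℝ) * 2 ^ Δ := by positivity
    calc WK q G x y ≤ (1 + (q : ℝ) * 2 ^ Δ) * WK q G x' y := h2
      _ ≤ (1 + (q : ℝ) * 2 ^ Δ) * ((1 + (q : ℝ) * 2 ^ Δ) ^ n * WK q G x₀ y) :=
        mul_le_mul_of_nonneg_left h1 h3
      _ = (1 + (q : ℝ) * 2 ^ Δ) ^ (n + 1) * WK q G x₀ y := by ring

private theorem E14_low {d q N M : ℕ} (hd : 1 ≤ d) (x y : BxV d N) (hx : ∀ i, (x i).val ≤ M)
    (hxy : ∀ i j, (x i).val < (y j).val) :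
    WK q (bG d N) x y ≤ (1 + (q : ℝ) * 4 ^ d) ^ (d * M) * WK q (bG d N) (fun _ => 0) y := by
  classical
  have e4 : (2 : ℝ) ^ (2 * d) = 4 ^ d := by
    rw [pow_mul]; norm_num
  have h := E14_gen (q := q) (bG_par' d N) (2 * d) (fun v => bG_deg d N v) y (fun _ => 0)
    (fun x => ∑ i, (x i).val) (fun x => ∀ i j, (x i).val < (y j).val) ?_ ?_ ?_ (∑ i, (x i).val) x hxy rfl
  · rw [e4] at h
    refine h.trans (mul_le_mul_of_nonneg_right ?_ (WK_nonneg _ _ _))
    refine pow_le_pow_right₀ ?_ ?_
    · have : (0 : ℝ) ≤ (q : ℝ) * 4 ^ d := by positivity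
      linarith
    · calc ∑ i, (x i).val ≤ ∑ _i : Fin d, M := sum_le_sum fun i _ => hx i
        _ = d * M := by rw [sum_const, card_univ, Fintype.card_fin, smul_eq_mul]
  · intro z _ hz
    funext i
    apply Fin.ext
    have := (sum_eq_zero_iff.1 hz) i (mem_univ i)
    simpa using this
  · intro z hz hne
    obtain ⟨i, hi⟩ : ∃ i, (z i).val ≠ 0 := by
      by_contra hc
      exact hne (sum_eq_zero fun i _ => by
        by_contra h'
        exact hc ⟨i, h'⟩)
    have hadj : (bG d N).Adj (Function.update z i ⟨(z i).val - 1, by have := (z i).isLt; omega⟩) z := by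
      refine ⟨i, fun j hj => Function.update_of_ne hj _ _, Or.inl ?_⟩
      rw [Function.update_self]
      show (z i).val - 1 + 1 = (z i).val
      omega
    refine ⟨Function.update z i ⟨(z i).val - 1, by have := (z i).isLt; omega⟩, ?_, ?_, hadj⟩
    · intro j k
      by_cases hj : j = i
      · subst hj
        rw [Function.update_self]
        show (z j).val - 1 < (y k).val
        have := hz j k
        omega
      · rw [Function.update_of_ne hj]
        exact hz j k
    · have hs := E14_sum (Function.update z i (⟨(z i).val - 1, by have := (z i).isLt; omega⟩ : Fin (N + 1))) z i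
        (fun j hj => Function.update_of_ne hj _ _)
      rw [Function.update_self] at hs
      have hs' : (∑ j, ((Function.update z i (⟨(z i).val - 1, by have := (z i).isLt; omega⟩ : Fin (N + 1))) j).val) +
          (z i).val = (∑ j, (z j).val) + ((z i).val - 1) := hs
      show (∑ j, ((Function.update z i (⟨(z i).val - 1, by have := (z i).isLt; omega⟩ : Fin (N + 1))) j).val) + 1 =
        ∑ j, (z j).val
      omega
  · intro z hz he
    have := hz ⟨0, by omega⟩ ⟨0, by omega⟩
    rw [he] at this
    omega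

private theorem E14_high {d q N M : ℕ} (hd : 1 ≤ d) (y : BxV d N) (hy : ∀ i, N ≤ (y i).val + M)
    (hy0 : ∀ i, 0 < (y i).val) :
    WK q (bG d N) y (fun _ => 0) ≤ (1 + (q : ℝ) * 4 ^ d) ^ (d * M) *
      WK q (bG d N) (fun _ => Fin.last N) (fun _ => 0) := by
  classical
  have e4 : (2 : ℝ) ^ (2 * d) = 4 ^ d := by
    rw [pow_mul]; norm_num
  have h := E14_gen (q := q) (bG_par' d N) (2 * d) (fun v => bG_deg d N v) (fun _ => 0) (fun _ => Fin.last N)
    (fun x => ∑ i, (N - (x i).val)) (fun x => ∀ i, 0 < (x i).val) ?_ ?_ ?_ (∑ i, (N - (y i).val)) y hy0 rfl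
  · rw [e4] at h
    refine h.trans (mul_le_mul_of_nonneg_right ?_ (WK_nonneg _ _ _))
    refine pow_le_pow_right₀ ?_ ?_
    · have : (0 : ℝ) ≤ (q : ℝ) * 4 ^ d := by positivity
      linarith
    · calc ∑ i, (N - (y i).val) ≤ ∑ _i : Fin d, M := sum_le_sum fun i _ => by
            have := hy i
            omega
        _ = d * M := by rw [sum_const, card_univ, Fintype.card_fin, smul_eq_mul]
  · intro z _ hz
    funext i
    apply Fin.ext
    have h1 := (sum_eq_zero_iff.1 hz) i (mem_univ i)
    have h2 := (z i).isLt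
    show (z i).val = N
    omega
  · intro z hz hne
    obtain ⟨i, hi⟩ : ∃ i, N - (z i).val ≠ 0 := by
      by_contra hc
      exact hne (sum_eq_zero fun i _ => by
        by_contra h'
        exact hc ⟨i, h'⟩)
    have hlt : (z i).val + 1 < N + 1 := by omega
    have hadj : (bG d N).Adj (Function.update z i ⟨(z i).val + 1, hlt⟩) z := by
      refine ⟨i, fun j hj => Function.update_of_ne hj _ _, Or.inr ?_⟩
      rw [Function.update_self]
    refine ⟨Function.update z i ⟨(z i).val + 1, hlt⟩, ?_, ?_, hadj⟩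
    · intro j
      by_cases hj : j = i
      · subst hj
        rw [Function.update_self]
        show 0 < (z j).val + 1
        omega
      · rw [Function.update_of_ne hj]
        exact hz j
    · have h1 : ∑ j, (N - (Function.update z i (⟨(z i).val + 1, hlt⟩ : Fin (N + 1)) j).val) =
          (N - ((z i).val + 1)) + ∑ j ∈ univ.erase i, (N - (z j).val) := by
        rw [← add_sum_erase univ _ (mem_univ i), Function.update_self]
        congr 1
        refine sum_congr rfl fun j hj => ?_
        rw [Function.update_of_ne (ne_of_mem_erase hj)]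
      have h2 : ∑ j, (N - (z j).val) = (N - (z i).val) + ∑ j ∈ univ.erase i, (N - (z j).val) :=
        (add_sum_erase univ (fun j => N - (z j).val) (mem_univ i)).symm
      show ∑ j, (N - (Function.update z i (⟨(z i).val + 1, hlt⟩ : Fin (N + 1)) j).val) + 1 =
        ∑ j, (N - (z j).val)
      rw [h1, h2]
      omega
  · intro z hz he
    have := hz ⟨0, by omega⟩
    rw [← he] at this
    exact absurd this (by simp)

theorem harn {d q N M : ℕ} (hd : 1 ≤ d) (x y : BxV d N) (hx : ∀ i, (x i).val ≤ M) (hy : ∀ i, N ≤ (y i).val + M)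
    (hxy : ∀ i j, (x i).val < (y j).val) :
    WK q (bG d N) x y ≤ (1 + (q : ℝ) * 4 ^ d) ^ (2 * (d * M)) * WK q (bG d N) (fun _ => 0) (fun _ => Fin.last N) := by
  have hC : (0 : ℝ) ≤ (1 + (q : ℝ) * 4 ^ d) ^ (d * M) := by positivity
  have s1 := E14_low (q := q) hd x y hx hxy
  have s2 := E14_high (q := q) hd y hy (fun i => lt_of_le_of_lt (Nat.zero_le _) (hxy i i))
  have hp := bG_par' d N
  calc WK q (bG d N) x y ≤ (1 + (q : ℝ) * 4 ^ d) ^ (d * M) * WK q (bG d N) (fun _ => 0) y := s1
    _ = (1 + (q : ℝ) * 4 ^ d) ^ (d * M) * WK q (bG d N) y (fun _ => 0) := by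
        rw [WK_symm hp (fun _ => 0) y]
    _ ≤ (1 + (q : ℝ) * 4 ^ d) ^ (d * M) * ((1 + (q : ℝ) * 4 ^ d) ^ (d * M) *
        WK q (bG d N) (fun _ => Fin.last N) (fun _ => 0)) := mul_le_mul_of_nonneg_left s2 hC
    _ = (1 + (q : ℝ) * 4 ^ d) ^ (2 * (d * M)) * WK q (bG d N) (fun _ => Fin.last N) (fun _ => 0) := by
        rw [two_mul (d * M), pow_add (1 + (q : ℝ) * 4 ^ d)]
        ring
    _ = _ := by rw [WK_symm hp (fun _ => Fin.last N) (fun _ => 0)]

end Pool.Agent.LC
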