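import Pool.Agent.Lib_MP_2c424f_lc7.E13
import Pool.Agent.Lib_MP_2c424f_lc7.E14
import Pool.Agent.Lib_MP_2c424f_pr.LIM
import Pool.Agent.Lib_MP_2c424f_lc2.A12

/-!
# LC7 E15: long-range order

* `Dq_bG`: `BG d n` and `bG d n` have the same edges (`bd x y = 1` iff one coordinate changes by `1`); `cnt` is the cardinality of the finset; the corners have the
  same parity? (`WK_same` needs `bev 0 ↔ bev (N, …, N)`: `d N` is even since `NS` is even).  `Dq = (q cG (f c0 = f c1) - cG True)/(q cG True)`, `WK_same`.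
* `lro_pos`: `corr_large`, `harn` with `M = 3 h + w` (`NS - 2 M > 0`: `x i ≤ M < NS - M ≤ y j` holds for `K ≥ 1`: `w 2^K + 6 h + 2 > 6 h + 2 w`),
  `cG True > 0`: `Dq ≥ 1/(2 q (1 + q 4^d)^(2 d M))`, independent of `K`.
* `lro`: `NS e K → ∞`, so `Dq` does not tend to `0`.
* `qc_lin`: `q = 2 ⌊d/1000⌋` satisfies `Rg d q` for `d ≥ 2000`; `{q ≥ 2 : LRO q d}` is bounded by `main_qc` (`ε = 1`); `q ≥ d/1000`.
-/

set_option autoImplicit false

open Finset Filter

namespace Pool.Agent.LC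

open Pool.Agent.LO Pool.Agent.LIN Pool.Agent.THR Pool.Agent.COR

private theorem E15_adj {d n : ℕ} (x y : QC.Bx d n) : (QC.BG d n).Adj x y ↔ (bG d n).Adj x y := by
  show QC.bd x y = 1 ↔ ∃ i, (∀ j, j ≠ i → x j = y j) ∧ ((x i).val + 1 = (y i).val ∨ (y i).val + 1 = (x i).val)
  unfold QC.bd
  constructor
  · intro h
    have hne : ∃ i, ((x i : ℤ) - (y i : ℤ)).natAbs ≠ 0 := by
      by_contra hc
      push Not at hc
      rw [sum_eq_zero fun i _ => hc i] at h
      omega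
    obtain ⟨i, hi⟩ := hne
    have h1 := add_sum_erase univ (fun i => ((x i : ℤ) - (y i : ℤ)).natAbs) (mem_univ i)
    have h2 : ∑ j ∈ univ.erase i, ((x j : ℤ) - (y j : ℤ)).natAbs = 0 := by omega
    refine ⟨i, fun j hj => ?_, by omega⟩
    have h3 := (sum_eq_zero_iff.1 h2) j (mem_erase.2 ⟨hj, mem_univ j⟩)
    apply Fin.ext
    omega
  · rintro ⟨i, h1, h2⟩
    rw [sum_eq_single i]
    · omega
    · intro j _ hj
      rw [h1 j hj]
      simp
    · intro h
      exact absurd (mem_univ i) h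

private theorem E15_proper {d n q : ℕ} (f : BxV d n → Fin q) : QC.Proper (QC.BG d n) f ↔ PrG (bG d n) f := by
  unfold QC.Proper PrG
  constructor
  · exact fun h x y hxy => h x y ((E15_adj x y).2 hxy)
  · exact fun h x y hxy => h x y ((E15_adj x y).1 hxy)

open scoped Classical in
private theorem E15_cnt {d n q : ℕ} (P : (BxV d n → Fin q) → Prop) (R : (BxV d n → Fin q) → Prop)
    (h : ∀ f, R f ↔ (PrG (bG d n) f ∧ P f)) : (QC.cnt R : ℝ) = cG (bG d n) P := by
  unfold QC.cnt cG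
  congr 1
  have e : {a | R a} = ((univ.filter fun f : BxV d n → Fin q => PrG (bG d n) f ∧ P f : Finset (BxV d n → Fin q)) :
      Set (BxV d n → Fin q)) := by
    ext f
    simp only [Set.mem_ofPred_eq, mem_coe, mem_filter, mem_univ, true_and]
    exact h f
  rw [e, Set.ncard_coe_finset]

theorem Dq_bG {d n q : ℕ} (hq : 2 ≤ q) (hn : Even n) :
    QC.Dq q d n = WK q (bG d n) (fun _ => 0) (fun _ => Fin.last n) /
      (q * cG (bG d n) (fun _ : BxV d n → Fin q => True)) := by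
  have hp : (bev (fun _ => 0 : BxV d n) ↔ bev (fun _ => Fin.last n : BxV d n)) := by
    unfold bev
    have e1 : ∑ i : Fin d, ((fun _ => 0 : BxV d n) i).val = 0 := by simp
    have e2 : ∑ i : Fin d, ((fun _ => Fin.last n : BxV d n) i).val = d * n := by simp
    rw [e1, e2]
    exact ⟨fun _ => hn.mul_left d, fun _ => ⟨0, rfl⟩⟩
  have h1 := WK_same (q := q) (bG_par' d n) hp
  have hpos : 0 < cG (bG d n) (fun _ : BxV d n → Fin q => True) := A12_pos hq
  have hq0 : (q : ℝ) ≠ 0 := by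
    have : q ≠ 0 := by omega
    exact_mod_cast this
  have e1 : (QC.cnt (fun f : QC.Bx d n → Fin q => QC.Proper (QC.BG d n) f ∧ f (QC.c0 d n) = f (QC.c1 d n)) : ℝ) =
      cG (bG d n) (fun f : BxV d n → Fin q => f (fun _ => 0) = f (fun _ => Fin.last n)) :=
    E15_cnt _ _ fun f => and_congr (E15_proper f) Iff.rfl
  have e2 : (QC.cnt (fun f : QC.Bx d n → Fin q => QC.Proper (QC.BG d n) f) : ℝ) =
      cG (bG d n) (fun _ : BxV d n → Fin q => True) :=
    E15_cnt _ _ fun f => by rw [E15_proper f, and_true]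
  unfold QC.Dq
  rw [e1, e2, h1]
  field_simp

private theorem E15_NS_even (e K : ℕ) : Even (NS e K) := by
  unfold NS wS
  exact ⟨2 ^ (5 * e) * 2 ^ K + 3 * hS e + 1, by ring⟩

private theorem E15_Rg {d q : ℕ} (hd : 1 ≤ d) (h : Rg d q) : 2 ≤ q := by
  obtain ⟨⟨r, hr⟩, _, h3⟩ := h
  omega

theorem lro_pos : ∃ C d₀ : ℕ, ∀ d q : ℕ, d₀ ≤ d → Rg d q →
    ∃ c : ℝ, 0 < c ∧ ∀ K : ℕ, 1 ≤ K → c ≤ QC.Dq q d (NS (eC C d) K) := by
  obtain ⟨C, d₀, _, H⟩ := corr_large
  refine ⟨C, max d₀ 1, fun d q hd hR => ?_⟩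
  have hd0 : d₀ ≤ d := (le_max_left _ _).trans hd
  have hd1 : 1 ≤ d := (le_max_right _ _).trans hd
  have hq := E15_Rg hd1 hR
  have hq0 : (0 : ℝ) < q := by
    have : 0 < q := by omega
    exact_mod_cast this
  have H' := H d q hd0 hR
  generalize eC C d = e at H' ⊢
  set M := 3 * hS e + wS e with hM
  set B : ℝ := (1 + (q : ℝ) * 4 ^ d) ^ (2 * (d * M)) with hB
  have hBpos : 0 < B := by positivity
  refine ⟨1 / (2 * B * q), by positivity, fun K hK => ?_⟩
  obtain ⟨x, y, hx, hy, hxy⟩ := H' K hK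
  have hw : 2 * wS e ≤ wS e * 2 ^ K := by
    rw [mul_comm]
    refine Nat.mul_le_mul_left _ ?_
    calc 2 = 2 ^ 1 := rfl
      _ ≤ 2 ^ K := Nat.pow_le_pow_right (by norm_num) hK
  have hNS : NS e K = wS e * 2 ^ K + 6 * hS e + 2 := rfl
  have h1 := harn (q := q) hd1 x y (M := M) (fun i => hx i) (fun i => by
    have := hy i
    omega) (fun i j => by
    have h1 := hx i
    have h2 := hy j
    omega)
  have hpos : 0 < cG (bG d (NS e K)) (fun _ : BxV d (NS e K) → Fin q => True) := A12_pos hq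
  rw [Dq_bG hq (E15_NS_even e K), div_le_div_iff₀ (by positivity) (by positivity)]
  have h2 : cG (bG d (NS e K)) (fun _ : BxV d (NS e K) → Fin q => True) / 2 ≤
      B * WK q (bG d (NS e K)) (fun _ => 0) (fun _ => Fin.last (NS e K)) := hxy.trans h1
  nlinarith

theorem lro : ∃ d₀ : ℕ, ∀ d q : ℕ, d₀ ≤ d → Rg d q → QC.LRO q d := by
  obtain ⟨C, d₀, H⟩ := lro_pos
  refine ⟨d₀, fun d q hd hR => ?_⟩
  obtain ⟨c, hc, hK⟩ := H d q hd hR
  intro ht
  have h1 : Tendsto (fun K : ℕ => NS (eC C d) K) atTop atTop := by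
    refine tendsto_atTop_mono (fun K => ?_) tendsto_id
    show K ≤ NS (eC C d) K
    unfold NS
    have h2 : K ≤ 2 ^ K := Nat.lt_two_pow_self.le
    have h3 : 1 ≤ wS (eC C d) := by
      unfold wS
      have : 0 < 2 ^ (5 * eC C d) := by positivity
      omega
    have h4 : 2 ^ K ≤ wS (eC C d) * 2 ^ K := Nat.le_mul_of_pos_left _ h3
    omega
  have h5 : Tendsto (fun K : ℕ => QC.Dq q d (NS (eC C d) K)) atTop (nhds 0) := ht.comp h1
  have h6 : c ≤ 0 := ge_of_tendsto h5 (eventually_atTop.2 ⟨1, fun K hK1 => hK K hK1⟩)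
  linarith

theorem qc_lin : ∃ d₀ : ℕ, ∀ d : ℕ, d₀ ≤ d → (d : ℝ) / 1000 ≤ (QC.qc d : ℝ) ∧ (QC.qc d : ℝ) ≤ 3 * d := by
  obtain ⟨d₁, H1⟩ := lro
  obtain ⟨d₂, H2⟩ := QC.main_qc (ε := 1) one_pos
  refine ⟨max (max d₁ d₂) 2000, fun d hd => ?_⟩
  have hd1 : d₁ ≤ d := ((le_max_left _ _).trans (le_max_left _ _)).trans hd
  have hd2 : d₂ ≤ d := ((le_max_right _ _).trans (le_max_left _ _)).trans hd
  have hd3 : 2000 ≤ d := (le_max_right _ _).trans hd
  obtain ⟨h1, h2⟩ := H2 d hd2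
  refine ⟨?_, ?_⟩
  · set r := d / 1000 with hr
    have hr1 : 1000 * r ≤ d := Nat.mul_div_le d 1000
    have hr2 : d < 1000 * (r + 1) := by
      have := Nat.lt_mul_div_succ d (show 0 < 1000 by norm_num)
      omega
    have hr3 : 2 ≤ r := by omega
    have hR : Rg d (2 * r) := ⟨⟨r, by ring⟩, by omega, by omega⟩
    have hL := H1 d (2 * r) hd1 hR
    have hb : BddAbove {q : ℕ | 2 ≤ q ∧ QC.LRO q d} := by
      refine ⟨3 * d, ?_⟩
      rintro q ⟨-, hq⟩
      have h3 := h1 q hq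
      have h4 : (q : ℝ) < ((3 * d : ℕ) : ℝ) := by
        push_cast
        linarith
      exact (Nat.cast_lt.1 h4).le
    have h5 : 2 * r ≤ QC.qc d := le_csSup hb ⟨by omega, hL⟩
    have h6 : (d : ℝ) ≤ 1000 * (2 * r : ℕ) := by
      have : d ≤ 1000 * (2 * r) := by omega
      exact_mod_cast this
    have h7 : ((2 * r : ℕ) : ℝ) ≤ QC.qc d := by exact_mod_cast h5
    rw [div_le_iff₀ (by norm_num)]
    linarith
  · linarith

end Pool.Agent.LC
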